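import Pool.Agent.Lib.MP_a7239a_co.AR.Defs

/-!
# AR: module BASIS
-/

set_option autoImplicit false

open Finset

namespace Pool.Agent.Lib.MPa7239a.AR

section
variable {p : ℕ} [Fact p.Prime] {G : Type} [AddCommGroup G] [Module (ZMod p) G] [Fintype G]
  [DecidableEq G]

omit [DecidableEq G] in
/-- the differences of a spread set contain a basis -/
theorem basis_of_spread {X : Finset G} {b h : ℕ} (hs : Spread (⊤ : Submodule (ZMod p) G) X b)
    (hb : b < #X) (hh : Module.finrank (ZMod p) G = h) :
    ∃ q ∈ X, ∃ (a : Fin h → G) (d : Module.Basis (Fin h) (ZMod p) G), ∀ i, a i ∈ X ∧ d i = a i - q := by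
  classical
  obtain ⟨q, hq⟩ : X.Nonempty := by
    rw [← Finset.card_pos]
    omega
  refine ⟨q, hq, ?_⟩
  set T : Set G := {x | ∃ a ∈ X, x = a - q} with hT
  have hspan : Submodule.span (ZMod p) T = ⊤ := by
    by_contra hne
    have h1 := hs (Submodule.span (ZMod p) T) (lt_top_iff_ne_top.2 hne) q X subset_rfl
      (fun a ha => Submodule.subset_span ⟨a, ha, rfl⟩)
    omega
  obtain ⟨B, hBT, hBspan, hli⟩ := exists_linearIndependent (ZMod p) T
  rw [hspan] at hBspan
  let e₀ : Module.Basis B (ZMod p) G := Module.Basis.mk hli (by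
    rw [Subtype.range_coe_subtype, Set.ofPred_mem_eq, hBspan])
  have hfin : Fintype B := Fintype.ofFinite B
  have hcard : Fintype.card B = h := by
    rw [← hh, Module.finrank_eq_card_basis e₀]
  let ε : B ≃ Fin h := Fintype.equivFinOfCardEq hcard
  have hmem : ∀ x : B, ∃ a ∈ X, (x : G) = a - q := fun x => hBT x.2
  choose a ha hax using hmem
  refine ⟨fun i => a (ε.symm i), e₀.reindex ε, fun i => ⟨ha _, ?_⟩⟩
  rw [Module.Basis.reindex_apply, Module.Basis.mk_apply, hax]

end

end Pool.Agent.Lib.MPa7239a.AR
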