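import Pool.Agent.Lib.MP_a7239a_co.AR.Defs

/-!
# AR: module COUNT
-/

set_option autoImplicit false

open Finset

namespace Pool.Agent.Lib.MPa7239a.AR

section
variable {p : ℕ} [Fact p.Prime] {G : Type} [AddCommGroup G] [Module (ZMod p) G] [Fintype G]
  [DecidableEq G]

omit [Fintype G] [DecidableEq G] in
/-- few forms have small values on a basis -/
theorem count_forms {h : ℕ} (d : Module.Basis (Fin h) (ZMod p) G) (W : ℕ)
    (S : Finset (G →ₗ[ZMod p] ZMod p))
    (hS : ∀ ξ ∈ S, ∀ i, (ξ (d i)).valMinAbs.natAbs < W) : #S ≤ (2 * W) ^ h := by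
  classical
  have h1 : #S ≤ #(Fintype.piFinset fun _ : Fin h => Finset.Ioo (-(W : ℤ)) (W : ℤ)) := by
    apply Finset.card_le_card_of_injOn fun ξ i => (ξ (d i)).valMinAbs
    · intro ξ hξ
      rw [Finset.mem_coe, Fintype.mem_piFinset]
      intro i
      have := hS ξ hξ i
      show (ξ (d i)).valMinAbs ∈ Finset.Ioo (-(W : ℤ)) (W : ℤ)
      rw [Finset.mem_Ioo]
      omega
    · intro ξ _ ζ _ hxz
      apply d.ext
      intro i
      exact ZMod.injective_valMinAbs (congrFun hxz i)
  refine h1.trans ?_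
  rw [Fintype.card_piFinset_const, Int.card_Ioo]
  apply Nat.pow_le_pow_left
  omega

end

end Pool.Agent.Lib.MPa7239a.AR
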