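import Pool.Agent.Lib.MP_a7239a_co.AR.PEEL

/-!
# AR, module DECO: decomposition into spread pieces
-/

open Finset
open scoped Pointwise

namespace Pool.Agent.Lib.MPa7239a.AR

open Pool.Agent.Lib.MPa7239a.GC
open Pool.Agent.Lib.MPa7239a.R3

namespace DECOM

/-- the conclusion -/
def Con (e : ℕ) (F : ℕ → ℕ) (N p : ℕ) {G : Type} [AddCommGroup G] [Module (ZMod p) G]
    (A : Finset G) : Prop :=
  ∃ (ι : Type) (_ : Fintype ι) (_ : DecidableEq ι) (B : ι → Finset G)
    (L : ι → Submodule (ZMod p) G), Fintype.card ι ≤ N ∧ Dec A B L ∧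
    e * #A ≤ e * ∑ i, #(B i) + p ∧
    ∀ i, B i = ∅ ∨ (p ≤ 2 * e * Fintype.card ι * #(B i) ∧
      ∃ b, Spread (L i) (B i) b ∧ F (Fintype.card ι) * b ≤ p)

/-- the state -/
def St (C e K n p : ℕ) {G : Type} [AddCommGroup G] [Module (ZMod p) G]
    (A : Finset G) : Prop :=
  ∃ (ι : Type) (_ : Fintype ι) (_ : DecidableEq ι) (B : ι → Finset G)
    (L : ι → Submodule (ZMod p) G), Fintype.card ι ≤ K ∧ Dec A B L ∧
    ∑ i, #(B i) = #A ∧ 2 * e * ∑ i, #(B i) * Module.finrank (ZMod p) (L i) ≤ n * p ∧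
    #A ≤ C * p

theorem stop {e : ℕ} {F : ℕ → ℕ} {N p : ℕ} {G : Type} [AddCommGroup G] [Module (ZMod p) G]
    {A : Finset G} {ι : Type} [Fintype ι] [DecidableEq ι]
    {R : ι → Finset G} {L : ι → Submodule (ZMod p) G} (hN : Fintype.card ι ≤ N) {b m : ℕ}
    (hD : Dec A R L) (hs : ∀ i, Spread (L i) (R i) b)
    (hb : F (Fintype.card ι) * b ≤ p) (hm : 2 * e * m ≤ p) (hA : #A = ∑ i, #(R i) + m) :
    Con e F N p A := by
  classical
  set K := Fintype.card ι with hK
  set B' : ι → Finset G := fun i => if p ≤ 2 * e * K * #(R i) then R i else ∅ with hB'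
  have hsub : ∀ i, B' i ⊆ R i := by
    intro i
    simp only [hB']
    split_ifs
    · exact subset_rfl
    · exact empty_subset _
  refine ⟨ι, inferInstance, inferInstance, B', L, hN, ?_, ?_, ?_⟩
  · exact ⟨fun i => (hsub i).trans (hD.sub i),
      fun i j hij => disjoint_of_subset_left (hsub i)
        (disjoint_of_subset_right (hsub j) (hD.disj i j hij)),
      fun i x hx y hy => hD.cos i x (hsub i hx) y (hsub i hy)⟩
  · have h1 : ∀ i, 2 * e * K * #(R i) ≤ 2 * e * K * #(B' i) + p := by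
      intro i
      simp only [hB']
      split_ifs with h
      · omega
      · simp only [card_empty, mul_zero, zero_add]
        omega
    have h2 : 2 * e * K * ∑ i, #(R i) ≤ 2 * e * K * ∑ i, #(B' i) + K * p := by
      calc 2 * e * K * ∑ i, #(R i) = ∑ i, 2 * e * K * #(R i) := by rw [mul_sum]
        _ ≤ ∑ i, (2 * e * K * #(B' i) + p) := sum_le_sum fun i _ => h1 i
        _ = 2 * e * K * ∑ i, #(B' i) + K * p := by
          rw [sum_add_distrib, ← mul_sum, sum_const, card_univ, smul_eq_mul, hK]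
    have h3 : 2 * e * ∑ i, #(R i) ≤ 2 * e * ∑ i, #(B' i) + p := by
      rcases Nat.eq_zero_or_pos K with h0 | h0
      · have : IsEmpty ι := Fintype.card_eq_zero_iff.1 h0
        simp
      · refine Nat.le_of_mul_le_mul_left ?_ h0
        calc K * (2 * e * ∑ i, #(R i)) = 2 * e * K * ∑ i, #(R i) := by ring
          _ ≤ 2 * e * K * ∑ i, #(B' i) + K * p := h2
          _ = K * (2 * e * ∑ i, #(B' i) + p) := by ring
    have h4 : 2 * (e * #A) ≤ 2 * (e * ∑ i, #(B' i) + p) := by
      calc 2 * (e * #A) = 2 * e * ∑ i, #(R i) + 2 * e * m := by rw [hA]; ring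
        _ ≤ (2 * e * ∑ i, #(B' i) + p) + p := Nat.add_le_add h3 hm
        _ = 2 * (e * ∑ i, #(B' i) + p) := by ring
    omega
  · intro i
    by_cases h : p ≤ 2 * e * K * #(R i)
    · right
      have hi : B' i = R i := by simp only [hB']; rw [if_pos h]
      rw [hi]
      exact ⟨h, b, hs i, hb⟩
    · left
      simp only [hB']
      rw [if_neg h]

theorem main (C e : ℕ) (he : 1 ≤ e) (F : ℕ → ℕ) (hF : ∀ K, 1 ≤ F K) (n : ℕ) :
    ∀ K : ℕ, ∃ N : ℕ, ∀ (p : ℕ) [Fact p.Prime] (G : Type) [AddCommGroup G] [Module (ZMod p) G]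
      [Fintype G] [DecidableEq G] (A : Finset G), St C e K n p A → Con e F N p A := by
  classical
  induction n with
  | zero =>
    intro K
    refine ⟨K, fun p _ G _ _ _ _ A hS => ?_⟩
    obtain ⟨ι, _, _, B, L, hK, hD, hsum, hE, hC⟩ := hS
    obtain ⟨s, R, D, M, hD', hRB, hs, hsb, hRC, hen⟩ := peel hD (p / F (Fintype.card ι))
    have hE0 : ∑ i, #(B i) * Module.finrank (ZMod p) (L i) = 0 := by
      rw [zero_mul] at hE
      have h1 : 2 * e * ∑ i, #(B i) * Module.finrank (ZMod p) (L i) = 0 := Nat.le_zero.1 hE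
      rcases Nat.mul_eq_zero.1 h1 with h2 | h2
      · omega
      · exact h2
    have hm : ∑ j, #(D j) = 0 := by omega
    refine stop hK (b := p / F (Fintype.card ι)) (m := ∑ j, #(D j)) (R := R) (L := L)
      ⟨fun i => (hRB i).trans (hD.sub i), fun i j hij => disjoint_of_subset_left (hRB i)
        (disjoint_of_subset_right (hRB j) (hD.disj i j hij)),
        fun i x hx y hy => hD.cos i x (hRB i hx) y (hRB i hy)⟩ hs (Nat.mul_div_le _ _) ?_ ?_
    · rw [hm]; omega
    · rw [← hsum]; exact hRC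
  | succ n ih =>
    intro K
    obtain ⟨N, hN⟩ := ih (K + C * ∑ k ∈ range (K + 1), F k)
    refine ⟨max K N, fun p _ G _ _ _ _ A hS => ?_⟩
    obtain ⟨ι, _, _, B, L, hK, hD, hsum, hE, hC⟩ := hS
    set k := Fintype.card ι with hk
    obtain ⟨s, R, D, M, hD', hRB, hs, hsb, hRC, hen⟩ := peel hD (p / F k)
    by_cases hm : 2 * e * ∑ j, #(D j) ≤ p
    · refine stop (hK.trans (le_max_left _ _)) (b := p / F k) (m := ∑ j, #(D j)) (R := R) (L := L)
        ⟨fun i => (hRB i).trans (hD.sub i), fun i j hij => disjoint_of_subset_left (hRB i)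
          (disjoint_of_subset_right (hRB j) (hD.disj i j hij)),
          fun i x hx y hy => hD.cos i x (hRB i hx) y (hRB i hy)⟩ hs (Nat.mul_div_le _ _) hm ?_
      rw [← hsum]; exact hRC
    · have hcon : Con e F N p A := by
        refine hN p G A ⟨ι ⊕ Fin s, inferInstance, inferInstance, Sum.elim R D, Sum.elim L M,
          ?_, hD', ?_, ?_, hC⟩
        · rw [Fintype.card_sum, Fintype.card_fin, ← hk]
          refine Nat.add_le_add hK ?_
          have h1 : p < (p / F k + 1) * F k := Nat.lt_div_mul_add (hF k) |>.trans_eq (by ring)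
          have h2 : s * (p / F k + 1) ≤ (C * F k) * (p / F k + 1) := by
            calc s * (p / F k + 1) ≤ #A := hsb
              _ ≤ C * p := hC
              _ ≤ C * ((p / F k + 1) * F k) := Nat.mul_le_mul_left _ h1.le
              _ = (C * F k) * (p / F k + 1) := by ring
          have h3 : s ≤ C * F k := Nat.le_of_mul_le_mul_right h2 (Nat.succ_pos _)
          refine h3.trans (Nat.mul_le_mul_left _ ?_)
          exact single_le_sum (f := F) (fun _ _ => Nat.zero_le _)
            (mem_range.2 (Nat.lt_succ_of_le hK))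
        · rw [Fintype.sum_sum_type]
          simp only [Sum.elim_inl, Sum.elim_inr]
          rw [← hsum, hRC]
        · rw [Fintype.sum_sum_type]
          have h1 := Nat.mul_le_mul_left (2 * e) hen
          rw [mul_add] at h1
          have h2 : (n + 1) * p = n * p + p := by ring
          have h3 : 2 * e * (∑ i, #(R i) * Module.finrank (ZMod p) (L i) +
              ∑ j, #(D j) * Module.finrank (ZMod p) (M j)) ≤ n * p := by omega
          exact h3
      obtain ⟨κ, i1, i2, B', L', h1, h2, h3, h4⟩ := hcon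
      exact ⟨κ, i1, i2, B', L', h1.trans (le_max_right _ _), h2, h3, h4⟩

end DECOM

open DECOM in
theorem decomposition (r C e : ℕ) (he : 1 ≤ e) (F : ℕ → ℕ) (hF : ∀ K, 1 ≤ F K) : ∃ N : ℕ,
    ∀ (p : ℕ) [Fact p.Prime] (G : Type) [AddCommGroup G] [Module (ZMod p) G] [Fintype G]
      [DecidableEq G], Module.finrank (ZMod p) G ≤ r → ∀ A : Finset G, #A ≤ C * p →
      ∃ (ι : Type) (_ : Fintype ι) (_ : DecidableEq ι) (B : ι → Finset G)
        (L : ι → Submodule (ZMod p) G), Fintype.card ι ≤ N ∧ Dec A B L ∧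
        e * #A ≤ e * ∑ i, #(B i) + p ∧
        ∀ i, B i = ∅ ∨ (p ≤ 2 * e * Fintype.card ι * #(B i) ∧
          ∃ b, Spread (L i) (B i) b ∧ F (Fintype.card ι) * b ≤ p) := by
  classical
  obtain ⟨N, hN⟩ := main C e he F hF (2 * e * (C * r)) 1
  refine ⟨N, fun p _ G _ _ _ _ hr A hA => hN p G A ?_⟩
  refine ⟨Unit, inferInstance, inferInstance, fun _ => A, fun _ => ⊤, by simp, ?_, by simp, ?_, hA⟩
  · exact ⟨fun _ => subset_rfl, fun i j hij => absurd (Subsingleton.elim i j) hij,
      fun _ _ _ _ _ => Submodule.mem_top⟩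
  · rw [Fintype.sum_unique, finrank_top]
    calc 2 * e * (#A * Module.finrank (ZMod p) G) ≤ 2 * e * (C * p * r) :=
          Nat.mul_le_mul_left _ (Nat.mul_le_mul hA hr)
      _ = 2 * e * (C * r) * p := by ring

end Pool.Agent.Lib.MPa7239a.AR
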