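import Pool.Agent.Lib.MP_a7239a_co.AR.Defs

/-!
# AR, module DOUBLE: the exchanges double the sumset in `N` steps
-/

set_option autoImplicit false
set_option linter.unusedSectionVars false

open Finset
open scoped Pointwise

namespace Pool.Agent.Lib.MPa7239a.AR

open Pool.Agent.Lib.MPa7239a.GC
open Pool.Agent.Lib.MPa7239a.R3

section
variable {p : ℕ} [Fact p.Prime] {G : Type} [AddCommGroup G] [Module (ZMod p) G] [Fintype G]
  [DecidableEq G]

namespace DOUBLEM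

/-- after `n` steps -/
theorem run {X : Finset G} {M N x : ℕ} (hN : 1 ≤ N)
    (hstep : ∀ (m : ℕ) (P Q : Finset G) (σ : G) (Y : Finset G),
      Exch (⊤ : Submodule (ZMod p) G) X X m P Q σ Y → m < M → x ≤ #Y → #Y < 2 * x →
      2 * #Y ≤ Nat.card G →
      ∃ a ∈ X \ (P ∪ Q), ∃ b ∈ X \ (P ∪ Q), #Y ≤ N * #((Y + {a - b}) \ Y))
    {m₀ : ℕ} {P₀ Q₀ : Finset G} {σ₀ : G} {Y₀ : Finset G}
    (h₀ : Exch (⊤ : Submodule (ZMod p) G) X X m₀ P₀ Q₀ σ₀ Y₀) (hM : m₀ + N ≤ M) (hx : x ≤ #Y₀)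
    (n : ℕ) (hn : n ≤ N) :
    (∃ (m : ℕ) (P Q : Finset G) (σ : G) (Y : Finset G), m ≤ m₀ + N ∧
      Exch (⊤ : Submodule (ZMod p) G) X X m P Q σ Y ∧ (2 * x ≤ #Y ∨ Nat.card G < 2 * #Y)) ∨
    ∃ (P Q : Finset G) (σ : G) (Y : Finset G),
      Exch (⊤ : Submodule (ZMod p) G) X X (m₀ + n) P Q σ Y ∧ N * x + n * x ≤ N * #Y := by
  induction n with
  | zero =>
    right
    refine ⟨P₀, Q₀, σ₀, Y₀, h₀, ?_⟩
    rw [zero_mul, add_zero]
    exact Nat.mul_le_mul_left _ hx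
  | succ n ih =>
    rcases ih (by omega) with h | ⟨P, Q, σ, Y, h, hgr⟩
    · exact Or.inl h
    · by_cases h2 : 2 * x ≤ #Y ∨ Nat.card G < 2 * #Y
      · exact Or.inl ⟨m₀ + n, P, Q, σ, Y, by omega, h, h2⟩
      · push Not at h2
        have hxY : x ≤ #Y := by
          have h3 : N * x ≤ N * #Y := le_trans (Nat.le_add_right _ _) hgr
          exact Nat.le_of_mul_le_mul_left h3 hN
        obtain ⟨a, ha, b, hb, hle⟩ := hstep (m₀ + n) P Q σ Y h (by omega) hxY h2.1 h2.2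
        have hY : 0 < #Y := card_pos.2 h.ne
        have hne : a ≠ b := by
          rintro rfl
          rw [sub_self] at hle
          have h1 : Y + {(0 : G)} = Y := by
            rw [add_singleton]
            simp
          rw [h1, Finset.sdiff_self, card_empty] at hle
          omega
        right
        refine ⟨insert a P, insert b Q, σ + b, Y ∪ (Y + {a - b}),
          GREEDYM.step h ha hb Submodule.mem_top hne, ?_⟩
        have h4 : #(Y ∪ (Y + {a - b})) = #((Y + {a - b}) \ Y) + #Y := by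
          rw [card_sdiff_add_card, union_comm]
        rw [h4]
        calc N * x + (n + 1) * x = (N * x + n * x) + x := by ring
          _ ≤ N * #Y + N * #((Y + {a - b}) \ Y) := by
              refine Nat.add_le_add hgr ?_
              exact hxY.trans hle
          _ = N * (#((Y + {a - b}) \ Y) + #Y) := by ring

end DOUBLEM

theorem double {X : Finset G} {M N x : ℕ} (hN : 1 ≤ N)
    (hstep : ∀ (m : ℕ) (P Q : Finset G) (σ : G) (Y : Finset G),
      Exch (⊤ : Submodule (ZMod p) G) X X m P Q σ Y → m < M → x ≤ #Y → #Y < 2 * x →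
      2 * #Y ≤ Nat.card G →
      ∃ a ∈ X \ (P ∪ Q), ∃ b ∈ X \ (P ∪ Q), #Y ≤ N * #((Y + {a - b}) \ Y))
    {m₀ : ℕ} {P₀ Q₀ : Finset G} {σ₀ : G} {Y₀ : Finset G}
    (h₀ : Exch (⊤ : Submodule (ZMod p) G) X X m₀ P₀ Q₀ σ₀ Y₀) (hM : m₀ + N ≤ M) (hx : x ≤ #Y₀) :
    ∃ (m : ℕ) (P Q : Finset G) (σ : G) (Y : Finset G), m ≤ m₀ + N ∧
      Exch (⊤ : Submodule (ZMod p) G) X X m P Q σ Y ∧ (2 * x ≤ #Y ∨ Nat.card G < 2 * #Y) := by
  rcases DOUBLEM.run hN hstep h₀ hM hx N le_rfl with h | ⟨P, Q, σ, Y, h, hgr⟩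
  · exact h
  · refine ⟨m₀ + N, P, Q, σ, Y, le_rfl, h, Or.inl ?_⟩
    have h3 : N * (2 * x) ≤ N * #Y := by
      calc N * (2 * x) = N * x + N * x := by ring
        _ ≤ N * #Y := hgr
    exact Nat.le_of_mul_le_mul_left h3 hN

end

end Pool.Agent.Lib.MPa7239a.AR
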