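import Pool.Agent.Lib.MP_a7239a_co.AR.Defs

/-!
# ARX, module LIFTX: sequences with bounded multiplicities, and their lifts to sets
-/

set_option autoImplicit false
set_option linter.unusedSectionVars false

open Finset

namespace Pool.Agent.Lib.MPa7239a.AR

/-- the largest length of a sequence over `H` in which no element occurs more than `c` times and
no `h` terms have sum `0` -/
noncomputable def seqMax (H : Type) [AddCommGroup H] (h c : ℕ) : ℕ :=
  sSup {s : ℕ | ∃ f : Fin s → H,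
    (∀ (x : H) (T : Finset (Fin s)), (∀ i ∈ T, f i = x) → #T ≤ c) ∧
      ∀ T : Finset (Fin s), #T = h → ∑ i ∈ T, f i ≠ 0}

namespace LIFTXM

theorem bdd (H : Type) [AddCommGroup H] [Finite H] (h c : ℕ) : BddAbove {s : ℕ | ∃ f : Fin s → H,
    (∀ (x : H) (T : Finset (Fin s)), (∀ i ∈ T, f i = x) → #T ≤ c) ∧
      ∀ T : Finset (Fin s), #T = h → ∑ i ∈ T, f i ≠ 0} := by
  classical
  have := Fintype.ofFinite H
  refine ⟨c * Fintype.card H, ?_⟩
  rintro s ⟨f, hf, -⟩
  have h1 : #(univ : Finset (Fin s)) ≤ c * #(univ : Finset H) :=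
    card_le_mul_card_image_of_maps_to (f := f) (fun _ _ => mem_univ _) c fun x _ =>
      hf x _ fun i hi => (mem_filter.1 hi).2
  rwa [card_univ, card_univ, Fintype.card_fin] at h1

/-- any index type -/
theorem le_seqMax {H : Type} [AddCommGroup H] [Finite H] {h c : ℕ} {κ : Type} [Fintype κ]
    (f : κ → H) (hf : ∀ (x : H) (T : Finset κ), (∀ i ∈ T, f i = x) → #T ≤ c)
    (hf' : ∀ T : Finset κ, #T = h → ∑ i ∈ T, f i ≠ 0) : Fintype.card κ ≤ seqMax H h c := by
  refine le_csSup (bdd H h c) ⟨f ∘ (Fintype.equivFin κ).symm, ?_, ?_⟩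
  · intro x T hT
    have h1 := hf x (T.map (Fintype.equivFin κ).symm.toEmbedding) (by
      intro i hi
      obtain ⟨j, hj, rfl⟩ := mem_map.1 hi
      exact hT j hj)
    rwa [card_map] at h1
  · intro T hT h0
    refine hf' (T.map (Fintype.equivFin κ).symm.toEmbedding) (by rw [card_map, hT]) ?_
    rw [sum_map]
    exact h0

theorem seqMax_mem (H : Type) [AddCommGroup H] [Finite H] {h : ℕ} (hh : 0 < h) (c : ℕ) :
    ∃ f : Fin (seqMax H h c) → H,
      (∀ (x : H) (T : Finset (Fin (seqMax H h c))), (∀ i ∈ T, f i = x) → #T ≤ c) ∧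
      ∀ T : Finset (Fin (seqMax H h c)), #T = h → ∑ i ∈ T, f i ≠ 0 := by
  refine Nat.sSup_mem (s := {s : ℕ | ∃ f : Fin s → H,
    (∀ (x : H) (T : Finset (Fin s)), (∀ i ∈ T, f i = x) → #T ≤ c) ∧
      ∀ T : Finset (Fin s), #T = h → ∑ i ∈ T, f i ≠ 0}) ⟨0, fun i => i.elim0, ?_, ?_⟩ (bdd H h c)
  · intro x T _
    have : #T ≤ Fintype.card (Fin 0) := card_le_univ T
    rw [Fintype.card_fin] at this
    omega
  · intro T hT
    have : #T ≤ Fintype.card (Fin 0) := card_le_univ T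
    rw [Fintype.card_fin] at this
    omega

section
variable {H : Type} [DecidableEq H] {s : ℕ}

/-- the number of the earlier terms with the same value -/
def rk (f : Fin s → H) (i : Fin s) : ℕ := #{j : Fin s | j < i ∧ f j = f i}

theorem rk_lt (f : Fin s → H) {c : ℕ}
    (hf : ∀ (x : H) (T : Finset (Fin s)), (∀ i ∈ T, f i = x) → #T ≤ c) (i : Fin s) :
    rk f i < c := by
  have h1 := hf (f i) (insert i (univ.filter fun j : Fin s => j < i ∧ f j = f i)) (by
    intro j hj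
    rw [mem_insert, mem_filter] at hj
    rcases hj with rfl | hj
    · rfl
    · exact hj.2.2)
  rw [card_insert_of_notMem (by
    rw [mem_filter]
    rintro ⟨-, h, -⟩
    exact lt_irrefl _ h)] at h1
  exact h1

theorem rk_inj (f : Fin s → H) {i j : Fin s} (hij : i < j) (h : f i = f j) :
    rk f i < rk f j := by
  unfold rk
  apply card_lt_card
  rw [ssubset_iff_of_subset]
  · refine ⟨i, ?_, ?_⟩
    · rw [mem_filter]
      exact ⟨mem_univ _, hij, h⟩
    · rw [mem_filter]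
      rintro ⟨-, h1, -⟩
      exact lt_irrefl _ h1
  · intro k hk
    rw [mem_filter] at hk ⊢
    exact ⟨mem_univ _, hk.2.1.trans hij, hk.2.2.trans h⟩

end

/-- a sequence over `H` lifts to a set in `G` -/
theorem lift_gen {G H : Type} [AddCommGroup G] [AddCommGroup H] {s c h : ℕ} (π : G →+ H)
    (σ : H → ℕ → G) (hπ : ∀ x j, π (σ x j) = x)
    (hσ : ∀ x, ∀ i < c, ∀ j < c, σ x i = σ x j → i = j) (f : Fin s → H)
    (hm : ∀ (x : H) (T : Finset (Fin s)), (∀ i ∈ T, f i = x) → #T ≤ c)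
    (hf : ∀ T : Finset (Fin s), #T = h → ∑ i ∈ T, f i ≠ 0) :
    ∃ A : Finset G, #A = s ∧ ∀ T ⊆ A, #T = h → ∑ x ∈ T, x ≠ 0 := by
  classical
  have hinj : Function.Injective fun i => σ (f i) (rk f i) := by
    intro i j hij
    have hij' : σ (f i) (rk f i) = σ (f j) (rk f j) := hij
    have h1 : f i = f j := by
      rw [← hπ (f i) (rk f i), hij', hπ]
    rw [h1] at hij'
    have h2 := hσ _ _ (rk_lt f hm i) _ (rk_lt f hm j) hij'
    rcases lt_trichotomy i j with h3 | h3 | h3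
    · have := rk_inj f h3 h1
      omega
    · exact h3
    · have := rk_inj f h3 h1.symm
      omega
  refine ⟨univ.map ⟨_, hinj⟩, by rw [card_map, card_univ, Fintype.card_fin], ?_⟩
  intro T hT hTc hT0
  obtain ⟨T', -, rfl⟩ := subset_map_iff.1 hT
  rw [card_map] at hTc
  rw [sum_map] at hT0
  refine hf T' hTc ?_
  have h1 := congrArg π hT0
  rw [map_sum, map_zero] at h1
  rw [← h1]
  exact sum_congr rfl fun i _ => (hπ (f i) (rk f i)).symm

theorem cast_inj {n i j : ℕ} (hi : i < n) (hj : j < n) (h : (i : ZMod n) = j) : i = j := by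
  rw [ZMod.natCast_eq_natCast_iff'] at h
  rwa [Nat.mod_eq_of_lt hi, Nat.mod_eq_of_lt hj] at h

/-- `K × ZMod n ^ (d + 1) → K × ZMod n ^ d` -/
theorem lift_prod {K : Type} [AddCommGroup K] {n d s h : ℕ} (f : Fin s → K × (Fin d → ZMod n))
    (hm : ∀ (x : K × (Fin d → ZMod n)) (T : Finset (Fin s)), (∀ i ∈ T, f i = x) → #T ≤ n)
    (hf : ∀ T : Finset (Fin s), #T = h → ∑ i ∈ T, f i ≠ 0) :
    ∃ A : Finset (K × (Fin (d + 1) → ZMod n)), #A = s ∧
      ∀ T ⊆ A, #T = h → ∑ x ∈ T, x ≠ 0 := by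
  refine lift_gen (c := n)
    ({ toFun := fun x => (x.1, fun i => x.2 i.succ), map_zero' := rfl, map_add' := fun _ _ => rfl } :
      K × (Fin (d + 1) → ZMod n) →+ K × (Fin d → ZMod n))
    (fun x j => (x.1, Fin.cons (j : ZMod n) x.2)) ?_ ?_ f hm hf
  · intro x j
    rfl
  · intro x i hi j hj hij
    rw [Prod.mk.injEq, Fin.cons_inj] at hij
    exact cast_inj hi hj hij.2.1

/-- `ZMod n ^ (d + 1) → ZMod n ^ d` -/
theorem lift_pi {n d s h : ℕ} (f : Fin s → (Fin d → ZMod n))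
    (hm : ∀ (x : Fin d → ZMod n) (T : Finset (Fin s)), (∀ i ∈ T, f i = x) → #T ≤ n)
    (hf : ∀ T : Finset (Fin s), #T = h → ∑ i ∈ T, f i ≠ 0) :
    ∃ A : Finset (Fin (d + 1) → ZMod n), #A = s ∧ ∀ T ⊆ A, #T = h → ∑ x ∈ T, x ≠ 0 := by
  refine lift_gen (c := n)
    ({ toFun := fun x => fun i => x i.succ, map_zero' := rfl, map_add' := fun _ _ => rfl } :
      (Fin (d + 1) → ZMod n) →+ (Fin d → ZMod n))
    (fun x j => Fin.cons (j : ZMod n) x) ?_ ?_ f hm hf
  · intro x j
    rfl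
  · intro x i hi j hj hij
    rw [Fin.cons_inj] at hij
    exact cast_inj hi hj hij.1

/-- the Erdős–Ginzburg–Ziv constant of `ZMod n ^ d` gives a set in `ZMod n ^ (d + 1)` -/
theorem egz_set {n : ℕ} (hn : 1 ≤ n) (d : ℕ) : ∃ A : Finset (Fin (d + 1) → ZMod n),
    egz n d ≤ #A + 1 ∧ ∀ T ⊆ A, #T = n → ∑ x ∈ T, x ≠ 0 := by
  rcases Nat.eq_zero_or_pos (egz n d) with h0 | h0
  · refine ⟨∅, by omega, fun T hT hc => ?_⟩
    rw [subset_empty.1 hT, card_empty] at hc
    omega
  · have h1 : egz n d - 1 ∉ {s : ℕ | ∀ f : Fin s → (Fin d → ZMod n),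
        ∃ T : Finset (Fin s), #T = n ∧ ∑ i ∈ T, f i = 0} :=
      Nat.notMem_of_lt_sInf (by
        change egz n d - 1 < egz n d
        omega)
    rw [Set.mem_setOf_eq] at h1
    push Not at h1
    obtain ⟨f, hf⟩ := h1
    obtain ⟨A, hA, hA0⟩ := lift_pi (h := n) f (by
      intro x T hT
      by_contra hh
      push Not at hh
      obtain ⟨T', hT', hc⟩ := exists_subset_card_eq hh.le
      refine hf T' hc ?_
      rw [sum_congr rfl fun i hi => hT i (hT' hi), sum_const, hc]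
      ext k
      simp) hf
    exact ⟨A, by omega, hA0⟩

end LIFTXM

end Pool.Agent.Lib.MPa7239a.AR
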