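import Pool.Agent.Lib.MP_a7239a_co.AR.VIRX
import Pool.Agent.Lib.MP_a7239a_co.AR.LIFTX

/-!
# ARX, module DUALX: the upper bounds
-/

set_option autoImplicit false
set_option linter.unusedSectionVars false

open Finset

namespace Pool.Agent.Lib.MPa7239a.AR

open Pool.Agent.Lib.MPa7239a.GC
open Pool.Agent.Lib.MPa7239a.R3

/-- the bound by the Erdős–Ginzburg–Ziv constant of `ZMod p ^ d` -/
theorem upperK (K : Type) [AddCommGroup K] [Fintype K] [DecidableEq K] (m : ℕ) (hm : 1 ≤ m)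
    (hK : ∀ g : K, m • g = 0) (d e : ℕ) (he : 1 ≤ e) :
    ∃ C p₀ : ℕ, ∀ (p : ℕ) [Fact p.Prime], p₀ ≤ p → egz p d ≤ C * p ∧
      ∀ A : Finset (K × (Fin (d + 1) → ZMod p)),
      e * (m * egz p d) + p ≤ e * #A → Hit A (m * p) 0 := by
  classical
  obtain ⟨C₀, p₁, hegz⟩ := egz_bound d
  obtain ⟨N, p₂, hvirt⟩ := virtual K m hm hK d e (m * C₀ + 1) he
  refine ⟨C₀, p₁ + p₂, ?_⟩
  intro p hpr hp₀
  obtain ⟨hz, hseq⟩ := hegz p (by omega)
  refine ⟨hz, fun A hA => ?_⟩
  have hmz : m * egz p d ≤ m * C₀ * p := by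
    rw [mul_assoc]
    exact Nat.mul_le_mul_left _ hz
  -- truncate
  obtain ⟨A', hA'A, hA', hA'C⟩ : ∃ A' ⊆ A, e * (m * egz p d) + p ≤ e * #A' ∧
      #A' ≤ (m * C₀ + 1) * p := by
    by_cases h : #A ≤ m * egz p d + p
    · refine ⟨A, Subset.rfl, hA, ?_⟩
      rw [add_mul, one_mul]
      omega
    · obtain ⟨A', h1, h2⟩ := exists_subset_card_eq (s := A) (n := m * egz p d + p) (by omega)
      refine ⟨A', h1, ?_, ?_⟩
      · rw [h2, mul_add]
        have : p ≤ e * p := Nat.le_mul_of_pos_left _ he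
        omega
      · rw [h2, add_mul, one_mul]
        omega
  suffices hh : Hit A' (m * p) 0 by
    obtain ⟨S, hS, h1, h2⟩ := hh
    exact ⟨S, hS.trans hA'A, h1, h2⟩
  obtain ⟨ι, _, _, P, u, n, -, hP, huP, hmass, hhit⟩ := hvirt p (by omega) A' hA'C
  have hzn : egz p d ≤ ∑ i, n i := by
    have h1 : e * (m * egz p d) ≤ e * (m * ∑ i, n i) := by omega
    exact Nat.le_of_mul_le_mul_left (Nat.le_of_mul_le_mul_left h1 (by omega)) (by omega)
  obtain ⟨T, hTX, hTp, hT0⟩ := hseq P hP (Σ _ : ι, ℕ)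
    ((univ : Finset ι).sigma fun i => range (n i))
    (fun t => ⟨u t.1, huP t.1⟩) (by
      rw [card_sigma]
      simpa using hzn)
  have hT0' : ∑ t ∈ T, u t.1 = 0 := by
    have := congrArg (fun z : P => (z : Fin (d + 1) → ZMod p)) hT0
    simpa using this
  obtain ⟨a, han, hap, hau⟩ := MAINM.mult u n hTX
  rw [hTp] at hap
  rw [hT0'] at hau
  exact hhit a han hap hau

/-- the reduction to sequences -/
theorem dual (K : Type) [AddCommGroup K] [Fintype K] [DecidableEq K] (m : ℕ) (hm : 1 ≤ m)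
    (hK : ∀ g : K, m • g = 0) (d e : ℕ) (he : 1 ≤ e) :
    ∃ p₀ : ℕ, ∀ (p : ℕ) [Fact p.Prime], p₀ ≤ p → ∀ A : Finset (K × (Fin (d + 1) → ZMod p)),
      (∀ T ⊆ A, #T = m * p → ∑ x ∈ T, x ≠ 0) →
      e * #A ≤ e * seqMax (K × (Fin d → ZMod p)) (m * p) p + p := by
  classical
  obtain ⟨C₀, p₁, hup⟩ := upperK K m hm hK d 1 le_rfl
  obtain ⟨N, p₂, hvirt⟩ := virtualX K m hm hK d e (m * C₀ + 1) he
  refine ⟨p₁ + p₂, ?_⟩
  intro p hpr hp₀ A hA
  obtain ⟨hz, hup'⟩ := hup p (by omega)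
  have hnot : ¬ Hit A (m * p) 0 := by
    rintro ⟨T, hT, hc, hs⟩
    exact hA T hT hc hs
  have hAC : #A ≤ (m * C₀ + 1) * p := by
    by_contra hh
    refine hnot (hup' A ?_)
    have hmz : m * egz p d ≤ m * C₀ * p := by
      rw [mul_assoc]
      exact Nat.mul_le_mul_left _ hz
    rw [add_mul, one_mul] at hh
    omega
  obtain ⟨ι, _, _, P, g, u, n, -, hP, huP, hmass, hfib, hhit⟩ := hvirt p (by omega) A hAC
  refine hmass.trans ?_
  refine Nat.add_le_add_right (Nat.mul_le_mul_left _ ?_) _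
  -- the sequence
  let ψ : P ≃ₗ[ZMod p] (Fin d → ZMod p) := LinearEquiv.ofFinrankEq _ _ (by
    rw [hP, Module.finrank_fin_fun])
  have hcard : Fintype.card (Σ i : ι, Fin (n i)) = ∑ i, n i := by
    rw [Fintype.card_sigma]
    exact sum_congr rfl fun i _ => Fintype.card_fin _
  rw [← hcard]
  -- multiplicities of a set of indices
  have hmul : ∀ (T : Finset (Σ i : ι, Fin (n i))) (F : Finset ι), (∀ t ∈ T, t.1 ∈ F) →
      #T ≤ ∑ i ∈ F, n i := by
    intro T F hTF
    have h1 : #T ≤ #(F.sigma fun i => (univ : Finset (Fin (n i)))) := by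
      refine card_le_card fun t ht => ?_
      rw [mem_sigma]
      exact ⟨hTF t ht, mem_univ _⟩
    refine h1.trans (le_of_eq ?_)
    rw [card_sigma]
    exact sum_congr rfl fun i _ => by rw [card_univ, Fintype.card_fin]
  refine LIFTXM.le_seqMax (fun t => (g t.1, ψ ⟨u t.1, huP t.1⟩)) ?_ ?_
  · intro x T hT
    refine (hmul T (T.image fun t => t.1) fun t ht => mem_image_of_mem _ ht).trans
      (hfib _ fun i hi j hj => ?_)
    obtain ⟨t, ht, rfl⟩ := mem_image.1 hi
    obtain ⟨t', ht', rfl⟩ := mem_image.1 hj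
    have h1 := (hT t ht).trans (hT t' ht').symm
    rw [Prod.mk.injEq] at h1
    refine ⟨h1.1, ?_⟩
    have h2 := ψ.injective h1.2
    exact congrArg Subtype.val h2
  · intro T hT h0
    have h01 : ∑ t ∈ T, g t.1 = 0 := by
      have := congrArg Prod.fst h0
      rwa [Prod.fst_sum] at this
    have h02 : ∑ t ∈ T, u t.1 = 0 := by
      have h1 := congrArg Prod.snd h0
      rw [Prod.snd_sum] at h1
      have h2 : ψ (∑ t ∈ T, ⟨u t.1, huP t.1⟩) = 0 := by
        rw [map_sum]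
        exact h1
      have h3 := (LinearEquiv.map_eq_zero_iff ψ).1 h2
      have h4 := congrArg (fun z : P => (z : Fin (d + 1) → ZMod p)) h3
      simpa using h4
    refine hnot (hhit (fun i => #{t ∈ T | t.1 = i}) ?_ ?_ ?_ ?_)
    · intro i
      refine (hmul _ {i} fun t ht => ?_).trans (le_of_eq (sum_singleton _ _))
      rw [mem_singleton]
      exact (mem_filter.1 ht).2
    · rw [← hT]
      exact (card_eq_sum_card_fiberwise fun t _ => mem_univ t.1).symm
    · rw [← h01, ← sum_fiberwise T (fun t => t.1) fun t => g t.1]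
      refine sum_congr rfl fun i _ => ?_
      rw [sum_congr rfl (g := fun _ => g i) fun t ht => by rw [(mem_filter.1 ht).2], sum_const]
    · rw [← h02, ← sum_fiberwise T (fun t => t.1) fun t => u t.1]
      refine sum_congr rfl fun i _ => ?_
      rw [sum_congr rfl (g := fun _ => u i) fun t ht => by rw [(mem_filter.1 ht).2], sum_const]

end Pool.Agent.Lib.MPa7239a.AR
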