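import Pool.Agent.Lib.MP_a7239a_co.R3.GREEDY
import Pool.Agent.Lib.MP_a7239a_co.R3.CHAR

/-!
# All ranks, prime exponent (folder AR, captain helper59): definitions

`G` is a finite vector space over `ZMod p`.
-/

set_option autoImplicit false

open Finset
open scoped Pointwise

namespace Pool.Agent.Lib.MPa7239a.AR

open Pool.Agent.Lib.MPa7239a.GC
open Pool.Agent.Lib.MPa7239a.R3

variable {p : ℕ} {G : Type} [AddCommGroup G] [Module (ZMod p) G]

/-- every coset of every proper subspace of `H` contains at most `b` elements of `B` -/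
def Spread (H : Submodule (ZMod p) G) (B : Finset G) (b : ℕ) : Prop :=
  ∀ M : Submodule (ZMod p) G, M < H → ∀ z : G, ∀ C : Finset G, C ⊆ B → (∀ a ∈ C, a - z ∈ M) → #C ≤ b

/-- for `m ≤ k ≤ #B - m` every element of the right coset of `H` is a sum of `k` distinct
elements of `B` -/
def Full (H : Submodule (ZMod p) G) (B : Finset G) (m : ℕ) : Prop :=
  ∀ k : ℕ, m ≤ k → k + m ≤ #B → ∀ g : G, (∀ a ∈ B, g - k • a ∈ H) → Hit B k g

/-- disjoint subsets `B i` of `A` in cosets of `L i` -/
structure Dec {ι : Type} (A : Finset G) (B : ι → Finset G) (L : ι → Submodule (ZMod p) G) :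
    Prop where
  sub : ∀ i, B i ⊆ A
  disj : ∀ i j, i ≠ j → Disjoint (B i) (B j)
  cos : ∀ i, ∀ x ∈ B i, ∀ y ∈ B i, x - y ∈ L i

/-- the Erdős–Ginzburg–Ziv constant of `ZMod p ^ d` (for sequences): the least `s` such that every
sequence of `s` elements has `p` terms of sum `0` -/
noncomputable def egz (p d : ℕ) : ℕ :=
  sInf {s : ℕ | ∀ f : Fin s → (Fin d → ZMod p), ∃ T : Finset (Fin s), #T = p ∧ ∑ i ∈ T, f i = 0}

theorem Spread.mono {H : Submodule (ZMod p) G} {A B : Finset G} {b c : ℕ} (h : Spread H B b)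
    (hA : A ⊆ B) (hbc : b ≤ c) : Spread H A c :=
  fun M hM z C hC hz => (h M hM z C (hC.trans hA) hz).trans hbc

theorem Full.mono {H : Submodule (ZMod p) G} {B : Finset G} {m n : ℕ} (h : Full H B m)
    (hmn : m ≤ n) : Full H B n :=
  fun k hk hk' g hg => h k (hmn.trans hk) (by omega) g hg

end Pool.Agent.Lib.MPa7239a.AR
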