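import Pool.Agent.Lib.MP_a7239a_co.AR.TRANSFER

/-!
# AR, module LINB: linear bound in all ranks
-/

open Finset
open scoped Pointwise

namespace Pool.Agent.Lib.MPa7239a.AR

open Pool.Agent.Lib.MPa7239a.GC
open Pool.Agent.Lib.MPa7239a.R3

namespace LINBM

theorem hit_of_coset {p : ℕ} [Fact p.Prime] {G : Type} [AddCommGroup G] [Module (ZMod p) G]
    [Fintype G] [DecidableEq G] {M : Submodule (ZMod p) G} {C A : Finset G} (hCA : C ⊆ A) {z : G}
    (hC : ∀ a ∈ C, a - z ∈ M)
    (h : ∀ A' : Finset M, #A' = #C → Hit A' p 0) : Hit A p 0 := by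
  classical
  set f : C → M := fun a => ⟨a.1 - z, hC a.1 a.2⟩ with hf
  have hfi : Function.Injective f := by
    intro a b hab
    have h1 : a.1 - z = b.1 - z := congrArg Subtype.val hab
    exact Subtype.ext (sub_left_injective h1)
  obtain ⟨T, hT, hTp, hT0⟩ := h (C.attach.image f) (by
    rw [card_image_of_injective _ hfi, card_attach])
  refine ⟨T.image (fun m : M => (m : G) + z), ?_, ?_, ?_⟩
  · intro x hx
    obtain ⟨m, hm, rfl⟩ := mem_image.1 hx
    obtain ⟨a, -, ha⟩ := mem_image.1 (hT hm)
    have h1 : (m : G) = a.1 - z := by rw [← ha]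
    rw [h1, sub_add_cancel]
    exact hCA a.2
  · rw [card_image_of_injective, hTp]
    intro m m' hmm
    exact Subtype.ext (add_left_injective z hmm)
  · rw [sum_image]
    · rw [sum_add_distrib, sum_const, hTp]
      have h1 : ∑ m ∈ T, (m : G) = 0 := by
        have := congrArg (Subtype.val) hT0
        simpa using this
      have h2 : p • z = 0 := by
        rw [← Nat.cast_smul_eq_nsmul (ZMod p), CharP.cast_eq_zero, zero_smul]
      rw [h1, h2, add_zero]
    · intro m _ m' _ hmm
      exact Subtype.ext (add_left_injective z hmm)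

end LINBM

theorem linear_bound (r : ℕ) : ∃ C p₁ : ℕ, ∀ (p : ℕ) [Fact p.Prime], p₁ ≤ p →
    ∀ (G : Type) [AddCommGroup G] [Module (ZMod p) G] [Fintype G] [DecidableEq G],
      Module.finrank (ZMod p) G ≤ r → ∀ A : Finset G, C * p ≤ #A → Hit A p 0 := by
  classical
  induction r with
  | zero =>
    refine ⟨2, 0, fun p _ _ G _ _ _ _ hr A hA => ?_⟩
    exfalso
    have h0 : Module.finrank (ZMod p) G = 0 := by omega
    have h1 : Subsingleton G := Module.finrank_zero_iff.1 h0
    have h2 : #A ≤ 1 := card_le_one.2 fun a _ b _ => Subsingleton.elim a b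
    have h3 : 2 ≤ p := (Fact.out : p.Prime).two_le
    omega
  | succ r ih =>
    obtain ⟨C₀, p₀, hC₀⟩ := ih
    obtain ⟨W, p₁, hW, hfill⟩ := fill (r + 1) 1 le_rfl
    refine ⟨32 * W * C₀ + 8, max p₀ p₁, fun p _ hp G _ _ _ _ hr A hA => ?_⟩
    have hp2 : 2 ≤ p := (Fact.out : p.Prime).two_le
    have hA0 : C₀ * p ≤ #A := by
      refine le_trans ?_ hA
      refine Nat.mul_le_mul_right p ?_
      nlinarith [Nat.zero_le C₀]
    rcases Nat.lt_or_ge r (Module.finrank (ZMod p) G) with hrk | hrk
    · by_cases hs : Spread (⊤ : Submodule (ZMod p) G) A (#A / (32 * W))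
      · have h8 : 8 * p ≤ #A := by
          refine le_trans ?_ hA
          exact Nat.mul_le_mul_right p (by omega)
        have h1 : 16 * W * (#A / (32 * W)) < #A := by
          have h2 : 32 * W * (#A / (32 * W)) ≤ #A := Nat.mul_div_le _ _
          have h3 : 2 * (16 * W * (#A / (32 * W))) = 32 * W * (#A / (32 * W)) := by ring
          omega
        have hne : (⊤ : Submodule (ZMod p) G) ≠ ⊥ := by
          intro h
          have h2 : Module.finrank (ZMod p) (⊤ : Submodule (ZMod p) G) = 0 := by
            rw [h, finrank_bot]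
          rw [finrank_top] at h2
          omega
        exact hfill p (le_trans (le_max_right _ _) hp) G hr ⊤ hne A _ p
          (fun _ _ _ _ => Submodule.mem_top) hs h1 h8 (by omega) p le_rfl (by omega) 0
          (fun _ _ => Submodule.mem_top)
      · unfold Spread at hs
        push Not at hs
        obtain ⟨M, hM, z, C, hCA, hCM, hCb⟩ := hs
        refine LINBM.hit_of_coset hCA hCM fun A' hA' => ?_
        have hrM : Module.finrank (ZMod p) M ≤ r := by
          have h1 := Submodule.finrank_lt_finrank_of_lt hM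
          rw [finrank_top] at h1
          omega
        refine hC₀ p (le_trans (le_max_left _ _) hp) M hrM A' ?_
        rw [hA']
        refine le_trans ?_ hCb.le
        rw [Nat.le_div_iff_mul_le (by omega)]
        refine le_trans ?_ hA
        calc C₀ * p * (32 * W) = 32 * W * C₀ * p := by ring
          _ ≤ (32 * W * C₀ + 8) * p := Nat.mul_le_mul_right p (by omega)
    · exact hC₀ p (le_trans (le_max_left _ _) hp) G hrk A hA0

end Pool.Agent.Lib.MPa7239a.AR
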