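import Pool.Agent.Lib.MP_a7239a_co.AR.LIFT
import Pool.Agent.Lib.MP_a7239a_co.AR.LINB

/-!
# MP_a7239a_co, AR: EGZ (helper74)
-/

set_option autoImplicit false

open Finset
open scoped Pointwise

namespace Pool.Agent.Lib.MPa7239a.AR

open Pool.Agent.Lib.MPa7239a.GC
open Pool.Agent.Lib.MPa7239a.R3

/-- every `f` on a set of at least `egz p d` elements has `p` terms of sum `0`, if the set in the
definition of `egz` is nonempty -/
theorem egz_use {p : ℕ} [Fact p.Prime] {d : ℕ}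
    (hne : {s : ℕ | ∀ f : Fin s → (Fin d → ZMod p),
      ∃ T : Finset (Fin s), #T = p ∧ ∑ i ∈ T, f i = 0}.Nonempty)
    (P : Type) [AddCommGroup P] [Module (ZMod p) P] [Fintype P]
    (hP : Module.finrank (ZMod p) P = d) (κ : Type) [DecidableEq κ] (X : Finset κ) (f : κ → P)
    (hX : egz p d ≤ #X) : ∃ T ⊆ X, #T = p ∧ ∑ i ∈ T, f i = 0 := by
  classical
  have hmem : ∀ f : Fin (egz p d) → (Fin d → ZMod p),
      ∃ T : Finset (Fin (egz p d)), #T = p ∧ ∑ i ∈ T, f i = 0 := Nat.sInf_mem hne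
  obtain ⟨X', hX', hc⟩ := exists_subset_card_eq hX
  let e : Fin (egz p d) ≃ X' := (Fin.castOrderIso hc.symm).toEquiv.trans X'.equivFin.symm
  have hfr : Module.finrank (ZMod p) P = Module.finrank (ZMod p) (Fin d → ZMod p) := by
    rw [hP, Module.finrank_fin_fun]
  let ψ : P ≃ₗ[ZMod p] (Fin d → ZMod p) := LinearEquiv.ofFinrankEq P (Fin d → ZMod p) hfr
  obtain ⟨T, hT, hs⟩ := hmem (fun i => ψ (f (e i).1))
  have hinj : Function.Injective (fun i : Fin (egz p d) => ((e i).1 : κ)) := fun i j h =>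
    e.injective (Subtype.ext h)
  refine ⟨T.map ⟨_, hinj⟩, ?_, ?_, ?_⟩
  · intro x hx
    obtain ⟨i, -, rfl⟩ := Finset.mem_map.1 hx
    exact hX' (e i).2
  · rw [card_map, hT]
  · rw [sum_map]
    apply ψ.injective
    rw [map_sum, map_zero]
    exact hs

theorem egz_bound (d : ℕ) : ∃ C p₁ : ℕ, ∀ (p : ℕ) [Fact p.Prime], p₁ ≤ p → egz p d ≤ C * p ∧
    ∀ (P : Type) [AddCommGroup P] [Module (ZMod p) P] [Fintype P], Module.finrank (ZMod p) P = d →
      ∀ (κ : Type) [DecidableEq κ] (X : Finset κ) (f : κ → P), egz p d ≤ #X →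
        ∃ T ⊆ X, #T = p ∧ ∑ i ∈ T, f i = 0 := by
  classical
  obtain ⟨C, p₁, h⟩ := linear_bound (d + 1)
  refine ⟨C, p₁, fun p _ hp => ?_⟩
  have hC : C * p ∈ {s : ℕ | ∀ f : Fin s → (Fin d → ZMod p),
      ∃ T : Finset (Fin s), #T = p ∧ ∑ i ∈ T, f i = 0} := by
    intro f
    by_contra hf
    obtain ⟨A, hA, hAh⟩ := lift_seq f hf
    exact hAh (h p hp (Fin (d + 1) → ZMod p) (by rw [Module.finrank_fin_fun]) A (by rw [hA]))
  exact ⟨Nat.sInf_le hC, fun P _ _ _ hP κ _ X f hX => egz_use ⟨_, hC⟩ P hP κ X f hX⟩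

/-- the lower bound: there is a set of `egz p d - 1` elements without `p` elements of sum `0` -/
theorem egz_lower {p : ℕ} [Fact p.Prime] (d : ℕ) :
    ∃ A : Finset (Fin (d + 1) → ZMod p), egz p d ≤ #A + 1 ∧ ¬ Hit A p 0 := by
  rcases Nat.eq_zero_or_pos (egz p d) with h0 | h0
  · refine ⟨∅, by omega, ?_⟩
    rintro ⟨T, hT, hc, -⟩
    rw [subset_empty.1 hT, card_empty] at hc
    exact (Fact.out : p.Prime).pos.ne hc
  · have h1 : egz p d - 1 ∉ {s : ℕ | ∀ f : Fin s → (Fin d → ZMod p),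
        ∃ T : Finset (Fin s), #T = p ∧ ∑ i ∈ T, f i = 0} := by
      apply Nat.notMem_of_lt_sInf
      show egz p d - 1 < egz p d
      omega
    rw [Set.mem_ofPred_eq, not_forall] at h1
    obtain ⟨f, hf⟩ := h1
    obtain ⟨A, hA, hAh⟩ := lift_seq f hf
    exact ⟨A, by omega, hAh⟩

end Pool.Agent.Lib.MPa7239a.AR
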