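import Pool.Agent.Lib.MP_a7239a_co.AR.FINALX
import Pool.Agent.Lib.MP_a7239a_co.R3.RON
import Pool.Agent.Lib.MP_a7239a_co.Cyclic

/-!
# ARX, module EXPLX: lower bounds for groups `K` with a large enough quotient, explicit values for
`r ≤ 3`
-/

set_option autoImplicit false
set_option linter.unusedSectionVars false

open Finset

namespace Pool.Agent.Lib.MPa7239a.AR

open Pool.Agent.Lib.MPa7239a.GC

namespace EXPLXM

/-- `n` equal terms have sum `0` -/
theorem mult_le {s n d : ℕ} (f : Fin s → (Fin d → ZMod n))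
    (hf : ∀ T : Finset (Fin s), #T = n → ∑ i ∈ T, f i ≠ 0) (x : Fin d → ZMod n)
    (T : Finset (Fin s)) (hT : ∀ i ∈ T, f i = x) : #T ≤ n := by
  by_contra hh
  push Not at hh
  obtain ⟨T', hT', hc⟩ := exists_subset_card_eq hh.le
  refine hf T' hc ?_
  rw [sum_congr rfl fun i hi => hT i (hT' hi), sum_const, hc]
  ext k
  simp

/-- sequences over `ZMod (m * p) ^ d` lift to sets in `K × ZMod p ^ (d + 1)` -/
theorem low_surj {K : Type} [AddCommGroup K] [Finite K] {m p d : ℕ} (hm : 1 ≤ m)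
    (hcop : Nat.Coprime m p) (χ : K →+ (Fin d → ZMod m)) (hχ : Function.Surjective χ)
    (hker : m ≤ Nat.card χ.ker) {s : ℕ} (f : Fin s → (Fin d → ZMod (m * p)))
    (hf : ∀ T : Finset (Fin s), #T = m * p → ∑ i ∈ T, f i ≠ 0) :
    ∃ A : Finset (K × (Fin (d + 1) → ZMod p)), #A = s ∧
      ∀ T ⊆ A, #T = m * p → ∑ x ∈ T, x ≠ 0 := by
  classical
  have := Fintype.ofFinite K
  obtain ⟨κ⟩ : Nonempty (Fin m ↪ χ.ker) := Function.Embedding.nonempty_of_card_le (by
    rw [Fintype.card_fin, ← Nat.card_eq_fintype_card]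
    exact hker)
  choose σ hσ using hχ
  refine lift_gen' hm hcop χ κ σ hσ f hf
where
  lift_gen' {K : Type} [AddCommGroup K] {m p d : ℕ} (hm : 1 ≤ m)
      (hcop : Nat.Coprime m p) (χ : K →+ (Fin d → ZMod m)) (κ : Fin m ↪ χ.ker)
      (σ : (Fin d → ZMod m) → K) (hσ : ∀ x, χ (σ x) = x) {s : ℕ}
      (f : Fin s → (Fin d → ZMod (m * p)))
      (hf : ∀ T : Finset (Fin s), #T = m * p → ∑ i ∈ T, f i ≠ 0) :
      ∃ A : Finset (K × (Fin (d + 1) → ZMod p)), #A = s ∧
        ∀ T ⊆ A, #T = m * p → ∑ x ∈ T, x ≠ 0 := by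
    refine LIFTXM.lift_gen (c := m * p)
      ({ toFun := fun x => (χ x.1, fun i => x.2 i.succ),
         map_zero' := by
          rw [Prod.fst_zero, map_zero]
          rfl,
         map_add' := fun a b => by
          rw [Prod.fst_add, map_add]
          rfl } :
        K × (Fin (d + 1) → ZMod p) →+ (Fin d → ZMod m) × (Fin d → ZMod p))
      (fun x j => (σ x.1 + (κ ⟨j % m, Nat.mod_lt _ hm⟩ : K), Fin.cons ((j / m : ℕ) : ZMod p) x.2))
      ?_ ?_ (fun i => FINALXM.crt hcop d (f i)) ?_ ?_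
    · intro x j
      refine Prod.ext ?_ ?_
      · change χ (σ x.1 + (κ ⟨j % m, Nat.mod_lt _ hm⟩ : K)) = x.1
        rw [map_add, hσ]
        have h1 : χ (κ ⟨j % m, Nat.mod_lt _ hm⟩ : K) = 0 := (κ ⟨j % m, Nat.mod_lt _ hm⟩).2
        rw [h1, add_zero]
      · rfl
    · intro x i hi j hj hij
      rw [Prod.mk.injEq, Fin.cons_inj] at hij
      obtain ⟨h1, h2, -⟩ := hij
      have h3 := κ.injective (Subtype.ext (add_left_cancel h1))
      rw [Fin.mk.injEq] at h3
      have h4 := LIFTXM.cast_inj (Nat.div_lt_of_lt_mul hi) (Nat.div_lt_of_lt_mul hj) h2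
      rw [← Nat.div_add_mod i m, ← Nat.div_add_mod j m, h3, h4]
    · intro x T hT
      rcases T.eq_empty_or_nonempty with rfl | ⟨i₀, hi₀⟩
      · rw [card_empty]
        exact Nat.zero_le _
      · refine mult_le f hf (f i₀) T fun i hi => ?_
        exact FINALXM.crt_injective hcop d ((hT i hi).trans (hT i₀ hi₀).symm)
    · intro T hT h0
      refine hf T hT (FINALXM.crt_injective hcop d ?_)
      rw [map_sum, map_zero]
      exact h0

/-- the sequence `{0, 1} ^ d`, every element `n - 1` times -/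
theorem kem {n d : ℕ} (hn : 1 ≤ n) (T : Finset ((Fin d → Bool) × Fin (n - 1))) (hT : #T = n) :
    ∑ t ∈ T, (fun j => if t.1 j = true then (1 : ZMod n) else 0 : Fin d → ZMod n) ≠ 0 := by
  classical
  intro h0
  have h1 : ∀ j, #(T.filter fun t => t.1 j = true) = 0 ∨ #(T.filter fun t => t.1 j = true) = n := by
    intro j
    have h2 := congrFun h0 j
    rw [Finset.sum_apply, Pi.zero_apply] at h2
    rw [sum_boole, ZMod.natCast_eq_zero_iff] at h2
    obtain ⟨k, hk⟩ := h2
    have h3 : #(T.filter fun t => t.1 j = true) ≤ n := (card_filter_le _ _).trans hT.le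
    rcases Nat.eq_zero_or_pos k with h4 | h4
    · left
      rw [hk, h4, mul_zero]
    · right
      have h5 : n * 1 ≤ n * k := Nat.mul_le_mul_left _ h4
      omega
  obtain ⟨t₀, ht₀⟩ : T.Nonempty := by
    rw [← card_pos]
    omega
  have h2 : ∀ t ∈ T, t.1 = t₀.1 := by
    intro t ht
    funext j
    rcases h1 j with h | h
    · rw [card_eq_zero, filter_eq_empty_iff] at h
      have h3 := h ht
      have h4 := h ht₀
      rw [Bool.not_eq_true] at h3 h4
      rw [h3, h4]
    · have h3 : T.filter (fun t => t.1 j = true) = T :=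
        eq_of_subset_of_card_le (filter_subset _ _) (by rw [h, hT])
      rw [filter_eq_self] at h3
      rw [h3 t ht, h3 t₀ ht₀]
  have h3 : #T ≤ #(univ : Finset (Fin (n - 1))) := by
    refine card_le_card_of_injOn (fun t => t.2) (fun _ _ => mem_coe.2 (mem_univ _)) ?_
    intro a ha b hb hab
    exact Prod.ext ((h2 a ha).trans (h2 b hb).symm) hab
  rw [card_univ, Fintype.card_fin] at h3
  omega

/-- the sequence as a function on `Fin s` -/
theorem kem_fin {n d : ℕ} (hn : 1 ≤ n) : ∃ f : Fin (2 ^ d * (n - 1)) → (Fin d → ZMod n),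
    ∀ T : Finset (Fin (2 ^ d * (n - 1))), #T = n → ∑ i ∈ T, f i ≠ 0 := by
  classical
  have hc : Fintype.card ((Fin d → Bool) × Fin (n - 1)) = 2 ^ d * (n - 1) := by
    rw [Fintype.card_prod, Fintype.card_fun, Fintype.card_bool, Fintype.card_fin,
      Fintype.card_fin]
  let E := (Fintype.equivFinOfCardEq hc).symm
  refine ⟨fun i => fun j => if (E i).1 j = true then (1 : ZMod n) else 0, fun T hT h0 => ?_⟩
  refine kem hn (T.map E.toEmbedding) (by rw [card_map, hT]) ?_
  rw [sum_map]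
  exact h0

/-- a sequence without `n` terms of sum `0` as long as `egz n d - 1` -/
theorem egz_fin {n d : ℕ} (h0 : 0 < egz n d) : ∃ f : Fin (egz n d - 1) → (Fin d → ZMod n),
    ∀ T : Finset (Fin (egz n d - 1)), #T = n → ∑ i ∈ T, f i ≠ 0 := by
  have h1 : egz n d - 1 ∉ {s : ℕ | ∀ f : Fin s → (Fin d → ZMod n),
      ∃ T : Finset (Fin s), #T = n ∧ ∑ i ∈ T, f i = 0} :=
    Nat.notMem_of_lt_sInf (by
      change egz n d - 1 < egz n d
      omega)
  rw [Set.mem_ofPred_eq] at h1
  push Not at h1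
  exact h1

/-- the lower bounds -/
theorem low_tau {K : Type} [AddCommGroup K] [Finite K] {m p d : ℕ} [NeZero p] (hm : 1 ≤ m)
    (hp : 1 ≤ p) (hcop : Nat.Coprime m p) (χ : K →+ (Fin d → ZMod m))
    (hχ : Function.Surjective χ) (hker : m ≤ Nat.card χ.ker) :
    egz (m * p) d ≤ Pool.Agent.Lib.MPa7239a.tauHat (K × (Fin (d + 1) → ZMod p)) (m * p) + 1 ∧
    2 ^ d * (m * p - 1) ≤
      Pool.Agent.Lib.MPa7239a.tauHat (K × (Fin (d + 1) → ZMod p)) (m * p) := by
  have hmp : 0 < m * p := Nat.mul_pos hm hp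
  refine ⟨?_, ?_⟩
  · rcases Nat.eq_zero_or_pos (egz (m * p) d) with h0 | h0
    · omega
    · obtain ⟨f, hf⟩ := egz_fin h0
      obtain ⟨A, hA, hA0⟩ := low_surj hm hcop χ hχ hker f hf
      have h1 := (Pool.Agent.Lib.MPa7239a.le_tauHat_iff
        (G := K × (Fin (d + 1) → ZMod p)) hmp #A).2 ⟨A, rfl, hA0⟩
      omega
  · obtain ⟨f, hf⟩ := kem_fin (n := m * p) (d := d) hmp
    obtain ⟨A, hA, hA0⟩ := low_surj hm hcop χ hχ hker f hf
    have h1 := (Pool.Agent.Lib.MPa7239a.le_tauHat_iff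
      (G := K × (Fin (d + 1) → ZMod p)) hmp #A).2 ⟨A, rfl, hA0⟩
    rwa [hA] at h1

/-- the surjection for `d = 1` -/
theorem surj_one {K : Type} [AddCommGroup K] [Finite K] {m : ℕ} (hm : m = AddMonoid.exponent K)
    (hK : m * m ≤ Nat.card K) : ∃ χ : K →+ (Fin 1 → ZMod m), Function.Surjective χ ∧
      m ≤ Nat.card χ.ker := by
  have hm1 : 1 ≤ m := by
    rw [hm]
    exact Nat.pos_of_ne_zero AddMonoid.exponent_ne_zero_of_finite
  have : NeZero m := ⟨by omega⟩
  obtain ⟨π, hπ⟩ := exists_surj (G := K) (q := m) (by rw [hm])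
  let θ : ZMod m →+ (Fin 1 → ZMod m) :=
    { toFun := fun x _ => x, map_zero' := rfl, map_add' := fun _ _ => rfl }
  refine ⟨θ.comp π, ?_, ?_⟩
  · intro y
    obtain ⟨x, hx⟩ := hπ (y 0)
    refine ⟨x, ?_⟩
    funext i
    have : i = 0 := Subsingleton.elim _ _
    rw [this]
    exact hx
  · have h1 : (θ.comp π).ker = π.ker := by
      ext x
      rw [AddMonoidHom.mem_ker, AddMonoidHom.mem_ker]
      constructor
      · intro h
        exact congrFun h 0
      · intro h
        funext i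
        exact h
    rw [h1]
    have h2 := AddSubgroup.card_eq_card_quotient_mul_card_addSubgroup π.ker
    have h3 : Nat.card (K ⧸ π.ker) = m := by
      rw [Nat.card_congr (QuotientAddGroup.quotientKerEquivOfSurjective π hπ).toEquiv,
        Nat.card_zmod]
    rw [h3] at h2
    rw [h2] at hK
    exact Nat.le_of_mul_le_mul_left hK hm1

/-- the upper bounds for `d ≤ 2` -/
theorem egz_small {p : ℕ} [Fact p.Prime] (h3 : 3 ≤ p) {d : ℕ} (hd : d ≤ 2) :
    egz p d ≤ 2 ^ d * p := by
  classical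
  interval_cases d
  · rw [pow_zero, one_mul]
    refine Nat.sInf_le ?_
    rw [Set.mem_ofPred_eq]
    intro f
    refine ⟨univ, by rw [card_univ, Fintype.card_fin], ?_⟩
    ext i
    exact i.elim0
  · rw [pow_one]
    refine Nat.sInf_le ?_
    rw [Set.mem_ofPred_eq]
    intro f
    obtain ⟨T, -, hT, hs⟩ := ZMod.erdos_ginzburg_ziv (n := p) (s := univ) (fun i => f i 0) (by
      rw [card_univ, Fintype.card_fin]
      omega)
    refine ⟨T, hT, ?_⟩
    funext i
    have : i = 0 := Subsingleton.elim _ _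
    rw [this, Finset.sum_apply]
    exact hs
  · refine Nat.sInf_le ?_
    rw [Set.mem_ofPred_eq]
    intro f
    obtain ⟨T, -, hT, hs⟩ := R3.ronyai h3 (A := univ) (fun i => (f i 0, f i 1)) (by
      rw [card_univ, Fintype.card_fin]
      omega)
    refine ⟨T, hT, ?_⟩
    funext i
    rw [Finset.sum_apply]
    rw [Prod.ext_iff, Prod.fst_sum, Prod.snd_sum] at hs
    match i with
    | 0 => exact hs.1
    | 1 => exact hs.2

end EXPLXM

end Pool.Agent.Lib.MPa7239a.AR
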