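import Pool.Agent.Lib.MP_a7239a_co.AR.ROUND

/-!
# AR: module FILL
-/

set_option autoImplicit false

open Finset
open scoped Pointwise

namespace Pool.Agent.Lib.MPa7239a.AR

open Pool.Agent.Lib.MPa7239a.GC
open Pool.Agent.Lib.MPa7239a.R3

theorem fill_top (h e : ℕ) (hh : 1 ≤ h) (he : 1 ≤ e) : ∃ W p₁ : ℕ, 1 ≤ W ∧
    ∀ (p : ℕ) [Fact p.Prime], p₁ ≤ p → ∀ (G : Type) [AddCommGroup G] [Module (ZMod p) G]
      [Fintype G] [DecidableEq G], Module.finrank (ZMod p) G = h → ∀ (B : Finset G) (b m : ℕ),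
      Spread (⊤ : Submodule (ZMod p) G) B b → 16 * W * b < #B → 8 * m ≤ #B → p ≤ e * m →
      Full (⊤ : Submodule (ZMod p) G) B m := by
  obtain ⟨W, p₁, hW, hround⟩ := round h (3 * e) hh (by omega)
  refine ⟨W, max p₁ (3 * e), hW, ?_⟩
  intro p _ hp G _ _ _ _ hG B b m hB hWb hm hpm
  have hp1 : p₁ ≤ p := (le_max_left _ _).trans hp
  have hp2 : 3 * e ≤ p := (le_max_right _ _).trans hp
  have hm3 : 3 ≤ m := by
    by_contra hc
    have h1 : e * m ≤ e * 2 := Nat.mul_le_mul_left e (by omega)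
    omega
  obtain ⟨M, hM1, hM2⟩ : ∃ M, 2 * M ≤ m ∧ m ≤ 2 * M + 1 := ⟨m / 2, by omega, by omega⟩
  have hpM : p ≤ 3 * e * M := by
    have hM : 1 ≤ M := by omega
    have h1 : e * m ≤ e * (2 * M + 1) := Nat.mul_le_mul_left e hM2
    have h2 : e * 1 ≤ e * M := Nat.mul_le_mul_left e hM
    have h3 : e * (2 * M + 1) = 2 * (e * M) + e := by ring
    have h4 : 3 * e * M = 3 * (e * M) := by ring
    omega
  have hcardtop : Nat.card (⊤ : Submodule (ZMod p) G) = Nat.card G :=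
    Nat.card_congr Submodule.topEquiv.toEquiv
  -- first round
  have hWb' : 8 * W * b * 2 < #B := by
    have : 8 * W * b * 2 = 16 * W * b := by ring
    omega
  obtain ⟨m₁, P₁, Q₁, σ₁, Y₁, hm₁, hE₁, hY₁⟩ :=
    hround p hp1 G hG B b M hB (by omega) (by omega) hpM
  have hPQ₁ : #(P₁ ∪ Q₁) = 2 * m₁ := by
    rw [card_union_of_disjoint hE₁.disj, hE₁.cardP, hE₁.cardQ]; ring
  have hPQ₁sub : P₁ ∪ Q₁ ⊆ B := union_subset hE₁.subX hE₁.subZ
  have hX : #(B \ (P₁ ∪ Q₁)) + 2 * m₁ = #B := by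
    rw [← hPQ₁]; exact card_sdiff_add_card_eq_card hPQ₁sub
  -- second round
  obtain ⟨m₂, P₂, Q₂, σ₂, Y₂, hm₂, hE₂, hY₂⟩ :=
    hround p hp1 G hG (B \ (P₁ ∪ Q₁)) b M (hB.mono sdiff_subset le_rfl) (by omega) (by omega) hpM
  obtain ⟨P, Q, σ, Y, -, -, hE, hall⟩ := two_rounds hE₁ hE₂ (by rw [hcardtop]; exact hY₁)
    (by rw [hcardtop]; exact hY₂)
  -- the sums
  intro k hk1 hk2 g _
  have hPQ : #(P ∪ Q) = 2 * (m₁ + m₂) := by
    rw [card_union_of_disjoint hE.disj, hE.cardP, hE.cardQ]; ring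
  have hPQsub : P ∪ Q ⊆ B := union_subset hE.subX hE.subZ
  have hrest : #(B \ (P ∪ Q)) + 2 * (m₁ + m₂) = #B := by
    rw [← hPQ]; exact card_sdiff_add_card_eq_card hPQsub
  obtain ⟨T', hT', hT'c⟩ := exists_subset_card_eq (s := B \ (P ∪ Q)) (n := k - (m₁ + m₂))
    (by omega)
  obtain ⟨T'', hT'', hT''c, hT''s⟩ := hE.hit (g - (∑ a ∈ T', a) - σ) (hall _ trivial)
  have hdisj : Disjoint T' T'' := by
    rw [disjoint_left]
    intro x hx hx'
    exact (mem_sdiff.1 (hT' hx)).2 (hT'' hx')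
  refine ⟨T' ∪ T'', union_subset (hT'.trans sdiff_subset) (hT''.trans hPQsub), ?_, ?_⟩
  · rw [card_union_of_disjoint hdisj, hT'c, hT''c]
    omega
  · rw [sum_union hdisj, hT''s]
    abel

end Pool.Agent.Lib.MPa7239a.AR
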