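import Pool.Agent.Lib.MP_a7239a_co.AR.SHARPX
import Pool.Agent.Lib.MP_a7239a_co.Final

/-!
# ARX, module FINALX
-/

set_option autoImplicit false
set_option linter.unusedSectionVars false

open Finset

namespace Pool.Agent.Lib.MPa7239a.AR

open Pool.Agent.Lib.MPa7239a.GC

namespace FINALXM

theorem hit_of_injective {G H : Type} [AddCommGroup G] [AddCommGroup H] (θ : G →+ H)
    (hθ : Function.Injective θ) {h : ℕ} {A : Finset G} (hA : Hit (A.map ⟨θ, hθ⟩) h 0) :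
    ∃ T ⊆ A, #T = h ∧ ∑ x ∈ T, x = 0 := by
  obtain ⟨T', hT', hc, hs⟩ := hA
  obtain ⟨T, hT, rfl⟩ := subset_map_iff.1 hT'
  rw [card_map] at hc
  rw [sum_map] at hs
  refine ⟨T, hT, hc, hθ ?_⟩
  rw [map_zero, map_sum]
  exact hs

/-- the Chinese remainder map -/
noncomputable def crt {m p : ℕ} (h : Nat.Coprime m p) (r : ℕ) :
    (Fin r → ZMod (m * p)) →+ (Fin r → ZMod m) × (Fin r → ZMod p) where
  toFun v := (fun i => (ZMod.chineseRemainder h (v i)).1, fun i => (ZMod.chineseRemainder h (v i)).2)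
  map_zero' := by
    refine Prod.ext ?_ ?_ <;> funext i <;> simp
  map_add' a b := by
    refine Prod.ext ?_ ?_ <;> funext i <;> simp

theorem crt_injective {m p : ℕ} (h : Nat.Coprime m p) (r : ℕ) :
    Function.Injective (crt h r) := by
  intro a b hab
  funext i
  have h1 : (fun i => (ZMod.chineseRemainder h (a i)).1) =
    fun i => (ZMod.chineseRemainder h (b i)).1 := congrArg Prod.fst hab
  have h2 : (fun i => (ZMod.chineseRemainder h (a i)).2) =
    fun i => (ZMod.chineseRemainder h (b i)).2 := congrArg Prod.snd hab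
  exact (ZMod.chineseRemainder h).injective (Prod.ext (congrFun h1 i) (congrFun h2 i))

/-- the passage from `e` to `ε` -/
theorem real {e p x y : ℕ} {ε : ℝ} (he : 1 / ε < e) (hε : 0 < ε) (h : e * x ≤ e * y + p) :
    (x : ℝ) ≤ y + ε * p := by
  have he0 : (0 : ℝ) < e := lt_trans (by positivity) he
  have h2 : (e : ℝ) * x ≤ e * y + p := by exact_mod_cast h
  have h3 : (1 : ℝ) ≤ e * ε := by
    rw [div_lt_iff₀ hε] at he
    exact he.le
  have hp' : (0 : ℝ) ≤ p := by positivity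
  have h4 : (e : ℝ) * x ≤ e * (y + ε * p) := by nlinarith
  exact le_of_mul_le_mul_left h4 he0

end FINALXM

/-- the reduction to sequences, for every finite `K` -/
theorem arx (K : Type) [AddCommGroup K] [Finite K] (r : ℕ) (hr : 1 ≤ r) (ε : ℝ) (hε : 0 < ε) :
    ∃ p₀ : ℕ, ∀ p : ℕ, p.Prime → p₀ ≤ p →
      seqMax (K × (Fin (r - 1) → ZMod p)) (AddMonoid.exponent K * p) p ≤
        Pool.Agent.Lib.MPa7239a.tauHat (K × (Fin r → ZMod p)) (AddMonoid.exponent K * p) ∧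
      (Pool.Agent.Lib.MPa7239a.tauHat (K × (Fin r → ZMod p)) (AddMonoid.exponent K * p) : ℝ) ≤
        seqMax (K × (Fin (r - 1) → ZMod p)) (AddMonoid.exponent K * p) p + ε * p ∧
      (Pool.Agent.Lib.MPa7239a.tauHat (K × (Fin r → ZMod p)) (AddMonoid.exponent K * p) : ℝ) ≤
        AddMonoid.exponent K * egz p (r - 1) + ε * p := by
  classical
  have := Fintype.ofFinite K
  obtain ⟨d, rfl⟩ : ∃ d, r = d + 1 := ⟨r - 1, by omega⟩
  rw [Nat.add_sub_cancel]
  obtain ⟨m, hm⟩ : ∃ m, m = AddMonoid.exponent K := ⟨_, rfl⟩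
  have hm1 : 1 ≤ m := by
    rw [hm]
    exact Nat.pos_of_ne_zero AddMonoid.exponent_ne_zero_of_finite
  have hK : ∀ g : K, m • g = 0 := fun g => by
    rw [hm]
    exact AddMonoid.exponent_nsmul_eq_zero g
  rw [← hm]
  obtain ⟨e, he⟩ := exists_nat_gt (1 / ε)
  have he0 : (0 : ℝ) < e := lt_trans (by positivity) he
  have he1 : 1 ≤ e := by exact_mod_cast he0
  obtain ⟨p₁, h₁⟩ := dual K m hm1 hK d e he1
  obtain ⟨C, p₂, h₂⟩ := upperK K m hm1 hK d e he1
  refine ⟨p₁ + p₂, fun p hp hpp => ?_⟩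
  have : Fact p.Prime := ⟨hp⟩
  have hmp : 0 < m * p := Nat.mul_pos hm1 hp.pos
  obtain ⟨A, hA, hA0⟩ := (Pool.Agent.Lib.MPa7239a.le_tauHat_iff
    (G := K × (Fin (d + 1) → ZMod p)) hmp _).1
      (le_refl (tauHat (K × (Fin (d + 1) → ZMod p)) (m * p)))
  refine ⟨?_, ?_, ?_⟩
  · obtain ⟨f, hf, hf0⟩ := LIFTXM.seqMax_mem (K × (Fin d → ZMod p)) hmp p
    obtain ⟨X, hX, hX0⟩ := LIFTXM.lift_prod f hf hf0
    rw [← hX]
    exact (Pool.Agent.Lib.MPa7239a.le_tauHat_iff (G := K × (Fin (d + 1) → ZMod p)) hmp _).2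
      ⟨X, rfl, hX0⟩
  · rw [← hA]
    exact FINALXM.real he hε (h₁ p (by omega) A hA0)
  · rw [← hA]
    have h3 : e * #A ≤ e * (m * egz p d) + p := by
      by_contra hh
      obtain ⟨T, hT, hTc, hs⟩ := (h₂ p (by omega)).2 A (by omega)
      exact hA0 T hT hTc hs
    have h4 := FINALXM.real he hε h3
    rwa [Nat.cast_mul] at h4

/-- the groups `ZMod (m * p) ^ r` -/
theorem arx_cyc (m r : ℕ) (hm : 1 ≤ m) (hr : 1 ≤ r) (ε : ℝ) (hε : 0 < ε) :
    ∃ p₀ : ℕ, ∀ p : ℕ, p.Prime → p₀ ≤ p →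
      egz (m * p) (r - 1) ≤
        Pool.Agent.Lib.MPa7239a.tauHat (Fin r → ZMod (m * p)) (m * p) + 1 ∧
      (Pool.Agent.Lib.MPa7239a.tauHat (Fin r → ZMod (m * p)) (m * p) : ℝ) ≤
        m * egz p (r - 1) + ε * p := by
  classical
  obtain ⟨d, rfl⟩ : ∃ d, r = d + 1 := ⟨r - 1, by omega⟩
  rw [Nat.add_sub_cancel]
  have : NeZero m := ⟨by omega⟩
  obtain ⟨e, he⟩ := exists_nat_gt (1 / ε)
  have he0 : (0 : ℝ) < e := lt_trans (by positivity) he
  have he1 : 1 ≤ e := by exact_mod_cast he0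
  obtain ⟨C, p₂, h₂⟩ := upperK (Fin (d + 1) → ZMod m) m hm (fun g => by
    ext i
    simp) d e he1
  refine ⟨p₂ + (m + 1), fun p hp hpp => ?_⟩
  have : Fact p.Prime := ⟨hp⟩
  have hmp : 0 < m * p := Nat.mul_pos hm hp.pos
  have : NeZero (m * p) := ⟨hmp.ne'⟩
  have hcop : Nat.Coprime m p := by
    refine Nat.Coprime.symm ((Nat.Prime.coprime_iff_not_dvd hp).2 fun h => ?_)
    have := Nat.le_of_dvd hm h
    omega
  refine ⟨?_, ?_⟩
  · obtain ⟨X, hX, hX0⟩ := LIFTXM.egz_set (n := m * p) hmp d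
    have h1 := (Pool.Agent.Lib.MPa7239a.le_tauHat_iff (G := Fin (d + 1) → ZMod (m * p)) hmp #X).2
      ⟨X, rfl, hX0⟩
    omega
  · obtain ⟨A, hA, hA0⟩ := (Pool.Agent.Lib.MPa7239a.le_tauHat_iff
      (G := Fin (d + 1) → ZMod (m * p)) hmp _).1
        (le_refl (tauHat (Fin (d + 1) → ZMod (m * p)) (m * p)))
    rw [← hA]
    have h3 : e * #A ≤ e * (m * egz p d) + p := by
      by_contra hh
      obtain ⟨T, hT, hTc, hs⟩ := FINALXM.hit_of_injective (FINALXM.crt hcop (d + 1))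
        (FINALXM.crt_injective hcop (d + 1))
        ((h₂ p (by omega)).2 (A.map ⟨_, FINALXM.crt_injective hcop (d + 1)⟩) (by
          rw [card_map]
          omega))
      exact hA0 T hT hTc hs
    have h4 := FINALXM.real he hε h3
    rwa [Nat.cast_mul] at h4

/-- sharpness of the bound by the Erdős–Ginzburg–Ziv constant -/
theorem arx_sharp (m r : ℕ) (hm : 1 ≤ m) (hr : 1 ≤ r) (ε : ℝ) (hε : 0 < ε) :
    ∃ R p₀ : ℕ, ∀ p : ℕ, p.Prime → p₀ ≤ p →
      (m * egz p (r - 1) : ℝ) - ε * p ≤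
        Pool.Agent.Lib.MPa7239a.tauHat ((Fin R → ZMod m) × (Fin r → ZMod p)) (m * p) := by
  classical
  obtain ⟨d, rfl⟩ : ∃ d, r = d + 1 := ⟨r - 1, by omega⟩
  rw [Nat.add_sub_cancel]
  have : NeZero m := ⟨by omega⟩
  rcases Nat.lt_or_ge 1 m with hm2 | hm2
  · obtain ⟨e, he⟩ := exists_nat_gt (2 * m / ε)
    have hm0 : (0 : ℝ) < m := by exact_mod_cast hm
    have he0 : (0 : ℝ) < e := lt_trans (by positivity) he
    have he1 : 1 ≤ e := by exact_mod_cast he0
    obtain ⟨R, p₁, h₁⟩ := sharp m d e hm2 he1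
    refine ⟨R, p₁ + e, fun p hp hpp => ?_⟩
    have : Fact p.Prime := ⟨hp⟩
    have hmp : 0 < m * p := Nat.mul_pos hm hp.pos
    obtain ⟨X, hX, hX0⟩ := h₁ p (by omega)
    have h1 := (Pool.Agent.Lib.MPa7239a.le_tauHat_iff
      (G := (Fin R → ZMod m) × (Fin (d + 1) → ZMod p)) hmp #X).2 ⟨X, rfl, hX0⟩
    have h2 : e * (m * egz p d) ≤
        e * tauHat ((Fin R → ZMod m) × (Fin (d + 1) → ZMod p)) (m * p) + m * (p + e) :=
      hX.trans (Nat.add_le_add_right (Nat.mul_le_mul_left _ h1) _)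
    have h3 : (e : ℝ) * (m * egz p d) ≤
        e * tauHat ((Fin R → ZMod m) × (Fin (d + 1) → ZMod p)) (m * p) + m * (p + e) := by
      exact_mod_cast h2
    have h4 : (2 * m : ℝ) ≤ e * ε := by
      rw [div_lt_iff₀ hε] at he
      exact he.le
    have h5 : (e : ℝ) ≤ p := by
      have : e ≤ p := by omega
      exact_mod_cast this
    have h6 : (m : ℝ) * (p + e) ≤ e * (ε * p) := by
      have h7 : (m : ℝ) * (p + e) ≤ 2 * m * p := by nlinarith
      have h8 : (2 * m : ℝ) * p ≤ e * ε * p := by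
        refine mul_le_mul_of_nonneg_right h4 (by positivity)
      linarith
    have h9 : (e : ℝ) * (m * egz p d - ε * p) ≤
        e * tauHat ((Fin R → ZMod m) × (Fin (d + 1) → ZMod p)) (m * p) := by
      rw [mul_sub]
      linarith
    exact le_of_mul_le_mul_left h9 he0
  · obtain rfl : m = 1 := by omega
    obtain ⟨p₀, hp₀⟩ := exists_nat_gt (1 / ε)
    refine ⟨0, p₀, fun p hp hpp => ?_⟩
    have : Fact p.Prime := ⟨hp⟩
    have hmp : 0 < 1 * p := by
      rw [one_mul]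
      exact hp.pos
    obtain ⟨A, hA, hA0⟩ := LIFTXM.egz_set hp.one_lt.le d
    have h1 := (Pool.Agent.Lib.MPa7239a.le_tauHat_iff
      (G := (Fin 0 → ZMod 1) × (Fin (d + 1) → ZMod p)) hmp #A).2
      ⟨A.map ⟨fun x => (0, x), fun x y h => (Prod.mk.injEq _ _ _ _ ▸ h).2⟩, card_map _, by
        intro T hT hTc hTs
        obtain ⟨T', hT', rfl⟩ := subset_map_iff.1 hT
        rw [card_map, one_mul] at hTc
        rw [sum_map] at hTs
        have h4 := congrArg Prod.snd hTs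
        rw [Prod.snd_sum] at h4
        exact hA0 T' hT' hTc h4⟩
    have h2 : egz p d ≤ tauHat ((Fin 0 → ZMod 1) × (Fin (d + 1) → ZMod p)) (1 * p) + 1 := by
      omega
    have h3 : (egz p d : ℝ) ≤
        tauHat ((Fin 0 → ZMod 1) × (Fin (d + 1) → ZMod p)) (1 * p) + 1 := by
      exact_mod_cast h2
    have h4 : 1 ≤ ε * p := by
      have h5 : (p₀ : ℝ) ≤ p := by exact_mod_cast hpp
      rw [div_lt_iff₀ hε] at hp₀
      nlinarith
    push_cast
    linarith

end Pool.Agent.Lib.MPa7239a.AR
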