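import Pool.Agent.Lib.MP_a7239a_co.AR.VIRT

/-!
# ARX, module GENX: pieces, directions, a generic offset, fibres

Text: MP_a7239a_ARX_h59.md.
-/

set_option autoImplicit false
set_option linter.unusedSectionVars false

open Finset
open scoped Pointwise

namespace Pool.Agent.Lib.MPa7239a.AR

open Pool.Agent.Lib.MPa7239a.GC
open Pool.Agent.Lib.MPa7239a.R3

namespace VIRXM

/-- disjoint pieces of a finite set -/
theorem pieces {α : Type} [DecidableEq α] (s : ℕ) : ∀ (c : ℕ) (B : Finset α), c * s ≤ #B →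
    ∃ D : Fin c → Finset α, (∀ j, D j ⊆ B) ∧ (∀ j, #(D j) = s) ∧
      ∀ i j, i ≠ j → Disjoint (D i) (D j) := by
  intro c
  induction c with
  | zero =>
    intro B _
    exact ⟨fun _ => ∅, fun j => j.elim0, fun j => j.elim0, fun j => j.elim0⟩
  | succ c ih =>
    intro B hB
    rw [add_mul, one_mul] at hB
    obtain ⟨D₀, h1, h2⟩ := exists_subset_card_eq (s := B) (n := s) (by omega)
    obtain ⟨D, h3, h4, h5⟩ := ih (B \ D₀) (by
      rw [card_sdiff_of_subset h1]
      omega)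
    have h6 : ∀ j, Disjoint D₀ (D j) := fun j =>
      Disjoint.mono_right (h3 j) disjoint_sdiff
    refine ⟨Fin.cons D₀ D, ?_, ?_, ?_⟩
    · intro j
      refine Fin.cases ?_ (fun j => ?_) j
      · exact h1
      · exact (h3 j).trans sdiff_subset
    · intro j
      refine Fin.cases ?_ (fun j => ?_) j
      · exact h2
      · exact h4 j
    · intro i
      refine Fin.cases ?_ (fun i => ?_) i
      · intro j
        refine Fin.cases ?_ (fun j => ?_) j
        · intro h
          exact absurd rfl h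
        · intro _
          exact h6 j
      · intro j
        refine Fin.cases ?_ (fun j => ?_) j
        · intro _
          exact (h6 i).symm
        · intro h
          exact h5 i j fun h' => h (by rw [h'])

section
variable {p : ℕ} [Fact p.Prime] {V : Type} [AddCommGroup V] [Module (ZMod p) V]

/-- a direction in `L` which is none of the directions `y k` -/
theorem direction [Fintype V] {ι : Type} [Fintype ι] (L : Submodule (ZMod p) V)
    (hι : Fintype.card ι < p) (y : ι → V) (hL : 2 ≤ Module.finrank (ZMod p) L) :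
    ∃ z ∈ L, z ≠ 0 ∧ ∀ k, y k ≠ 0 → ∀ s : ZMod p, y k ≠ s • z := by
  classical
  have hp : 1 < p := (Fact.out : p.Prime).one_lt
  have hLc : p * p ≤ #(univ.filter fun x : V => x ∈ L) := by
    have h1 : Fintype.card L = p ^ Module.finrank (ZMod p) L := by
      rw [Module.card_eq_pow_finrank (K := ZMod p), ZMod.card]
    rw [← Fintype.card_subtype, ← pow_two]
    exact (Nat.pow_le_pow_right hp.le hL).trans h1.symm.le
  have hS : #(insert 0 (univ.image fun q : ι × ZMod p => q.2 • y q.1)) < p * p := by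
    refine lt_of_le_of_lt (card_insert_le _ _) ?_
    have h2 : #(univ.image fun q : ι × ZMod p => q.2 • y q.1) ≤ Fintype.card ι * p := by
      refine card_image_le.trans ?_
      rw [card_univ, Fintype.card_prod, ZMod.card]
    have h3 : (Fintype.card ι + 1) * p ≤ p * p := Nat.mul_le_mul_right _ hι
    rw [add_mul, one_mul] at h3
    omega
  obtain ⟨z, hz, hz'⟩ := exists_mem_notMem_of_card_lt_card (lt_of_lt_of_le hS hLc)
  rw [mem_filter] at hz
  rw [mem_insert, not_or] at hz'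
  refine ⟨z, hz.2, hz'.1, fun k hk s hs => hz'.2 ?_⟩
  have hs0 : s ≠ 0 := by
    rintro rfl
    rw [zero_smul] at hs
    exact hk hs
  rw [mem_image]
  refine ⟨(k, s⁻¹), mem_univ _, ?_⟩
  change s⁻¹ • y k = z
  rw [hs, smul_smul, inv_mul_cancel₀ hs0, one_smul]

/-- a generic offset -/
theorem generic {ι : Type} [Fintype ι] (hι : Fintype.card ι * Fintype.card ι < p)
    (y ζ : ι → V) : ∃ c : ZMod p, ∀ k k', y k + c • ζ k = y k' + c • ζ k' →
      y k = y k' ∧ ζ k = ζ k' := by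
  classical
  by_contra hh
  push Not at hh
  choose k k' h1 h2 using hh
  have h3 : Fintype.card (ι × ι) < Fintype.card (ZMod p) := by
    rwa [Fintype.card_prod, ZMod.card]
  obtain ⟨c, c', hc, he⟩ := Fintype.exists_ne_map_eq_of_card_lt (fun c => (k c, k' c)) h3
  rw [Prod.mk.injEq] at he
  have h4 := h1 c
  have h5 := h1 c'
  rw [← he.1, ← he.2] at h5
  have h6 : (c - c') • (ζ (k c) - ζ (k' c)) = 0 := by
    have h7 : (c - c') • (ζ (k c) - ζ (k' c)) = (y (k c) + c • ζ (k c)) -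
        (y (k' c) + c • ζ (k' c)) - ((y (k c) + c' • ζ (k c)) - (y (k' c) + c' • ζ (k' c))) := by
      module
    rw [h7, h4, h5, sub_self, sub_self, sub_zero]
  have h8 : ζ (k c) = ζ (k' c) := by
    rcases smul_eq_zero.1 h6 with h | h
    · exact absurd (sub_eq_zero.1 h) hc
    · exact sub_eq_zero.1 h
  refine h2 c ?_ h8
  rw [h8] at h4
  exact add_right_cancel h4

/-- the elements of a fibre of the virtual sequence -/
theorem fibre [DecidableEq V] {ι : Type} [Fintype ι] [DecidableEq ι]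
    {D : ι → Finset (V × ZMod p)} (hdis : ∀ i j, i ≠ j → Disjoint (D i) (D j))
    (hp : ∀ i, #(D i) ≤ p) {y ζ : ι → V} {τ ξ : ι → ZMod p}
    (h : ∀ k, (∀ a ∈ D k, ∃ s : ZMod p, a = (y k + s • ζ k, τ k)) ∨
      ∀ k', k' ≠ k → ∀ s : ZMod p, (y k' + ξ k' • ζ k', τ k') ≠ (y k + s • ζ k, τ k))
    (F : Finset ι) (hF : ∀ k ∈ F, ∀ k' ∈ F, y k = y k' ∧ ζ k = ζ k' ∧ τ k = τ k') :
    ∑ k ∈ F, #(D k) ≤ p := by
  rcases F.eq_empty_or_nonempty with rfl | ⟨k₁, hk₁⟩
  · rw [sum_empty]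
    exact Nat.zero_le _
  by_cases hall : ∀ k ∈ F, ∀ a ∈ D k, ∃ s : ZMod p, a = (y k + s • ζ k, τ k)
  · rw [← card_biUnion fun i _ j _ hij => hdis i j hij]
    have h1 : F.biUnion D ⊆ univ.image fun s : ZMod p => (y k₁ + s • ζ k₁, τ k₁) := by
      intro a ha
      rw [mem_biUnion] at ha
      obtain ⟨k, hk, ha⟩ := ha
      obtain ⟨s, hs⟩ := hall k hk a ha
      obtain ⟨h2, h3, h4⟩ := hF k hk k₁ hk₁
      rw [mem_image]
      exact ⟨s, mem_univ _, by rw [hs, h2, h3, h4]⟩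
    refine (card_le_card h1).trans (card_image_le.trans ?_)
    rw [card_univ, ZMod.card]
  · push Not at hall
    obtain ⟨k, hk, a, ha, hs⟩ := hall
    have h1 := (h k).resolve_left fun h' => by
      obtain ⟨s, hs'⟩ := h' a ha
      exact hs s hs'
    have h2 : F = {k} := by
      refine eq_singleton_iff_unique_mem.2 ⟨hk, fun k' hk' => ?_⟩
      by_contra hne
      obtain ⟨h3, h4, h5⟩ := hF k' hk' k hk
      exact h1 k' hne (ξ k') (by rw [h3, h4, h5])
    rw [h2, sum_singleton]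
    exact hp k

/-- back from `V × ZMod p` to `K × V` -/
theorem back2 {K : Type} [AddCommGroup K] [DecidableEq K] [DecidableEq V] {t : K ↪ ZMod p}
    {A : Finset (K × V)} {B : Finset (V × ZMod p)}
    (hBA : B ⊆ A.map (VIRTM.emb t)) {g : K} (hB : ∀ x ∈ B, x.2 = t g) {k : ℕ}
    {w : V × ZMod p} (h : Hit B k w) :
    ∃ S ⊆ A, S.map (VIRTM.emb t) ⊆ B ∧ #S = k ∧ ∑ a ∈ S, a = (k • g, w.1) := by
  obtain ⟨S', hS', hc, hs⟩ := h
  obtain ⟨S, hS, rfl⟩ := subset_map_iff.1 (hS'.trans hBA)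
  rw [card_map] at hc
  refine ⟨S, hS, hS', hc, ?_⟩
  rw [sum_map] at hs
  have h2 : ∑ a ∈ S, a.2 = w.1 := by
    rw [← hs, Prod.fst_sum]
    rfl
  have h1 : ∑ a ∈ S, a.1 = k • g := by
    have h3 : ∀ a ∈ S, a.1 = g := fun a ha =>
      t.injective (hB _ (hS' (mem_map_of_mem _ ha)))
    rw [sum_congr rfl h3, sum_const, hc]
  refine Prod.ext ?_ ?_
  · rw [Prod.fst_sum, h1]
  · rw [Prod.snd_sum, h2]

end

/-- the sum of the virtual multiplicities -/
theorem num8 {e k₀ C κ p A SB SN : ℕ} (hκ : κ = k₀ * (C + 1))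
    (hp : 1024 * (2 * e * (κ + 1)) ≤ p)
    (h1 : SB ≤ SN + κ * (p / (16 * (2 * e * (κ + 1))) + 1) + C * k₀)
    (hB : 4 * e * A ≤ 4 * e * SB + p) : e * A ≤ e * SN + p := by
  have h0 : C * k₀ ≤ κ := by
    rw [hκ, mul_comm]
    exact Nat.mul_le_mul_left _ (Nat.le_succ _)
  set t := p / (16 * (2 * e * (κ + 1))) with ht
  have h2 : 16 * (2 * e * (κ + 1)) * t ≤ p := Nat.mul_div_le _ _
  have h3 : 4 * e * SB ≤ 4 * e * (SN + κ * (t + 1) + κ) := Nat.mul_le_mul_left _ (by omega)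
  have h4 : 4 * e * (SN + κ * (t + 1) + κ) = 4 * (e * SN) + 4 * (e * κ * t) + 8 * (e * κ) := by
    ring
  have h5 : 32 * (e * κ * t) ≤ p := by
    refine le_trans ?_ h2
    have : 16 * (2 * e * (κ + 1)) * t = 32 * (e * κ * t) + 32 * (e * t) := by ring
    omega
  have h6 : 2048 * (e * κ) ≤ p := by
    refine le_trans ?_ hp
    have : 1024 * (2 * e * (κ + 1)) = 2048 * (e * κ) + 2048 * e := by
      ring
    omega
  have h7 : 4 * e * A = 4 * (e * A) := by ring
  omega

/-- the pieces are large -/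
theorem num9 {e k₀ C κ p B : ℕ} (hκ : κ = k₀ * (C + 1)) (he : 1 ≤ e)
    (hp : 1024 * (2 * e * (κ + 1)) ≤ p) (hB : p ≤ 2 * (4 * e) * k₀ * B) :
    1 ≤ B / (C + 1) ∧ p ≤ 2 * (4 * (2 * e)) * κ * (B / (C + 1)) := by
  have h1 : C + 1 ≤ B := by
    by_contra hh
    have h2 : 2 * (4 * e) * k₀ * B ≤ 2 * (4 * e) * k₀ * (C + 1) := Nat.mul_le_mul_left _ (by omega)
    have h3 : 2 * (4 * e) * k₀ * (C + 1) = 8 * (e * κ) := by
      rw [hκ]
      ring
    have h4 : 1024 * (2 * e * (κ + 1)) = 2048 * (e * κ) + 2048 * e := by ring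
    omega
  have h5 : 1 ≤ B / (C + 1) := Nat.div_pos h1 (by omega)
  refine ⟨h5, ?_⟩
  have h6 := Nat.div_add_mod B (C + 1)
  have h7 := Nat.mod_lt B (show C + 1 > 0 by omega)
  generalize B / (C + 1) = s at *
  have h8 : C + 1 ≤ (C + 1) * s := Nat.le_mul_of_pos_right _ h5
  have h9 : B ≤ 2 * ((C + 1) * s) := by omega
  have h10 : 2 * (4 * e) * k₀ * B ≤ 2 * (4 * e) * k₀ * (2 * ((C + 1) * s)) :=
    Nat.mul_le_mul_left _ h9
  have h11 : 2 * (4 * e) * k₀ * (2 * ((C + 1) * s)) = 2 * (4 * (2 * e)) * κ * s := by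
    rw [hκ]
    ring
  omega

end VIRXM

end Pool.Agent.Lib.MPa7239a.AR
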