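import Pool.Agent.Lib.MP_a7239a_co.AR.Defs

/-!
# All ranks, prime exponent: a linear form which does not vanish at given nonzero vectors (module HYP)
-/

set_option autoImplicit false

open Finset

namespace Pool.Agent.Lib.MPa7239a.AR

section
variable {p : ℕ} [Fact p.Prime] {G : Type} [AddCommGroup G] [Module (ZMod p) G] [Fintype G]
  [DecidableEq G]

namespace HYPM

/-- the evaluation at `x` -/
def ev (x : G) : (G →ₗ[ZMod p] ZMod p) →+ ZMod p where
  toFun φ := φ x
  map_zero' := rfl
  map_add' _ _ := rfl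

omit [Fintype G] [DecidableEq G] in
theorem ev_surjective {x : G} (hx : x ≠ 0) : Function.Surjective (ev (p := p) x) := by
  have h1 : ¬ ∀ φ : Module.Dual (ZMod p) G, φ x = 0 := fun h =>
    hx ((Module.forall_dual_apply_eq_zero_iff (ZMod p) x).1 h)
  push Not at h1
  obtain ⟨φ, hφ⟩ := h1
  intro c
  refine ⟨(c * (φ x)⁻¹) • φ, ?_⟩
  show (c * (φ x)⁻¹) • φ x = c
  rw [smul_eq_mul, mul_assoc, inv_mul_cancel₀ hφ, mul_one]

omit [Fintype G] [DecidableEq G] in
theorem card_ker {x : G} (hx : x ≠ 0) :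
    Nat.card (ev (p := p) x).ker * p = Nat.card (G →ₗ[ZMod p] ZMod p) := by
  have h1 := AddSubgroup.card_mul_index (ev (p := p) x).ker
  rw [AddSubgroup.index_ker, AddMonoidHom.range_eq_top.2 (ev_surjective hx), AddSubgroup.card_top,
    Nat.card_zmod] at h1
  exact h1

end HYPM

open HYPM in
/-- fewer than `p` nonzero vectors: some form is nonzero at all of them -/
theorem transversal {ι : Type} [Fintype ι] (hι : Fintype.card ι < p) (x : ι → G) :
    ∃ φ : G →ₗ[ZMod p] ZMod p, ∀ i, x i ≠ 0 → φ (x i) ≠ 0 := by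
  classical
  have : Finite (G →ₗ[ZMod p] ZMod p) := DFunLike.finite _
  have := Fintype.ofFinite (G →ₗ[ZMod p] ZMod p)
  by_contra hcon
  push Not at hcon
  set Φ := (G →ₗ[ZMod p] ZMod p) with hΦ
  let K : ι → Finset Φ := fun i => univ.filter fun φ => x i ≠ 0 ∧ φ (x i) = 0
  have h1 : (univ : Finset Φ) ⊆ univ.biUnion K := by
    intro φ _
    obtain ⟨i, hi⟩ := hcon φ
    exact mem_biUnion.2 ⟨i, mem_univ _, mem_filter.2 ⟨mem_univ _, hi⟩⟩
  have hK : ∀ i, #(K i) * p ≤ Fintype.card Φ := by
    intro i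
    by_cases hi : x i = 0
    · have : K i = ∅ := filter_false_of_mem fun φ _ h => h.1 hi
      rw [this, card_empty, Nat.zero_mul]
      exact Nat.zero_le _
    · have h2 := card_ker (p := p) hi
      rw [Nat.card_eq_fintype_card (α := Φ)] at h2
      rw [← h2]
      refine Nat.mul_le_mul_right _ (le_of_eq ?_)
      have e1 : #(K i) = Nat.card {φ : Φ // φ ∈ K i} := by
        rw [Nat.card_eq_fintype_card, Fintype.card_coe]
      rw [e1]
      refine Nat.card_congr (Equiv.subtypeEquivRight fun φ => ?_)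
      constructor
      · intro h
        exact ((mem_filter.1 h).2).2
      · intro h
        exact mem_filter.2 ⟨mem_univ _, hi, h⟩
  have h3 := (card_le_card h1).trans card_biUnion_le
  have h4 : (∑ i, #(K i)) * p ≤ Fintype.card ι * Fintype.card Φ := by
    rw [sum_mul]
    calc ∑ i, #(K i) * p ≤ ∑ _i : ι, Fintype.card Φ := sum_le_sum fun i _ => hK i
      _ = Fintype.card ι * Fintype.card Φ := by rw [sum_const, card_univ, smul_eq_mul]
  rw [card_univ] at h3
  have h5 : 0 < Fintype.card Φ := Fintype.card_pos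
  have h6 : Fintype.card ι * Fintype.card Φ < p * Fintype.card Φ := Nat.mul_lt_mul_of_pos_right hι h5
  have h7 : Fintype.card Φ * p ≤ (∑ i, #(K i)) * p := Nat.mul_le_mul_right _ h3
  rw [Nat.mul_comm p] at h6
  omega

end

end Pool.Agent.Lib.MPa7239a.AR
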