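import Pool.Agent.Lib.MP_a7239a_co.AR.Defs

/-!
# AR, module LARGE
-/

set_option autoImplicit false

open Finset
open scoped Pointwise

namespace Pool.Agent.Lib.MPa7239a.AR

open Pool.Agent.Lib.MPa7239a.GC
open Pool.Agent.Lib.MPa7239a.R3

namespace LARGEM

/-- the number of residues of absolute value less than `W` -/
theorem card_small (p : ℕ) [Fact p.Prime] (W : ℕ) :
    #{t : ZMod p | t.valMinAbs.natAbs < W} ≤ 2 * W := by
  have h1 : #{t : ZMod p | t.valMinAbs.natAbs < W} ≤ #(Ioo (-(W : ℤ)) W) := by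
    refine card_le_card_of_injOn (fun t => t.valMinAbs) (fun t ht => ?_) fun a _ b _ hab => ?_
    · rw [mem_coe, mem_filter] at ht
      rw [mem_coe, mem_Ioo]
      have := ht.2
      change -(W : ℤ) < t.valMinAbs ∧ t.valMinAbs < (W : ℤ)
      omega
    · have := congrArg (fun z : ℤ => (z : ZMod p)) hab
      simpa using this
  rw [Int.card_Ioo] at h1
  omega

end LARGEM

section
variable {p : ℕ} [Fact p.Prime] {G : Type} [AddCommGroup G] [Module (ZMod p) G] [Fintype G]
  [DecidableEq G]

/-- **LARGE.** -/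
theorem large {X Y : Finset G} (hY : Y.Nonempty) (h2 : 2 * #Y ≤ Nat.card G) {J W b : ℕ}
    (hJ : 1 ≤ J) (hJW : p ≤ J * W) (hs : Spread (⊤ : Submodule (ZMod p) G) X b)
    (hX : 4 * W * b < #X) (q : G) : ∃ a ∈ X, #Y ≤ 8 * J * #((Y + {a - q}) \ Y) := by
  by_contra hcon
  push Not at hcon
  have hc : Nat.card (⊤ : Submodule (ZMod p) G) = Nat.card G :=
    Nat.card_congr Submodule.topEquiv.toEquiv
  obtain ⟨ξ, ⟨h, -, hh⟩, hξ⟩ := char_exists (⊤ : Submodule (ZMod p) G) hY
    (fun y _ => Submodule.mem_top) (by rw [hc]; exact h2) (B := X) (q := fun _ => q) (u := 2)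
    (by norm_num) hJ hJW (fun a ha => by
      have := hcon a ha
      have e : 4 * 2 * J * #((Y + {a - q}) \ Y) = 8 * J * #((Y + {a - q}) \ Y) := by ring
      rw [e]
      exact this)
  have hker : LinearMap.ker ξ < ⊤ := by
    rw [lt_top_iff_ne_top]
    intro he
    have : h ∈ LinearMap.ker ξ := by rw [he]; exact Submodule.mem_top
    exact hh (LinearMap.mem_ker.1 this)
  have h3 : #{a ∈ X | ¬ W ≤ (ξ (a - q)).valMinAbs.natAbs} ≤ b * (2 * W) := by
    refine (card_le_mul_card_image_of_maps_to (f := fun a => ξ (a - q))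
      (t := {t : ZMod p | t.valMinAbs.natAbs < W}) (n := b) (fun a ha => ?_)
      fun t _ => ?_).trans (Nat.mul_le_mul_left _ (LARGEM.card_small p W))
    · rw [mem_filter] at ha
      exact mem_filter.2 ⟨mem_univ _, not_le.1 ha.2⟩
    · rcases ({x ∈ {a ∈ X | ¬ W ≤ (ξ (a - q)).valMinAbs.natAbs} | ξ (x - q) = t} :
        Finset G).eq_empty_or_nonempty with h0 | ⟨z, hz⟩
      · rw [h0, card_empty]
        exact Nat.zero_le _
      · refine hs _ hker z _ (fun a ha => (mem_filter.1 (mem_filter.1 ha).1).1) fun a ha => ?_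
        rw [LinearMap.mem_ker]
        have e1 := (mem_filter.1 ha).2
        have e2 := (mem_filter.1 hz).2
        have e3 : a - z = (a - q) - (z - q) := by abel
        rw [e3, map_sub, e1, e2, sub_self]
  have h4 := card_filter_add_card_filter_not (s := X) (fun a => W ≤ (ξ (a - q)).valMinAbs.natAbs)
  have h5 : b * (2 * W) * 2 = 4 * W * b := by ring
  omega

end

end Pool.Agent.Lib.MPa7239a.AR
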