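import Pool.Agent.Lib.MP_a7239a_co.AR.Defs

/-!
# AR, module LIFT: a sequence without `p` terms of sum `0` lifts to a set one dimension higher
-/

set_option autoImplicit false
set_option linter.unusedSectionVars false

open Finset

namespace Pool.Agent.Lib.MPa7239a.AR

open Pool.Agent.Lib.MPa7239a.GC

namespace LIFTM

variable {p : ℕ} [Fact p.Prime] {d s : ℕ}

/-- the number of the earlier terms with the same value -/
def rk (f : Fin s → (Fin d → ZMod p)) (i : Fin s) : ℕ := #{j : Fin s | j < i ∧ f j = f i}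

theorem rk_lt (f : Fin s → (Fin d → ZMod p))
    (hf : ¬ ∃ T : Finset (Fin s), #T = p ∧ ∑ i ∈ T, f i = 0) (i : Fin s) : rk f i < p := by
  by_contra h
  push Not at h
  obtain ⟨T, hT, hc⟩ := Finset.exists_subset_card_eq h
  refine hf ⟨T, hc, ?_⟩
  have h1 : ∀ j ∈ T, f j = f i := fun j hj => by
    have := hT hj
    rw [mem_filter] at this
    exact this.2.2
  rw [sum_congr rfl h1, sum_const, hc]
  ext k
  simp

theorem rk_inj (f : Fin s → (Fin d → ZMod p)) {i j : Fin s} (hij : i < j) (h : f i = f j) :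
    rk f i < rk f j := by
  unfold rk
  apply card_lt_card
  rw [ssubset_iff_of_subset]
  · refine ⟨i, ?_, ?_⟩
    · rw [mem_filter]
      exact ⟨mem_univ _, hij, h⟩
    · rw [mem_filter]
      rintro ⟨-, h1, -⟩
      exact lt_irrefl _ h1
  · intro k hk
    rw [mem_filter] at hk ⊢
    exact ⟨mem_univ _, hk.2.1.trans hij, hk.2.2.trans h⟩

/-- the lift -/
def lf (f : Fin s → (Fin d → ZMod p)) (i : Fin s) : Fin (d + 1) → ZMod p :=
  Fin.cons (rk f i : ZMod p) (f i)

theorem lf_inj (f : Fin s → (Fin d → ZMod p))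
    (hf : ¬ ∃ T : Finset (Fin s), #T = p ∧ ∑ i ∈ T, f i = 0) : Function.Injective (lf f) := by
  intro i j h
  unfold lf at h
  rw [Fin.cons_inj] at h
  obtain ⟨h1, h2⟩ := h
  have h3 : rk f i = rk f j := by
    rw [ZMod.natCast_eq_natCast_iff'] at h1
    rwa [Nat.mod_eq_of_lt (rk_lt f hf i), Nat.mod_eq_of_lt (rk_lt f hf j)] at h1
  rcases lt_trichotomy i j with h4 | h4 | h4
  · have := rk_inj f h4 h2
    omega
  · exact h4
  · have := rk_inj f h4 h2.symm
    omega

end LIFTM

theorem lift_seq {p : ℕ} [Fact p.Prime] {d s : ℕ} (f : Fin s → (Fin d → ZMod p))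
    (hf : ¬ ∃ T : Finset (Fin s), #T = p ∧ ∑ i ∈ T, f i = 0) :
    ∃ A : Finset (Fin (d + 1) → ZMod p), #A = s ∧ ¬ Hit A p 0 := by
  classical
  refine ⟨univ.image (LIFTM.lf f), ?_, ?_⟩
  · rw [card_image_of_injective _ (LIFTM.lf_inj f hf), card_univ, Fintype.card_fin]
  · rintro ⟨T, hT, hc, hs⟩
    refine hf ⟨univ.filter fun i => LIFTM.lf f i ∈ T, ?_, ?_⟩
    · refine Eq.trans ?_ hc
      refine card_bij (fun i _ => LIFTM.lf f i) ?_ ?_ ?_
      · intro i hi
        rw [mem_filter] at hi
        exact hi.2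
      · intro i _ j _ h
        exact LIFTM.lf_inj f hf h
      · intro x hx
        have := hT hx
        rw [mem_image] at this
        obtain ⟨i, -, rfl⟩ := this
        exact ⟨i, by rw [mem_filter]; exact ⟨mem_univ _, hx⟩, rfl⟩
    · have h1 : ∑ i ∈ univ.filter (fun i => LIFTM.lf f i ∈ T), LIFTM.lf f i = 0 := by
        rw [← hs]
        refine sum_bij (fun i _ => LIFTM.lf f i) ?_ ?_ ?_ ?_
        · intro i hi
          rw [mem_filter] at hi
          exact hi.2
        · intro i _ j _ h
          exact LIFTM.lf_inj f hf h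
        · intro x hx
          have := hT hx
          rw [mem_image] at this
          obtain ⟨i, -, rfl⟩ := this
          exact ⟨i, by rw [mem_filter]; exact ⟨mem_univ _, hx⟩, rfl⟩
        · intro i _
          rfl
      ext k
      have h2 := congrFun h1 k.succ
      rw [Finset.sum_apply] at h2
      rw [Finset.sum_apply]
      simpa [LIFTM.lf] using h2

end Pool.Agent.Lib.MPa7239a.AR
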