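import Pool.Agent.Lib.MP_a7239a_co.AR.STEPR

/-!
# All ranks, prime exponent: rounding of a lattice vector (module ROUNDING)
-/

set_option autoImplicit false

open Finset

namespace Pool.Agent.Lib.MPa7239a.AR

/-- `k` coordinates are not yet large -/
theorem rounding_aux (K k : ℕ) : ∀ (D e : ℕ), 1 ≤ D → 1 ≤ e → ∃ c : ℕ, 1 ≤ c ∧
    ∀ (p : ℕ), 1 ≤ p → ∀ (ι : Type) [Fintype ι] [DecidableEq ι], Fintype.card ι ≤ K →
      ∀ (Λ : AddSubgroup (ι → ℤ)), (∀ i, Pi.single i (p : ℤ) ∈ Λ) →
      (∀ l ∈ Λ, (p : ℤ) ∣ ∑ i, l i) → ∀ α ∈ Λ, (∀ i, 0 ≤ α i) → ∑ i, α i = p →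
      ∀ I : Finset ι, (∀ i ∈ I, (p : ℤ) ≤ D * α i) → Fintype.card ι ≤ #I + k →
      ∃ β ∈ Λ, (∀ i, 0 ≤ β i) ∧ ∑ i, β i = p ∧ (∀ i, α i = 0 → β i = 0) ∧
        (∀ i, β i = 0 ∨ (p : ℤ) ≤ c * β i) ∧ ∀ i, (e : ℤ) * |β i - α i| ≤ p := by
  induction k with
  | zero =>
    intro D e hD he
    refine ⟨D, hD, fun p hp ι _ _ hK Λ hΛ hdiv α hα h0 hsum I hI hcard => ?_⟩
    have hIu : I = univ := by
      rw [← card_eq_iff_eq_univ]
      exact le_antisymm (card_le_univ I) (by omega)
    refine ⟨α, hα, h0, hsum, fun i h => h, fun i => Or.inr (hI i (hIu ▸ mem_univ i)), fun i => ?_⟩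
    rw [sub_self, abs_zero, mul_zero]
    positivity
  | succ k ih =>
    intro D e hD he
    set E : ℕ := 2 * D + K + 2 * e with hEdef
    set D' : ℕ := 2 * E ^ (K + 1) + 2 * D with hD'
    obtain ⟨c, hc, hih⟩ := ih D' (2 * e) (by omega) (by omega)
    refine ⟨c + D, by omega, fun p hp ι _ _ hK Λ hΛ hdiv α hα h0 hsum I hI hcard => ?_⟩
    by_cases hall : ∀ j ∉ I, α j = 0
    · refine ⟨α, hα, h0, hsum, fun i h => h, fun i => ?_, fun i => ?_⟩
      · by_cases hi : i ∈ I
        · right
          have h1 := hI i hi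
          have h2 : (0 : ℤ) ≤ c * α i := mul_nonneg (by positivity) (h0 i)
          push_cast
          rw [add_mul]
          linarith
        · exact Or.inl (hall i hi)
      · rw [sub_self, abs_zero, mul_zero]
        positivity
    push Not at hall
    obtain ⟨j₀, hj₀, hj₀'⟩ := hall
    obtain ⟨j, hj, hjmax⟩ := exists_max_image (univ \ I) α ⟨j₀, by simp [hj₀]⟩
    have hjI : j ∉ I := (mem_sdiff.1 hj).2
    have hμ : 0 < α j := by
      have h1 := hjmax j₀ (by simp [hj₀])
      have h2 := h0 j₀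
      omega
    have hμ2 : ∀ i ∉ I, α i ≤ α j := fun i hi => hjmax i (by simp [hi])
    have hIK : #I ≤ K := (card_le_univ I).trans hK
    have hE1 : 1 ≤ E := by omega
    have hpow : (E : ℤ) ^ (#I + 1) ≤ (E : ℤ) ^ (K + 1) :=
      pow_le_pow_right₀ (by exact_mod_cast hE1) (by omega)
    have hmono : ∀ γ : ι → ℤ, (∀ i, α i = 0 → γ i = 0) → (∀ i, (2 * e : ℕ) * |γ i - α i| ≤ (p : ℤ)) →
        (∀ i, 0 ≤ γ i) → γ ∈ Λ → ∑ i, γ i = p → ∀ I' : Finset ι, (∀ i ∈ I', (p : ℤ) ≤ D' * γ i) →
        Fintype.card ι ≤ #I' + k → ∃ β ∈ Λ, (∀ i, 0 ≤ β i) ∧ ∑ i, β i = p ∧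
          (∀ i, α i = 0 → β i = 0) ∧ (∀ i, β i = 0 ∨ (p : ℤ) ≤ (c + D : ℕ) * β i) ∧
          ∀ i, (e : ℤ) * |β i - α i| ≤ p := by
      intro γ hγ0 hγe hγn hγ hγs I' hI' hcard'
      obtain ⟨β, hβ, b1, b2, b3, b4, b5⟩ := hih p hp ι hK Λ hΛ hdiv γ hγ hγn hγs I' hI' hcard'
      refine ⟨β, hβ, b1, b2, fun i hi => b3 i (hγ0 i hi), fun i => ?_, fun i => ?_⟩
      · rcases b4 i with h | h
        · exact Or.inl h
        · right
          have h2 : (0 : ℤ) ≤ D * β i := mul_nonneg (by positivity) (b1 i)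
          push_cast
          rw [add_mul]
          linarith
      · have h1 := b5 i
        have h2 := hγe i
        have h3 : |β i - α i| ≤ |β i - γ i| + |γ i - α i| := abs_sub_le _ _ _
        have h4 : (e : ℤ) * |β i - α i| ≤ e * |β i - γ i| + e * |γ i - α i| := by
          rw [← mul_add]
          exact mul_le_mul_of_nonneg_left h3 (by positivity)
        push_cast at h1 h2
        linarith
    rcases le_or_gt ((E : ℤ) ^ (#I + 1) * α j) p with h3 | h3
    · obtain ⟨ρ, hρ, r1, r2, -, r4, j', hj', r5⟩ := step_round hp (by omega) hΛ hα h0 I hμ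
        ⟨j, hjI, rfl⟩ hμ2 h3
      -- the sum of `ρ` is zero
      have hsρ : ∑ i, ρ i = 0 := by
        apply Int.eq_zero_of_abs_lt_dvd (hdiv ρ hρ)
        have h4 : (E : ℤ) * |∑ i, ρ i| ≤ K * p := by
          calc (E : ℤ) * |∑ i, ρ i| ≤ E * ∑ i, |ρ i| :=
                mul_le_mul_of_nonneg_left (abs_sum_le_sum_abs _ _) (by positivity)
            _ = ∑ i, (E : ℤ) * |ρ i| := by rw [mul_sum]
            _ ≤ ∑ _i : ι, (p : ℤ) := sum_le_sum fun i _ => r1 i
            _ = Fintype.card ι * p := by rw [sum_const, card_univ, nsmul_eq_mul]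
            _ ≤ K * p := mul_le_mul_of_nonneg_right (by exact_mod_cast hK) (by positivity)
        have h5 : (K : ℤ) * p < E * p := by
          refine mul_lt_mul_of_pos_right ?_ (by exact_mod_cast hp)
          rw [hEdef]
          push_cast
          have : (1 : ℤ) ≤ D := by exact_mod_cast hD
          omega
        by_contra h6
        push Not at h6
        have h7 : (E : ℤ) * p ≤ E * |∑ i, ρ i| := mul_le_mul_of_nonneg_left h6 (by positivity)
        linarith
      have hlarge : ∀ i ∈ I, (p : ℤ) ≤ 2 * D * (α i + ρ i) := by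
        intro i hi
        have h4 := hI i hi
        have h5 := r1 i
        have h6 : (2 * D : ℤ) * |ρ i| ≤ E * |ρ i| := by
          refine mul_le_mul_of_nonneg_right ?_ (abs_nonneg _)
          rw [hEdef]
          push_cast
          omega
        have h7 : -(2 * D * |ρ i|) ≤ 2 * D * ρ i := by
          have := neg_abs_le (ρ i)
          have h8 : (0 : ℤ) ≤ 2 * D := by positivity
          have h9 := mul_le_mul_of_nonneg_left this h8
          linarith
        linarith
      have hpos : ∀ i, 0 ≤ α i + ρ i := by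
        intro i
        by_cases hi : i ∈ I
        · have h4 := hlarge i hi
          by_contra h5
          push Not at h5
          have h6 : 2 * (D : ℤ) * (α i + ρ i) ≤ 0 :=
            mul_nonpos_of_nonneg_of_nonpos (by positivity) h5.le
          have h7 : (1 : ℤ) ≤ p := by exact_mod_cast hp
          linarith
        · have := h0 i
          have := r4 i hi
          omega
      refine hmono (fun i => α i + ρ i) (fun i hi => ?_) (fun i => ?_) hpos (Λ.add_mem hα hρ) ?_
        (insert j' I) (fun i hi => ?_) ?_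
      · show α i + ρ i = 0
        rw [hi, r2 i hi, add_zero]
      · show ((2 * e : ℕ) : ℤ) * |α i + ρ i - α i| ≤ p
        rw [add_sub_cancel_left]
        refine le_trans (mul_le_mul_of_nonneg_right ?_ (abs_nonneg _)) (r1 i)
        rw [hEdef]
        push_cast
        omega
      · rw [sum_add_distrib, hsum, hsρ, add_zero]
      · show (p : ℤ) ≤ D' * (α i + ρ i)
        rcases mem_insert.1 hi with rfl | hi
        · have h4 := h0 i
          have h5 := r4 i hj'
          calc (p : ℤ) ≤ 2 * (E : ℤ) ^ (#I + 1) * ρ i := r5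
            _ ≤ 2 * (E : ℤ) ^ (K + 1) * ρ i :=
                mul_le_mul_of_nonneg_right (by linarith) h5
            _ ≤ 2 * (E : ℤ) ^ (K + 1) * (α i + ρ i) :=
                mul_le_mul_of_nonneg_left (by omega) (by positivity)
            _ ≤ D' * (α i + ρ i) := by
                refine mul_le_mul_of_nonneg_right ?_ (by omega)
                rw [hD']
                push_cast
                have : (0 : ℤ) ≤ D := by positivity
                linarith
        · calc (p : ℤ) ≤ 2 * D * (α i + ρ i) := hlarge i hi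
            _ ≤ D' * (α i + ρ i) := by
                refine mul_le_mul_of_nonneg_right ?_ (hpos i)
                rw [hD']
                push_cast
                have : (0 : ℤ) ≤ (E : ℤ) ^ (K + 1) := by positivity
                linarith
      · rw [card_insert_of_notMem hj']
        omega
    · refine hmono α (fun i hi => hi) (fun i => ?_) h0 hα hsum (insert j I) (fun i hi => ?_) ?_
      · rw [sub_self, abs_zero, mul_zero]
        positivity
      · rcases mem_insert.1 hi with rfl | hi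
        · calc (p : ℤ) ≤ (E : ℤ) ^ (#I + 1) * α i := h3.le
            _ ≤ (E : ℤ) ^ (K + 1) * α i := mul_le_mul_of_nonneg_right hpow (h0 i)
            _ ≤ D' * α i := by
                refine mul_le_mul_of_nonneg_right ?_ (h0 i)
                rw [hD']
                push_cast
                have h4 : (0 : ℤ) ≤ (E : ℤ) ^ (K + 1) := by positivity
                have : (0 : ℤ) ≤ D := by positivity
                linarith
        · calc (p : ℤ) ≤ D * α i := hI i hi
            _ ≤ D' * α i := by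
                refine mul_le_mul_of_nonneg_right ?_ (h0 i)
                rw [hD']
                push_cast
                have : (0 : ℤ) ≤ (E : ℤ) ^ (K + 1) := by positivity
                have : (0 : ℤ) ≤ D := by positivity
                linarith
      · rw [card_insert_of_notMem hjI]
        omega

/-- rounding: a lattice vector near `α` whose coordinates are zero or large -/
theorem rounding (K e : ℕ) (he : 1 ≤ e) : ∃ c : ℕ, 1 ≤ c ∧ ∀ (p : ℕ), 1 ≤ p → ∀ (ι : Type) [Fintype ι]
    [DecidableEq ι], Fintype.card ι ≤ K → ∀ (Λ : AddSubgroup (ι → ℤ)),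
      (∀ i, Pi.single i (p : ℤ) ∈ Λ) → (∀ l ∈ Λ, (p : ℤ) ∣ ∑ i, l i) → ∀ α ∈ Λ, (∀ i, 0 ≤ α i) →
      ∑ i, α i = p →
      ∃ β ∈ Λ, (∀ i, 0 ≤ β i) ∧ ∑ i, β i = p ∧ (∀ i, α i = 0 → β i = 0) ∧
        (∀ i, β i = 0 ∨ (p : ℤ) ≤ c * β i) ∧ ∀ i, (e : ℤ) * |β i - α i| ≤ p := by
  obtain ⟨c, hc, h⟩ := rounding_aux K K 1 e le_rfl he
  refine ⟨c, hc, fun p hp ι _ _ hK Λ hΛ hdiv α hα h0 hsum => ?_⟩
  exact h p hp ι hK Λ hΛ hdiv α hα h0 hsum ∅ (fun i hi => absurd hi (notMem_empty i))
    (by rw [card_empty]; omega)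

end Pool.Agent.Lib.MPa7239a.AR
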