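import Pool.Agent.Lib.MP_a7239a_co.AR.FILL

/-!
# AR, module TRANSFER: the filling lemma for a subspace
-/

set_option autoImplicit false

open Finset
open scoped Pointwise

namespace Pool.Agent.Lib.MPa7239a.AR

open Pool.Agent.Lib.MPa7239a.GC
open Pool.Agent.Lib.MPa7239a.R3

namespace TRANSFERM

/-- the statement of `fill_top` for rank `h` with constants `W`, `p₁` -/
def TopFill (h e W p₁ : ℕ) : Prop :=
  ∀ (p : ℕ) [Fact p.Prime], p₁ ≤ p → ∀ (G : Type) [AddCommGroup G] [Module (ZMod p) G]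
      [Fintype G] [DecidableEq G], Module.finrank (ZMod p) G = h → ∀ (B : Finset G) (b m : ℕ),
      Spread (⊤ : Submodule (ZMod p) G) B b → 16 * W * b < #B → 8 * m ≤ #B → p ≤ e * m →
      Full (⊤ : Submodule (ZMod p) G) B m

theorem transfer {p : ℕ} [Fact p.Prime] {G : Type} [AddCommGroup G] [Module (ZMod p) G]
    [Fintype G] [DecidableEq G] {e W p₁ : ℕ} (H : Submodule (ZMod p) G)
    (htop : TopFill (Module.finrank (ZMod p) H) e W p₁) (hp : p₁ ≤ p) (B : Finset G) (b m : ℕ)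
    (hB : ∀ x ∈ B, ∀ y ∈ B, x - y ∈ H) (hS : Spread H B b) (hb : 16 * W * b < #B)
    (hm : 8 * m ≤ #B) (hpm : p ≤ e * m) : Full H B m := by
  classical
  have : Fintype H := Fintype.ofFinite _
  obtain ⟨y, hy⟩ : B.Nonempty := card_pos.mp (by omega)
  let φ : H ↪ G := ⟨fun v => (v : G) + y, fun v w hvw => Subtype.ext (add_right_cancel hvw)⟩
  have hφ : ∀ v : H, φ v = (v : G) + y := fun _ => rfl
  let B' : Finset H := Finset.univ.filter fun v : H => φ v ∈ B
  have hB' : ∀ v : H, v ∈ B' ↔ φ v ∈ B := fun v => by simp [B']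
  have hmap : B'.map φ = B := by
    ext x
    rw [Finset.mem_map]
    constructor
    · rintro ⟨v, hv, rfl⟩
      exact (hB' v).mp hv
    · intro hx
      refine ⟨⟨x - y, hB x hx y hy⟩, (hB' _).mpr ?_, ?_⟩
      · rw [hφ]; simpa using hx
      · rw [hφ]; simp
  have hcard : #B' = #B := by rw [← hmap, card_map]
  have hsub : ∀ C' : Finset H, C' ⊆ B' → C'.map φ ⊆ B := fun C' hC' => by
    rw [← hmap]; exact Finset.map_subset_map.mpr hC'
  have hS' : Spread (⊤ : Submodule (ZMod p) H) B' b := by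
    intro M' hM' z' C' hC' hz'
    have hlt : M'.map H.subtype < H := by
      refine lt_of_le_of_ne (Submodule.map_subtype_le H M') fun heq => hM'.ne ?_
      have : M'.map H.subtype = (⊤ : Submodule (ZMod p) H).map H.subtype := by
        rw [heq, Submodule.map_subtype_top]
      exact Submodule.map_injective_of_injective H.injective_subtype this
    have := hS _ hlt ((z' : G) + y) (C'.map φ) (hsub C' hC') ?_
    · rwa [card_map] at this
    · intro a ha
      obtain ⟨v, hv, rfl⟩ := Finset.mem_map.mp ha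
      have e : φ v - ((z' : G) + y) = H.subtype (v - z') := by
        rw [hφ, Submodule.subtype_apply, Submodule.coe_sub]
        abel
      rw [e]
      exact Submodule.mem_map_of_mem (hz' v hv)
  have hfull := htop p hp H rfl B' b m hS' (by rw [hcard]; exact hb) (by rw [hcard]; exact hm) hpm
  intro k hk hk' g hg
  obtain ⟨T', hT', hTc, hTs⟩ := hfull k hk (by rw [hcard]; exact hk') ⟨g - k • y, hg y hy⟩
    (fun _ _ => Submodule.mem_top)
  refine ⟨T'.map φ, hsub T' hT', by rw [card_map, hTc], ?_⟩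
  rw [Finset.sum_map]
  simp only [hφ]
  rw [Finset.sum_add_distrib, Finset.sum_const, hTc]
  have h1 : ∑ v ∈ T', (v : G) = ((∑ v ∈ T', v : H) : G) := by
    rw [← Submodule.subtype_apply, map_sum]
    rfl
  rw [h1, hTs]
  simp

theorem fill_of (r e : ℕ) (htop : ∀ h : ℕ, 1 ≤ h → ∃ W p₁ : ℕ, 1 ≤ W ∧ TopFill h e W p₁) :
    ∃ W p₁ : ℕ, 1 ≤ W ∧
    ∀ (p : ℕ) [Fact p.Prime], p₁ ≤ p → ∀ (G : Type) [AddCommGroup G] [Module (ZMod p) G]
      [Fintype G] [DecidableEq G], Module.finrank (ZMod p) G ≤ r →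
      ∀ (H : Submodule (ZMod p) G), H ≠ ⊥ → ∀ (B : Finset G) (b m : ℕ),
      (∀ x ∈ B, ∀ y ∈ B, x - y ∈ H) →
      Spread H B b → 16 * W * b < #B → 8 * m ≤ #B → p ≤ e * m → Full H B m := by
  have h1 : ∀ h : ℕ, ∃ W p₁ : ℕ, 1 ≤ h → (1 ≤ W ∧ TopFill h e W p₁) := by
    intro h
    by_cases h0 : 1 ≤ h
    · obtain ⟨W, p₁, h2⟩ := htop h h0
      exact ⟨W, p₁, fun _ => h2⟩
    · exact ⟨0, 0, fun h2 => absurd h2 h0⟩
  choose W p₁ h2 using h1
  refine ⟨1 + ∑ h ∈ range (r + 1), W h, ∑ h ∈ range (r + 1), p₁ h, by omega, ?_⟩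
  intro p _ hp G _ _ _ _ hG H hH B b m hB hS hb hm hpm
  have hr : Module.finrank (ZMod p) H ∈ range (r + 1) :=
    mem_range.mpr (Nat.lt_succ_of_le ((Submodule.finrank_le H).trans hG))
  have h3 : 1 ≤ Module.finrank (ZMod p) H := Submodule.one_le_finrank_iff.mpr hH
  obtain ⟨-, h4⟩ := h2 _ h3
  have hW : W (Module.finrank (ZMod p) H) ≤ ∑ h ∈ range (r + 1), W h :=
    single_le_sum (f := W) (fun _ _ => Nat.zero_le _) hr
  have hp1 : p₁ (Module.finrank (ZMod p) H) ≤ ∑ h ∈ range (r + 1), p₁ h :=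
    single_le_sum (f := p₁) (fun _ _ => Nat.zero_le _) hr
  refine transfer H h4 (hp1.trans hp) B b m hB hS (lt_of_le_of_lt ?_ hb) hm hpm
  gcongr
  omega

end TRANSFERM

theorem fill (r e : ℕ) (he : 1 ≤ e) : ∃ W p₁ : ℕ, 1 ≤ W ∧
    ∀ (p : ℕ) [Fact p.Prime], p₁ ≤ p → ∀ (G : Type) [AddCommGroup G] [Module (ZMod p) G]
      [Fintype G] [DecidableEq G], Module.finrank (ZMod p) G ≤ r →
      ∀ (H : Submodule (ZMod p) G), H ≠ ⊥ → ∀ (B : Finset G) (b m : ℕ),
      (∀ x ∈ B, ∀ y ∈ B, x - y ∈ H) →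
      Spread H B b → 16 * W * b < #B → 8 * m ≤ #B → p ≤ e * m → Full H B m :=
  TRANSFERM.fill_of r e fun h hh => fill_top h e hh he

end Pool.Agent.Lib.MPa7239a.AR
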