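import Pool.Agent.Lib.MP_a7239a_co.AR.DECO
import Pool.Agent.Lib.MP_a7239a_co.AR.EGZ
import Pool.Agent.Lib.MP_a7239a_co.AR.HYP
import Pool.Agent.Lib.MP_a7239a_co.AR.ROUNDING
import Pool.Agent.Lib.MP_a7239a_co.AR.TRANSFER

/-!
# AR, module MAIN: the composition
-/

set_option autoImplicit false
set_option linter.unusedSectionVars false

open Finset
open scoped Pointwise

namespace Pool.Agent.Lib.MPa7239a.AR

open Pool.Agent.Lib.MPa7239a.GC
open Pool.Agent.Lib.MPa7239a.R3

namespace MAINM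

section
variable {p : ℕ} [Fact p.Prime] {G : Type} [AddCommGroup G] [Module (ZMod p) G] [Fintype G]
  [DecidableEq G]

theorem hit_union {ι : Type} [Fintype ι] [DecidableEq ι] {A : Finset G} {B : ι → Finset G}
    {L : ι → Submodule (ZMod p) G} (hD : Dec A B L) {n : ι → ℕ} {g : ι → G}
    (h : ∀ i, Hit (B i) (n i) (g i)) : Hit A (∑ i, n i) (∑ i, g i) := by
  choose T hT hc hs using h
  have hdis : ∀ i ∈ (univ : Finset ι), ∀ j ∈ (univ : Finset ι), i ≠ j →
      Disjoint (T i) (T j) := fun i _ j _ hij =>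
    Disjoint.mono (hT i) (hT j) (hD.disj i j hij)
  refine ⟨univ.biUnion T, ?_, ?_, ?_⟩
  · intro x hx
    rw [mem_biUnion] at hx
    obtain ⟨i, _, hi⟩ := hx
    exact hD.sub i (hT i hi)
  · rw [card_biUnion hdis]
    exact sum_congr rfl fun i _ => hc i
  · rw [sum_biUnion (by
      intro i hi j hj hij
      exact hdis i (mem_univ i) j (mem_univ j) hij)]
    exact sum_congr rfl fun i _ => hs i

theorem virt {φ : G →ₗ[ZMod p] ZMod p} {L : Submodule (ZMod p) G} {x : G} (hx : x ∈ L)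
    (hφ : φ x ≠ 0) (a : G) : ∃ u, φ u = 0 ∧ a - u ∈ L := by
  refine ⟨a - (φ a * (φ x)⁻¹) • x, ?_, ?_⟩
  · rw [map_sub, map_smul, smul_eq_mul, mul_assoc, inv_mul_cancel₀ hφ, mul_one, sub_self]
  · rw [sub_sub_cancel]
    exact L.smul_mem _ hx

theorem finrank_ker {φ : G →ₗ[ZMod p] ZMod p} (hφ : φ ≠ 0) {d : ℕ}
    (hd : Module.finrank (ZMod p) G = d + 1) :
    Module.finrank (ZMod p) (LinearMap.ker φ) = d := by
  have h1 := LinearMap.finrank_range_add_finrank_ker φ
  have h2 : LinearMap.range φ = ⊤ := by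
    rw [LinearMap.range_eq_top]
    exact LinearMap.surjective hφ
  rw [h2, finrank_top, Module.finrank_self, hd] at h1
  omega

/-- the multiplicities of a sub-multiset of `u i`, `n i` times -/
theorem mult {ι : Type} [Fintype ι] [DecidableEq ι] (u : ι → G) (n : ι → ℕ)
    {T : Finset (Σ _ : ι, ℕ)} (hT : T ⊆ (univ : Finset ι).sigma fun i => range (n i)) :
    ∃ a : ι → ℕ, (∀ i, a i ≤ n i) ∧ ∑ i, a i = #T ∧ ∑ i, a i • u i = ∑ t ∈ T, u t.1 := by
  refine ⟨fun i => #{t ∈ T | t.1 = i}, fun i => ?_, ?_, ?_⟩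
  · have h1 : #{t ∈ T | t.1 = i} ≤ #(range (n i)) := by
      refine card_le_card_of_injOn (fun t => t.2) ?_ ?_
      · intro t ht
        rw [mem_coe, mem_filter] at ht
        have h2 := hT ht.1
        rw [mem_sigma] at h2
        rw [← ht.2]
        exact h2.2
      · rintro ⟨s1, s2⟩ hs ⟨t1, t2⟩ ht hst
        rw [mem_coe, mem_filter] at hs ht
        simp only at hst hs ht
        obtain ⟨_, rfl⟩ := hs
        obtain ⟨_, rfl⟩ := ht
        rw [hst]
    rwa [card_range] at h1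
  · exact (card_eq_sum_card_fiberwise fun t _ => mem_univ t.1).symm
  · rw [← sum_fiberwise T (fun t => t.1) fun t => u t.1]
    refine sum_congr rfl fun i _ => ?_
    rw [sum_congr rfl (g := fun _ => u i) fun t ht => by rw [(mem_filter.1 ht).2], sum_const]

/-- the lattice -/
def lat {ι : Type} [Fintype ι] (u : ι → G) (p : ℕ) : AddSubgroup (ι → ℤ) where
  carrier := {l | (p : ℤ) ∣ ∑ i, l i ∧ ∑ i, l i • u i = 0}
  zero_mem' := by
    refine ⟨?_, ?_⟩ <;> simp
  add_mem' := by
    rintro a b ⟨ha, ha'⟩ ⟨hb, hb'⟩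
    refine ⟨?_, ?_⟩
    · simp only [Pi.add_apply, sum_add_distrib]
      exact dvd_add ha hb
    · simp only [Pi.add_apply, add_smul, sum_add_distrib]
      rw [ha', hb', add_zero]
  neg_mem' := by
    rintro a ⟨ha, ha'⟩
    refine ⟨?_, ?_⟩
    · simp only [Pi.neg_apply, sum_neg_distrib]
      exact (dvd_neg).2 ha
    · simp only [Pi.neg_apply, neg_smul, sum_neg_distrib]
      rw [ha', neg_zero]

theorem mem_lat {ι : Type} [Fintype ι] {u : ι → G} {p : ℕ} {l : ι → ℤ} :
    l ∈ lat u p ↔ (p : ℤ) ∣ ∑ i, l i ∧ ∑ i, l i • u i = 0 := Iff.rfl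

theorem single_mem {ι : Type} [Fintype ι] [DecidableEq ι] (u : ι → G) (i : ι) :
    (Pi.single i (p : ℤ) : ι → ℤ) ∈ lat u p := by
  rw [mem_lat]
  refine ⟨?_, ?_⟩
  · rw [sum_pi_single']
    simp
  · rw [sum_eq_single i]
    · rw [Pi.single_eq_same, ← Int.cast_smul_eq_zsmul (ZMod p)]
      simp
    · intro j _ hj
      rw [Pi.single_eq_of_ne hj, zero_smul]
    · intro h
      exact absurd (mem_univ i) h

theorem card_le_one {B : Finset G} (h : ∀ x ∈ B, ∀ y ∈ B, x - y ∈ (⊥ : Submodule (ZMod p) G)) :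
    #B ≤ 1 := by
  rw [Finset.card_le_one]
  intro x hx y hy
  have := h x hx y hy
  rw [Submodule.mem_bot] at this
  exact sub_eq_zero.1 this

end

theorem num1 {p c E q b : ℕ} (hp : 1 ≤ p) (hq : (2 * c + 128 * E) * q ≤ p)
    (hb : p ≤ c * b) : q + 1 ≤ b := by
  by_contra hh
  have h1 : c * b ≤ c * q := Nat.mul_le_mul_left _ (by omega)
  have h2 : (2 * c + 128 * E) * q = c * q + c * q + 128 * E * q := by ring
  have h3 : c * q = 0 ∨ 1 ≤ c * q := by omega
  omega

theorem num2 {p c e K q B : ℕ} (hp : 1024 * (e * (K + 1)) ≤ p) (he : 1 ≤ e)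
    (hq : (2 * c + 128 * (e * (K + 1))) * q ≤ p) (hB : p ≤ 2 * (4 * e) * K * B) :
    8 * (q + 1) ≤ B := by
  have hE : 1 ≤ e * (K + 1) := Nat.mul_pos he (by omega)
  have h1 : 2 * (4 * e) * K * B ≤ 8 * (e * (K + 1)) * B := by
    refine Nat.mul_le_mul_right _ ?_
    have : e * (K + 1) = e * K + e := by ring
    have h2 : 2 * (4 * e) * K = 8 * (e * K) := by ring
    omega
  generalize e * (K + 1) = E at *
  have h2 : (2 * c + 128 * E) * q = 2 * (c * q) + 128 * (E * q) := by ring
  have h3 : 64 * (E * q) + 512 * E ≤ 8 * E * B := by omega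
  have h4 : E * (8 * q + 64) ≤ E * B := by
    have h5 : 8 * (E * (8 * q + 64)) = 64 * (E * q) + 512 * E := by ring
    have h6 : 8 * E * B = 8 * (E * B) := by ring
    omega
  have := Nat.le_of_mul_le_mul_left h4 hE
  omega

theorem num3 {p c E q a s B : ℕ} (hE : 1 ≤ E)
    (hq : (2 * c + 128 * E) * q ≤ p) (hs : 64 * E * s ≤ p) (ha : a + (p / (16 * E) + 1) ≤ B) :
    a + s + (q + 1) ≤ B := by
  have h1 : s + q ≤ p / (16 * E) := by
    rw [Nat.le_div_iff_mul_le (by omega)]
    have h2 : (2 * c + 128 * E) * q = 2 * (c * q) + 128 * (E * q) := by ring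
    have h3 : 64 * E * s = 64 * (E * s) := by ring
    have h4 : (s + q) * (16 * E) = 16 * (E * s) + 16 * (E * q) := by ring
    omega
  omega

theorem num4 {p e K W b B : ℕ} (hp : 1 ≤ p) (hB : p ≤ 2 * (4 * e) * K * B)
    (hb : (128 * (e * (K + 1)) * W + 1) * b ≤ p) : 16 * W * b < B := by
  by_contra hh
  have h1 : 2 * (4 * e) * K * B ≤ 2 * (4 * e) * K * (16 * W * b) :=
    Nat.mul_le_mul_left _ (by omega)
  have h2 : 2 * (4 * e) * K * (16 * W * b) = 128 * (e * K * W * b) := by ring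
  have h3 : (128 * (e * (K + 1)) * W + 1) * b = 128 * (e * K * W * b) + 128 * (e * W * b) + b := by
    ring
  have h4 : b = 0 := by omega
  subst h4
  omega

theorem num5 {ι : Type} [Fintype ι] {p e z A : ℕ} {B N : ι → ℕ} {K : ℕ}
    (hK : Fintype.card ι = K) (he : 1 ≤ e) (hp : 1024 * (e * (K + 1)) ≤ p)
    (hN : ∀ i, B i ≤ N i + (p / (16 * (e * (K + 1))) + 1))
    (hA : e * z + p ≤ e * A) (hB : 4 * e * A ≤ 4 * e * ∑ i, B i + p) : z ≤ ∑ i, N i := by
  have hE : 1 ≤ e * (K + 1) := Nat.mul_pos he (by omega)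
  have h1 : ∑ i, B i ≤ ∑ i, N i + K * (p / (16 * (e * (K + 1))) + 1) := by
    calc ∑ i, B i ≤ ∑ i, (N i + (p / (16 * (e * (K + 1))) + 1)) := sum_le_sum fun i _ => hN i
      _ = _ := by rw [sum_add_distrib, sum_const, card_univ, hK, smul_eq_mul]
  generalize ∑ i, B i = SB at *
  generalize ∑ i, N i = SN at *
  set t := p / (16 * (e * (K + 1))) with ht
  have h2 : 16 * (e * (K + 1)) * t ≤ p := Nat.mul_div_le _ _
  have h3 : 4 * e * z + 3 * p ≤ 4 * e * SB := by
    have h4 : 4 * e * A = 4 * (e * A) := by ring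
    have h5 : 4 * e * z = 4 * (e * z) := by ring
    omega
  have h6 : 4 * (K + 1) * (4 * e * z + 3 * p) ≤ 4 * (K + 1) * (4 * e * SB) :=
    Nat.mul_le_mul_left _ h3
  have h7 : 16 * (e * (K + 1)) * SB ≤ 16 * (e * (K + 1)) * (SN + K * (t + 1)) :=
    Nat.mul_le_mul_left _ h1
  have h8 : K * (16 * (e * (K + 1)) * t) ≤ K * p := Nat.mul_le_mul_left _ h2
  have h9 : (K + 1) * (1024 * (e * (K + 1))) ≤ (K + 1) * p := Nat.mul_le_mul_left _ hp
  have h10 : 16 * (e * (K + 1)) * z ≤ 16 * (e * (K + 1)) * SN := by nlinarith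
  exact Nat.le_of_mul_le_mul_left h10 (by omega)

end MAINM

theorem main_upper (d e : ℕ) (he : 1 ≤ e) : ∃ p₀ : ℕ, ∀ (p : ℕ) [Fact p.Prime], p₀ ≤ p →
    ∀ A : Finset (Fin (d + 1) → ZMod p), e * egz p d + p ≤ e * #A → Hit A p 0 := by
  classical
  obtain ⟨C₀, p₁, hegz⟩ := egz_bound d
  have hE1 : ∀ K : ℕ, 1 ≤ 64 * (e * (K + 1)) := fun K => by
    have : 1 ≤ e * (K + 1) := Nat.mul_pos he (by omega)
    omega
  choose c hc1 hc using fun K : ℕ => rounding K (64 * (e * (K + 1))) (hE1 K)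
  choose W p₂ hW1 hfill using fun K : ℕ =>
    fill (d + 1) (2 * c K + 128 * (e * (K + 1))) (by have := hE1 K; omega)
  obtain ⟨N, hdec⟩ := decomposition (d + 1) (C₀ + 1) (4 * e) (by omega)
    (fun K => 128 * (e * (K + 1)) * W K + 1) (fun K => by omega)
  refine ⟨p₁ + ∑ K ∈ range (N + 1), (p₂ K + 1024 * (e * (K + 1))), ?_⟩
  intro p hpr hp₀ A hA
  have hp1 : 1 ≤ p := hpr.out.one_lt.le
  obtain ⟨hz, hseq⟩ := hegz p (by omega)
  -- truncate
  obtain ⟨A', hA'A, hA', hA'C⟩ : ∃ A' ⊆ A, e * egz p d + p ≤ e * #A' ∧ #A' ≤ (C₀ + 1) * p := by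
    by_cases h : #A ≤ egz p d + p
    · refine ⟨A, Subset.rfl, hA, ?_⟩
      rw [add_mul, one_mul]
      omega
    · obtain ⟨A', h1, h2⟩ := exists_subset_card_eq (s := A) (n := egz p d + p) (by omega)
      refine ⟨A', h1, ?_, ?_⟩
      · rw [h2, mul_add]
        have : p ≤ e * p := Nat.le_mul_of_pos_left _ he
        omega
      · rw [h2, add_mul, one_mul]
        omega
  suffices hh : Hit A' p 0 by
    obtain ⟨S, hS, h1, h2⟩ := hh
    exact ⟨S, hS.trans hA'A, h1, h2⟩
  have hfr : Module.finrank (ZMod p) (Fin (d + 1) → ZMod p) = d + 1 := by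
    simp
  obtain ⟨ι, _, _, B, L, hιN, hD, hmass, hB⟩ := hdec p (Fin (d + 1) → ZMod p) hfr.le A' hA'C
  set K := Fintype.card ι with hK
  have hpK : p₂ K + 1024 * (e * (K + 1)) ≤ p := by
    have h1 : p₂ K + 1024 * (e * (K + 1)) ≤
        ∑ K ∈ range (N + 1), (p₂ K + 1024 * (e * (K + 1))) :=
      single_le_sum (f := fun K => p₂ K + 1024 * (e * (K + 1))) (fun _ _ => Nat.zero_le _)
        (mem_range.2 (by omega))
    omega
  have hEK : 1 ≤ e * (K + 1) := Nat.mul_pos he (by omega)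
  have hKE : K + 1 ≤ e * (K + 1) := Nat.le_mul_of_pos_left _ he
  set E := e * (K + 1) with hE
  -- nonempty cells have positive dimension
  have hL : ∀ i, (B i).Nonempty → L i ≠ ⊥ := by
    intro i hi hLi
    rcases hB i with h | ⟨h, _⟩
    · rw [h] at hi
      exact not_nonempty_empty hi
    · have h1 : #(B i) ≤ 1 := MAINM.card_le_one (p := p) (by
        have := hD.cos i
        rw [hLi] at this
        exact this)
      have h2 : 2 * (4 * e) * K * #(B i) ≤ 2 * (4 * e) * K * 1 := Nat.mul_le_mul_left _ h1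
      have h3 : 2 * (4 * e) * K * 1 + 8 * e = 8 * E := by
        rw [hE]
        ring
      omega
  have hx : ∀ i, ∃ x, x ∈ L i ∧ (L i ≠ ⊥ → x ≠ 0) := by
    intro i
    by_cases h : L i = ⊥
    · exact ⟨0, (L i).zero_mem, fun h' => absurd h h'⟩
    · obtain ⟨x, h1, h2⟩ := Submodule.exists_mem_ne_zero_of_ne_bot h
      exact ⟨x, h1, fun _ => h2⟩
  choose x hxL hx0 using hx
  obtain ⟨φ, hφ⟩ := transversal (p := p) (ι := ι) (by omega) x
  -- virtual representatives
  have hu : ∀ i, ∃ u, φ u = 0 ∧ ∀ a ∈ B i, a - u ∈ L i := by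
    intro i
    rcases (B i).eq_empty_or_nonempty with h | ⟨a₀, ha₀⟩
    · refine ⟨0, map_zero _, fun a ha => ?_⟩
      rw [h] at ha
      exact absurd ha (notMem_empty a)
    · obtain ⟨u, h1, h2⟩ := MAINM.virt (hxL i) (hφ i (hx0 i (hL i ⟨a₀, ha₀⟩))) a₀
      refine ⟨u, h1, fun a ha => ?_⟩
      have h3 := (L i).add_mem (hD.cos i a ha a₀ ha₀) h2
      rwa [sub_add_sub_cancel] at h3
  choose u hφu huL using hu
  -- the multiplicities
  obtain ⟨cut, hcut, hcut1⟩ : ∃ cut : ℕ, cut = p / (16 * E) + 1 ∧ 1 ≤ cut :=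
    ⟨_, rfl, Nat.le_add_left _ _⟩
  set n : ι → ℕ := fun i => #(B i) - cut with hn
  have hzn : egz p d ≤ ∑ i, n i := by
    refine MAINM.num5 (B := fun i => #(B i)) (K := K) (e := e) (p := p) (A := #A') rfl he (by omega) (fun i => ?_) hA'
      hmass
    rw [← hE, ← hcut]
    change #(B i) ≤ #(B i) - cut + cut
    omega
  -- the form is not zero
  have hne : ∃ i, (B i).Nonempty := by
    by_contra hh
    push Not at hh
    have h1 : ∑ i, #(B i) = 0 := by
      refine sum_eq_zero fun i _ => ?_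
      rw [hh i, card_empty]
    rw [h1] at hmass
    have h2 : 4 * e * #A' = 4 * (e * #A') := by ring
    omega
  have hφ0 : φ ≠ 0 := by
    obtain ⟨i, hi⟩ := hne
    intro h
    exact hφ i (hx0 i (hL i hi)) (by rw [h, LinearMap.zero_apply])
  obtain ⟨T, hTX, hTp, hT0⟩ := hseq (LinearMap.ker φ) (MAINM.finrank_ker hφ0 hfr) (Σ _ : ι, ℕ)
    ((univ : Finset ι).sigma fun i => range (n i))
    (fun t => ⟨u t.1, LinearMap.mem_ker.2 (hφu t.1)⟩) (by
      rw [card_sigma]
      simpa using hzn)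
  have hT0' : ∑ t ∈ T, u t.1 = 0 := by
    have := congrArg (fun z : LinearMap.ker φ => (z : Fin (d + 1) → ZMod p)) hT0
    simpa using this
  obtain ⟨a, han, hap, hau⟩ := MAINM.mult u n hTX
  rw [hTp] at hap
  rw [hT0'] at hau
  -- rounding
  obtain ⟨β, hβ, hβ0, hβp, hβz, hβc, hβα⟩ := hc K p hp1 ι hK.ge (MAINM.lat u p)
    (MAINM.single_mem u) (fun l hl => hl.1) (fun i => (a i : ℤ)) (by
      rw [MAINM.mem_lat]
      refine ⟨?_, ?_⟩
      · rw [← Nat.cast_sum, hap]
      · simpa only [natCast_zsmul] using hau)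
    (fun i => by positivity) (by rw [← Nat.cast_sum, hap])
  have hβn : ∀ i, ((β i).toNat : ℤ) = β i := fun i => Int.toNat_of_nonneg (hβ0 i)
  have hcell : ∀ i, Hit (B i) (β i).toNat ((β i).toNat • u i) := by
    intro i
    by_cases hi : β i = 0
    · rw [hi]
      refine ⟨∅, empty_subset _, rfl, ?_⟩
      simp
    · have h1 : a i ≠ 0 := fun h => hi (hβz i (by exact_mod_cast h))
      have h2 := han i
      change a i ≤ #(B i) - cut at h2
      rcases hB i with h3 | ⟨h3, b, hbs, hbF⟩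
      · rw [h3, card_empty] at h2
        omega
      · set q := p / (2 * c K + 128 * E) with hq
        have hq1 : (2 * c K + 128 * E) * q ≤ p := Nat.mul_div_le _ _
        have hq2 : p ≤ (2 * c K + 128 * E) * (q + 1) :=
          (Nat.lt_mul_div_succ p (show 0 < 2 * c K + 128 * E by omega)).le
        have h4 : p ≤ c K * (β i).toNat := by
          rcases hβc i with h | h
          · exact absurd h hi
          · rw [← hβn i] at h
            exact_mod_cast h
        have hBne : (B i).Nonempty := by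
          rw [nonempty_iff_ne_empty]
          intro h
          rw [h, card_empty] at h2
          omega
        have hfull : Full (L i) (B i) (q + 1) :=
          hfill K p (by omega) (Fin (d + 1) → ZMod p) hfr.le (L i) (hL i hBne) (B i) b (q + 1)
            (hD.cos i) hbs (MAINM.num4 hp1 h3 hbF)
            (MAINM.num2 (by omega) he hq1 h3) hq2
        refine hfull _ (MAINM.num1 hp1 hq1 h4) ?_ _ ?_
        · -- upper bound
          have h5 : (64 * E : ℕ) * ((β i).toNat - a i) ≤ p := by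
            have h6 := hβα i
            rw [← hβn i] at h6
            zify
            refine le_trans ?_ h6
            refine mul_le_mul_of_nonneg_left ?_ (by positivity)
            rcases le_total (a i) (β i).toNat with h7 | h7
            · rw [Nat.cast_sub h7]
              exact le_abs_self _
            · rw [Nat.sub_eq_zero_of_le h7]
              simp
          have h6 := MAINM.num3 (a := a i) (B := #(B i)) hEK hq1 h5 (by
            rw [← hcut]
            omega)
          omega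
        · intro y hy
          rw [← smul_sub]
          refine (L i).smul_of_tower_mem _ ?_
          have h7 := (L i).neg_mem (huL i y hy)
          rwa [neg_sub] at h7
  have h8 := MAINM.hit_union hD hcell
  have h9 : ∑ i, (β i).toNat = p := by
    zify
    rw [← hβp]
    exact sum_congr rfl fun i _ => hβn i
  have h10 : ∑ i, (β i).toNat • u i = 0 := by
    have h11 := ((MAINM.mem_lat).1 hβ).2
    rw [← h11]
    refine sum_congr rfl fun i _ => ?_
    rw [← natCast_zsmul, hβn i]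
  rwa [h9, h10] at h8

end Pool.Agent.Lib.MPa7239a.AR
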