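import Pool.Agent.Lib.MP_a7239a_co.AR.Defs
import Pool.Agent.Lib.MP_a7239a_co.R3.PARS

/-!
# AR, module PARSV: Parseval weights
-/

set_option autoImplicit false

open Finset
open scoped Pointwise

namespace Pool.Agent.Lib.MPa7239a.AR

open Pool.Agent.Lib.MPa7239a.GC
open Pool.Agent.Lib.MPa7239a.R3
open Pool.Agent.Lib.MPa7239a.R3.PARS

variable {p : ℕ} [Fact p.Prime] {G : Type} [AddCommGroup G] [Module (ZMod p) G] [Fintype G]
  [DecidableEq G]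

theorem PARSVM.norm_le {Y : Finset G} (ξ : G →ₗ[ZMod p] ZMod p) : ‖F Y ξ‖ ≤ (#Y : ℝ) := by
  unfold F
  refine (norm_sum_le _ _).trans ?_
  rw [Finset.sum_congr rfl fun y _ => e_norm (ξ y)]
  simp

theorem PARSVM.card_dual : Nat.card (G →ₗ[ZMod p] ZMod p) = Nat.card G := by
  haveI : Module.Finite (ZMod p) G := Module.Finite.of_finite
  have h1 := Module.natCard_eq_pow_finrank (K := ZMod p) (V := Module.Dual (ZMod p) G)
  have h2 := Module.natCard_eq_pow_finrank (K := ZMod p) (V := G)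
  rw [Subspace.dual_finrank_eq] at h1
  rw [h2, ← h1]

/-- Parseval weights -/
theorem parsv {Y : Finset G} (hY : Y.Nonempty) :
    ∃ (S : Finset (G →ₗ[ZMod p] ZMod p)) (w : (G →ₗ[ZMod p] ZMod p) → ℝ),
      (∀ ξ : G →ₗ[ZMod p] ZMod p, ξ ∈ S) ∧ (∀ ξ, 0 ≤ w ξ) ∧
      (∀ ξ, w ξ * (Nat.card G : ℝ) ≤ (#Y : ℝ) ^ 2) ∧ ∑ ξ ∈ S, w ξ = (#Y : ℝ) ∧
      ∀ d : G, ∑ ξ ∈ S, w ξ * (1 - Real.cos (2 * Real.pi * ((ξ d).valMinAbs : ℝ) / p)) ≤
        (#((Y + {d}) \ Y) : ℝ) := by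
  classical
  haveI : Finite (G →ₗ[ZMod p] ZMod p) := DFunLike.finite _
  letI : Fintype (G →ₗ[ZMod p] ZMod p) := Fintype.ofFinite _
  set D : ℝ := (Fintype.card (G →ₗ[ZMod p] ZMod p) : ℝ) with hD
  have hD0 : 0 < D := by
    rw [hD]
    exact_mod_cast Fintype.card_pos
  have hDc : (Nat.card G : ℝ) = D := by
    rw [hD, ← Nat.card_eq_fintype_card, PARSVM.card_dual]
  refine ⟨Finset.univ, fun ξ => ‖F Y ξ‖ ^ 2 / D, fun ξ => Finset.mem_univ ξ, fun ξ => by positivity,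
    fun ξ => ?_, ?_, fun d => le_of_eq ?_⟩
  · rw [hDc, div_mul_cancel₀ _ hD0.ne']
    exact pow_le_pow_left₀ (norm_nonneg _) (PARSVM.norm_le ξ) 2
  · have ht := total (p := p) Y
    rw [← hD] at ht
    rw [← Finset.sum_div, ht, mul_comm, mul_div_assoc, div_self hD0.ne', mul_one]
  · rw [diff_card]
    have h4 := total (p := p) Y
    have h5 := corr_re (p := p) Y d
    rw [← hD] at h4 h5
    have h6 : ∑ ξ : G →ₗ[ZMod p] ZMod p, ‖F Y ξ‖ ^ 2 / D *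
        (1 - Real.cos (2 * Real.pi * ((ξ d).valMinAbs : ℝ) / p)) =
        (∑ ξ : G →ₗ[ZMod p] ZMod p, ‖F Y ξ‖ ^ 2 -
          ∑ ξ : G →ₗ[ZMod p] ZMod p, ‖F Y ξ‖ ^ 2 *
            Real.cos (2 * Real.pi * ((ξ d).valMinAbs : ℝ) / p)) / D := by
      rw [← Finset.sum_sub_distrib, Finset.sum_div]
      refine Finset.sum_congr rfl fun ξ _ => ?_
      ring
    rw [h6, h4, h5, ← mul_sub, mul_comm, mul_div_assoc, div_self hD0.ne', mul_one]

end Pool.Agent.Lib.MPa7239a.AR
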