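import Pool.Agent.Lib.MP_a7239a_co.AR.Defs

/-!
# AR, module PEEL (helper1): greedy peeling of a decomposition
-/

set_option autoImplicit false

open Finset
open scoped Pointwise

namespace Pool.Agent.Lib.MPa7239a.AR

theorem peel_finrank_lt {p : ℕ} [Fact p.Prime] {G : Type} [AddCommGroup G] [Module (ZMod p) G]
    [Fintype G] {M L : Submodule (ZMod p) G} (h : M < L) :
    Module.finrank (ZMod p) M + 1 ≤ Module.finrank (ZMod p) L := by
  have : Module.Finite (ZMod p) G := Module.Finite.of_finite
  exact Submodule.finrank_lt_finrank_of_lt h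

theorem peel_sum_update {ι : Type} [Fintype ι] [DecidableEq ι] {G : Type} [DecidableEq G]
    (R : ι → Finset G) (i₀ : ι) (C : Finset G) (hC : C ⊆ R i₀) (c : ι → ℕ) :
    ∑ i, #(Function.update R i₀ (R i₀ \ C) i) * c i + #C * c i₀ = ∑ i, #(R i) * c i := by
  rw [← Finset.add_sum_erase univ _ (mem_univ i₀), ← Finset.add_sum_erase univ (fun i => #(R i) * c i)
    (mem_univ i₀)]
  have h1 : ∑ x ∈ univ.erase i₀, #(Function.update R i₀ (R i₀ \ C) x) * c x =
      ∑ x ∈ univ.erase i₀, #(R x) * c x := by
    refine Finset.sum_congr rfl fun x hx => ?_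
    rw [Function.update_of_ne (Finset.ne_of_mem_erase hx)]
  rw [h1, Function.update_self]
  have h2 : #(R i₀ \ C) + #C = #(R i₀) := Finset.card_sdiff_add_card_eq_card hC
  have h3 : #(R i₀) * c i₀ = #(R i₀ \ C) * c i₀ + #C * c i₀ := by rw [← h2, add_mul]
  omega

theorem peel_dec {p : ℕ} {G : Type} [AddCommGroup G] [Module (ZMod p) G]
    [DecidableEq G] {A : Finset G} {ι : Type} [DecidableEq ι]
    {L : ι → Submodule (ZMod p) G} {s : ℕ} {R : ι → Finset G} {C : Fin s → Finset G}
    {M : Fin s → Submodule (ZMod p) G} (h : Dec A (Sum.elim R C) (Sum.elim L M)) (i₀ : ι)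
    (C' : Finset G) (hC' : C' ⊆ R i₀) (M' : Submodule (ZMod p) G) (z : G)
    (hz : ∀ a ∈ C', a - z ∈ M') :
    Dec A (Sum.elim (Function.update R i₀ (R i₀ \ C')) (Fin.cons C' C : Fin (s + 1) → Finset G))
      (Sum.elim L (Fin.cons M' M : Fin (s + 1) → Submodule (ZMod p) G)) := by
  have hR' : ∀ i, Function.update R i₀ (R i₀ \ C') i ⊆ R i := by
    intro i
    by_cases hi : i = i₀
    · subst hi
      rw [Function.update_self]
      exact Finset.sdiff_subset
    · rw [Function.update_of_ne hi]
  have hRC : ∀ i, Disjoint (Function.update R i₀ (R i₀ \ C') i) C' := by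
    intro i
    by_cases hi : i = i₀
    · subst hi
      rw [Function.update_self]
      exact Finset.sdiff_disjoint
    · rw [Function.update_of_ne hi]
      have := h.disj (Sum.inl i) (Sum.inl i₀) (by simpa using hi)
      exact this.mono_right hC'
  have hCC : ∀ j, Disjoint (C j) C' := by
    intro j
    have := h.disj (Sum.inr j) (Sum.inl i₀) (by simp)
    exact this.mono_right hC'
  refine ⟨?_, ?_, ?_⟩
  · rintro (i | j)
    · exact (hR' i).trans (h.sub (Sum.inl i))
    · refine Fin.cases ?_ (fun j => ?_) j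
      · exact hC'.trans (h.sub (Sum.inl i₀))
      · exact h.sub (Sum.inr j)
  · rintro (i | j) (i' | j') hne
    · have h1 := h.disj (Sum.inl i) (Sum.inl i') (by simpa using hne)
      exact h1.mono (hR' i) (hR' i')
    · revert hne
      refine Fin.cases (fun _ => ?_) (fun j' _ => ?_) j'
      · exact hRC i
      · exact (h.disj (Sum.inl i) (Sum.inr j') (by simp)).mono_left (hR' i)
    · revert hne
      refine Fin.cases (fun _ => ?_) (fun j _ => ?_) j
      · exact (hRC i').symm
      · exact (h.disj (Sum.inr j) (Sum.inl i') (by simp)).mono_right (hR' i')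
    · revert hne
      refine Fin.cases ?_ (fun j => ?_) j
      · refine Fin.cases (fun hne => ?_) (fun j' _ => ?_) j'
        · exact absurd rfl hne
        · exact (hCC j').symm
      · refine Fin.cases (fun _ => ?_) (fun j' hne => ?_) j'
        · exact hCC j
        · exact h.disj (Sum.inr j) (Sum.inr j') (fun he => hne (by
            have : j = j' := Sum.inr_injective he
            rw [this]))
  · rintro (i | j)
    · intro x hx y hy
      exact h.cos (Sum.inl i) x (hR' i hx) y (hR' i hy)
    · refine Fin.cases ?_ (fun j => ?_) j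
      · intro x hx y hy
        have h1 := M'.sub_mem (hz x hx) (hz y hy)
        have h2 : x - z - (y - z) = x - y := by abel
        rw [h2] at h1
        exact h1
      · intro x hx y hy
        exact h.cos (Sum.inr j) x hx y hy

/-- MODULE PEEL -/
theorem peel {p : ℕ} [Fact p.Prime] {G : Type} [AddCommGroup G] [Module (ZMod p) G] [Fintype G]
    [DecidableEq G] {A : Finset G} {ι : Type} [Fintype ι] [DecidableEq ι] {B : ι → Finset G}
    {L : ι → Submodule (ZMod p) G} (hD : Dec A B L) (b : ℕ) :
    ∃ (s : ℕ) (R : ι → Finset G) (C : Fin s → Finset G) (M : Fin s → Submodule (ZMod p) G),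
      Dec A (Sum.elim R C) (Sum.elim L M) ∧ (∀ i, R i ⊆ B i) ∧ (∀ i, Spread (L i) (R i) b) ∧
      s * (b + 1) ≤ #A ∧ ∑ i, #(B i) = ∑ i, #(R i) + ∑ j, #(C j) ∧
      ∑ i, #(R i) * Module.finrank (ZMod p) (L i) + ∑ j, #(C j) * Module.finrank (ZMod p) (M j) +
        ∑ j, #(C j) ≤ ∑ i, #(B i) * Module.finrank (ZMod p) (L i) := by
  have key : ∀ n : ℕ, ∀ (s : ℕ) (R : ι → Finset G) (C : Fin s → Finset G)
      (M : Fin s → Submodule (ZMod p) G), Dec A (Sum.elim R C) (Sum.elim L M) →
      (∀ i, R i ⊆ B i) → (∀ j, b + 1 ≤ #(C j)) → ∑ i, #(B i) = ∑ i, #(R i) + ∑ j, #(C j) →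
      ∑ i, #(R i) * Module.finrank (ZMod p) (L i) + ∑ j, #(C j) * Module.finrank (ZMod p) (M j) +
        ∑ j, #(C j) ≤ ∑ i, #(B i) * Module.finrank (ZMod p) (L i) → ∑ i, #(R i) = n →
      ∃ (s : ℕ) (R : ι → Finset G) (C : Fin s → Finset G) (M : Fin s → Submodule (ZMod p) G),
      Dec A (Sum.elim R C) (Sum.elim L M) ∧ (∀ i, R i ⊆ B i) ∧ (∀ i, Spread (L i) (R i) b) ∧
      (∀ j, b + 1 ≤ #(C j)) ∧ ∑ i, #(B i) = ∑ i, #(R i) + ∑ j, #(C j) ∧
      ∑ i, #(R i) * Module.finrank (ZMod p) (L i) + ∑ j, #(C j) * Module.finrank (ZMod p) (M j) +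
        ∑ j, #(C j) ≤ ∑ i, #(B i) * Module.finrank (ZMod p) (L i) := by
    intro n
    induction n using Nat.strong_induction_on with
    | _ n ih =>
      intro s R C M h1 h2 h3 h4 h5 h6
      by_cases hs : ∀ i, Spread (L i) (R i) b
      · exact ⟨s, R, C, M, h1, h2, hs, h3, h4, h5⟩
      · push Not at hs
        obtain ⟨i₀, hi₀⟩ := hs
        unfold Spread at hi₀
        push Not at hi₀
        obtain ⟨M', hM', z, C', hC', hz, hcard⟩ := hi₀
        have e1 := peel_sum_update R i₀ C' hC' (fun _ => 1)
        have e2 := peel_sum_update R i₀ C' hC' (fun i => Module.finrank (ZMod p) (L i))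
        simp only [mul_one] at e1
        have hf := peel_finrank_lt hM'
        have e3 : #C' * Module.finrank (ZMod p) M' + #C' ≤
            #C' * Module.finrank (ZMod p) (L i₀) := by
          calc #C' * Module.finrank (ZMod p) M' + #C' =
              #C' * (Module.finrank (ZMod p) M' + 1) := by ring
            _ ≤ _ := Nat.mul_le_mul_left _ hf
        refine ih (∑ i, #(Function.update R i₀ (R i₀ \ C') i)) (by omega) (s + 1)
          (Function.update R i₀ (R i₀ \ C')) (Fin.cons C' C) (Fin.cons M' M)
          (peel_dec h1 i₀ C' hC' M' z hz) ?_ ?_ ?_ ?_ rfl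
        · intro i
          by_cases hi : i = i₀
          · subst hi
            rw [Function.update_self]
            exact Finset.sdiff_subset.trans (h2 i)
          · rw [Function.update_of_ne hi]
            exact h2 i
        · refine Fin.cases ?_ (fun j => ?_)
          · rw [Fin.cons_zero]
            omega
          · rw [Fin.cons_succ]
            exact h3 j
        · rw [Fin.sum_univ_succ]
          simp only [Fin.cons_zero, Fin.cons_succ]
          omega
        · rw [Fin.sum_univ_succ, Fin.sum_univ_succ]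
          change _ + (#C' * Module.finrank (ZMod p) M' +
            ∑ j, #(C j) * Module.finrank (ZMod p) (M j)) + (#C' + ∑ j, #(C j)) ≤ _
          omega
  obtain ⟨s, R, C, M, h1, h2, h3, h4, h5, h6⟩ := key _ 0 B (fun j => j.elim0) (fun j => j.elim0)
    ⟨by
        rintro (i | j)
        · exact hD.sub i
        · exact j.elim0, by
        rintro (i | j) (i' | j') hne
        · exact hD.disj i i' (by simpa using hne)
        · exact j'.elim0
        · exact j.elim0
        · exact j.elim0, by
        rintro (i | j)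
        · exact hD.cos i
        · exact j.elim0⟩
    (fun i => Finset.Subset.refl _) (fun j => j.elim0) (by simp) (by simp) rfl
  refine ⟨s, R, C, M, h1, h2, h3, ?_, h5, h6⟩
  calc s * (b + 1) = ∑ _j : Fin s, (b + 1) := by simp
    _ ≤ ∑ j, #(C j) := Finset.sum_le_sum fun j _ => h4 j
    _ = #(univ.biUnion C) := (Finset.card_biUnion fun j _ j' _ hne =>
        h1.disj (Sum.inr j) (Sum.inr j') (by simpa using hne)).symm
    _ ≤ #A := Finset.card_le_card (Finset.biUnion_subset.2 fun j _ => h1.sub (Sum.inr j))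

end Pool.Agent.Lib.MPa7239a.AR
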