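import Pool.Agent.Lib.MP_a7239a_co.AR.GENX

/-!
# ARX, module POSX: the positions of the cells in a generic hyperplane

Text: MP_a7239a_ARX_h59.md, (c)-(f).
-/

set_option autoImplicit false
set_option linter.unusedSectionVars false

open Finset
open scoped Pointwise

namespace Pool.Agent.Lib.MPa7239a.AR

open Pool.Agent.Lib.MPa7239a.GC
open Pool.Agent.Lib.MPa7239a.R3

namespace VIRXM

theorem position {p : ℕ} [Fact p.Prime] {K : Type} [AddCommGroup K] [DecidableEq K] {d : ℕ}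
    {t : K ↪ ZMod p} {A : Finset (K × (Fin (d + 1) → ZMod p))} {ι : Type} [Fintype ι]
    [DecidableEq ι] {D : ι → Finset ((Fin (d + 1) → ZMod p) × ZMod p)}
    {L : ι → Submodule (ZMod p) ((Fin (d + 1) → ZMod p) × ZMod p)}
    (hDA : ∀ k, D k ⊆ A.map (VIRTM.emb t)) (hdis : ∀ i j, i ≠ j → Disjoint (D i) (D j))
    (hne : ∀ k, (D k).Nonempty) (hDp : ∀ k, #(D k) ≤ p)
    (hcos : ∀ k, ∀ x ∈ D k, ∀ y ∈ D k, x - y ∈ L k) (hL : ∀ k, L k ≠ ⊥)
    (hLs : ∀ k, ∀ x ∈ L k, x.2 = 0)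
    (hp : (Fintype.card ι + 2) * (Fintype.card ι + 2) ≤ p) :
    ∃ (P : Submodule (ZMod p) (Fin (d + 1) → ZMod p)) (g : ι → K)
      (u : ι → Fin (d + 1) → ZMod p) (v₀ : Fin (d + 1) → ZMod p),
      Module.finrank (ZMod p) P = d ∧ (∀ k, u k ∈ P) ∧
      (∀ F : Finset ι, (∀ i ∈ F, ∀ j ∈ F, g i = g j ∧ u i = u j) → ∑ i ∈ F, #(D i) ≤ p) ∧
      ∀ k, ∀ a ∈ D k, a.2 = t (g k) ∧ a - (u k + v₀, t (g k)) ∈ L k := by
  classical
  set k := Fintype.card ι with hk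
  have hkp : k + 2 ≤ p := le_trans (Nat.le_mul_of_pos_left _ (by omega)) hp
  have hkk : k * k < p := by
    have : (k + 2) * (k + 2) = k * k + 4 * k + 4 := by ring
    omega
  -- base points
  have hbase : ∀ i, ∃ a ∈ A, VIRTM.emb t a ∈ D i := fun i => by
    obtain ⟨x, hx⟩ := hne i
    obtain ⟨a, ha, rfl⟩ := mem_map.1 (hDA i hx)
    exact ⟨a, ha, hx⟩
  choose a₀ ha₀A ha₀D using hbase
  have hxx : ∀ i j, i ≠ j → VIRTM.emb t (a₀ i) ≠ VIRTM.emb t (a₀ j) := fun i j hij h =>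
    Finset.disjoint_left.1 (hdis i j hij) (ha₀D i) (by rw [h]; exact ha₀D j)
  -- directions
  have hdir : ∀ i, ∃ z ∈ L i, z ≠ 0 ∧ ((∀ v ∈ L i, ∃ s : ZMod p, v = s • z) ∨
      ∀ j, j ≠ i → ∀ s : ZMod p, VIRTM.emb t (a₀ j) - VIRTM.emb t (a₀ i) ≠ s • z) := by
    intro i
    rcases Nat.lt_or_ge (Module.finrank (ZMod p) (L i)) 2 with h2 | h2
    · obtain ⟨z, hz, hz0⟩ := Submodule.exists_mem_ne_zero_of_ne_bot (hL i)
      refine ⟨z, hz, hz0, Or.inl fun v hv => ?_⟩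
      have hz0' : (⟨z, hz⟩ : L i) ≠ 0 := fun h => hz0 (congrArg Subtype.val h)
      have h1 : Module.finrank (ZMod p) (L i) = 1 := by
        have : Nontrivial (L i) := ⟨⟨_, _, hz0'⟩⟩
        have := Module.finrank_pos (R := ZMod p) (M := L i)
        omega
      obtain ⟨s, hs⟩ := (finrank_eq_one_iff_of_nonzero' _ hz0').1 h1 ⟨v, hv⟩
      exact ⟨s, (congrArg Subtype.val hs).symm⟩
    · obtain ⟨z, hz, hz0, hy⟩ := direction (L i) (by omega)
        (fun j : ι => VIRTM.emb t (a₀ j) - VIRTM.emb t (a₀ i)) h2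
      exact ⟨z, hz, hz0, Or.inr fun j hj s => hy j (sub_ne_zero.2 (hxx j i hj)) s⟩
  choose z hzL hz0 hz using hdir
  obtain ⟨φ, hφ⟩ := transversal (p := p) (ι := Option ι) (by
      rw [Fintype.card_option]
      omega) (fun o => o.elim ((Pi.single 0 1 : Fin (d + 1) → ZMod p), (0 : ZMod p)) z)
  have hφ1 : φ (Pi.single 0 1, 0) ≠ 0 := by
    refine hφ none ?_
    intro h
    have h1 := congrFun (congrArg Prod.fst h) 0
    simp at h1
  have hφz : ∀ i, φ (z i) ≠ 0 := fun i => hφ (some i) (hz0 i)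
  have hφ0 : φ ∘ₗ LinearMap.inl (ZMod p) (Fin (d + 1) → ZMod p) (ZMod p) ≠ 0 := by
    intro h
    have h1 := LinearMap.congr_fun h (Pi.single 0 1)
    exact hφ1 h1
  have hfr0 : Module.finrank (ZMod p) (Fin (d + 1) → ZMod p) = d + 1 := by
    simp
  -- normalised directions
  set ψ := φ ∘ₗ LinearMap.inl (ZMod p) (Fin (d + 1) → ZMod p) (ZMod p) with hψ
  have hζ : ∀ i, ∃ ζ : Fin (d + 1) → ZMod p, ψ ζ = 1 ∧ (ζ, (0 : ZMod p)) = (φ (z i))⁻¹ • z i := by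
    intro i
    have h1 : (((φ (z i))⁻¹ • z i).1, (0 : ZMod p)) = (φ (z i))⁻¹ • z i := by
      refine Prod.ext rfl ?_
      exact (hLs i _ ((L i).smul_mem _ (hzL i))).symm
    refine ⟨((φ (z i))⁻¹ • z i).1, ?_, h1⟩
    change φ (((φ (z i))⁻¹ • z i).1, (0 : ZMod p)) = 1
    rw [h1, map_smul, smul_eq_mul, inv_mul_cancel₀ (hφz i)]
  choose ζ hψζ hζz using hζ
  have hζL : ∀ i, ∀ s : ZMod p, (s • ζ i, (0 : ZMod p)) ∈ L i := fun i s => by
    have h1 : (s • ζ i, (0 : ZMod p)) = s • (ζ i, (0 : ZMod p)) := by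
      rw [Prod.smul_mk, smul_zero]
    rw [h1, hζz]
    exact (L i).smul_mem _ ((L i).smul_mem _ (hzL i))
  obtain ⟨ζ₀, hζ₀⟩ : ∃ ζ₀, ψ ζ₀ = 1 := by
    refine ⟨(φ (Pi.single 0 1, 0))⁻¹ • Pi.single 0 1, ?_⟩
    rw [map_smul, smul_eq_mul]
    exact inv_mul_cancel₀ hφ1
  obtain ⟨y, hy⟩ : ∃ y : ι → Fin (d + 1) → ZMod p, ∀ i, y i = (a₀ i).2 - ψ (a₀ i).2 • ζ i :=
    ⟨_, fun i => rfl⟩
  have hψy : ∀ i, ψ (y i) = 0 := fun i => by
    rw [hy, map_sub, map_smul, hψζ, smul_eq_mul, mul_one, sub_self]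
  have hbasey : ∀ i, VIRTM.emb t (a₀ i) = (y i + ψ (a₀ i).2 • ζ i, t (a₀ i).1) := fun i => by
    rw [hy, sub_add_cancel]
    rfl
  obtain ⟨c, hc⟩ := generic (p := p) hkk y ζ
  -- the lines
  have hline : ∀ i, (∀ a ∈ D i, ∃ s : ZMod p, a = (y i + s • ζ i, t (a₀ i).1)) ∨
      ∀ j, j ≠ i → ∀ s : ZMod p, (y j + ψ (a₀ j).2 • ζ j, t (a₀ j).1) ≠
        (y i + s • ζ i, t (a₀ i).1) := by
    intro i
    have hzi : z i = φ (z i) • (ζ i, (0 : ZMod p)) := by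
      rw [hζz, smul_smul, mul_inv_cancel₀ (hφz i), one_smul]
    rcases hz i with h | h
    · left
      intro a ha
      obtain ⟨s, hs⟩ := h _ (hcos i a ha _ (ha₀D i))
      refine ⟨ψ (a₀ i).2 + s * φ (z i), ?_⟩
      have h1 : a = VIRTM.emb t (a₀ i) + s • z i := by
        rw [← hs]
        abel
      rw [h1, hbasey i]
      conv_lhs => rw [hzi]
      refine Prod.ext ?_ ?_
      · simp only [Prod.fst_add, Prod.smul_fst]
        module
      · simp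
    · right
      intro j hj s hs
      refine h j hj ((s - ψ (a₀ i).2) * (φ (z i))⁻¹) ?_
      rw [mul_smul, ← hζz, hbasey j, hs, hbasey i]
      refine Prod.ext ?_ ?_
      · simp only [Prod.fst_sub, Prod.smul_fst]
        module
      · simp
  refine ⟨LinearMap.ker ψ, fun i => (a₀ i).1, fun i => y i + c • (ζ i - ζ₀), c • ζ₀,
    MAINM.finrank_ker hφ0 hfr0, ?_, ?_, ?_⟩
  · intro i
    rw [LinearMap.mem_ker, map_add, map_smul, map_sub, hψζ, hζ₀, hψy, sub_self, smul_zero,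
      add_zero]
  · intro F hF
    refine fibre hdis hDp (y := y) (ζ := ζ) (τ := fun i => t (a₀ i).1)
      (ξ := fun i => ψ (a₀ i).2) hline F fun i hi j hj => ?_
    obtain ⟨h1, h2⟩ := hF i hi j hj
    have h3 : y i + c • ζ i = y j + c • ζ j := by
      have h4 : ∀ i, y i + c • ζ i = (y i + c • (ζ i - ζ₀)) + c • ζ₀ := fun i => by module
      have h7 : y i + c • (ζ i - ζ₀) = y j + c • (ζ j - ζ₀) := h2
      rw [h4 i, h4 j, h7]
    obtain ⟨h5, h6⟩ := hc i j h3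
    exact ⟨h5, h6, congrArg t h1⟩
  · intro i a ha
    have h1 := hcos i a ha _ (ha₀D i)
    have h2 : a - (y i + c • (ζ i - ζ₀) + c • ζ₀, t (a₀ i).1) ∈ L i := by
      have h3 : a - (y i + c • (ζ i - ζ₀) + c • ζ₀, t (a₀ i).1) =
          (a - VIRTM.emb t (a₀ i)) + ((ψ (a₀ i).2 - c) • ζ i, (0 : ZMod p)) := by
        rw [hbasey i]
        refine Prod.ext ?_ ?_
        · simp only [Prod.fst_sub, Prod.fst_add]
          module
        · simp
      rw [h3]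
      exact (L i).add_mem h1 (hζL i _)
    refine ⟨?_, h2⟩
    have h4 := hLs i _ h1
    rw [Prod.snd_sub] at h4
    exact sub_eq_zero.1 h4

end VIRXM

end Pool.Agent.Lib.MPa7239a.AR
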