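import Pool.Agent.Lib.MP_a7239a_co.AR.SMALL
import Pool.Agent.Lib.MP_a7239a_co.AR.LARGE
import Pool.Agent.Lib.MP_a7239a_co.AR.BASIS
import Pool.Agent.Lib.MP_a7239a_co.AR.DOUBLE

/-! # Module ROUND: one round (more than half of the space) -/

set_option autoImplicit false

open Finset
open scoped Pointwise

namespace Pool.Agent.Lib.MPa7239a.AR

open Pool.Agent.Lib.MPa7239a.GC
open Pool.Agent.Lib.MPa7239a.R3

namespace ROUNDM

section
variable {p : ℕ} [Fact p.Prime] {G : Type} [AddCommGroup G] [Module (ZMod p) G] [Fintype G]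
  [DecidableEq G]

/-- the start -/
lemma start (X : Finset G) : Exch (⊤ : Submodule (ZMod p) G) X X 0 ∅ ∅ 0 {0} := by
  refine ⟨?_, ?_, ?_, ?_, ?_, ?_, ?_, ?_, ?_⟩
  · exact empty_subset _
  · exact empty_subset _
  · exact disjoint_empty_left _
  · exact card_empty
  · exact card_empty
  · exact singleton_nonempty 0
  · intro y _; exact Submodule.mem_top
  · intro y hy
    rw [mem_singleton] at hy
    subst hy
    exact ⟨∅, empty_subset _, card_empty, by simp⟩
  · exact Submodule.mem_top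

/-- the unused elements -/
lemma unused {X : Finset G} {m : ℕ} {P Q : Finset G} {σ : G} {Y : Finset G}
    (h : Exch (⊤ : Submodule (ZMod p) G) X X m P Q σ Y) {M : ℕ} (hm : m < M) (hM : 4 * M ≤ #X) :
    #X ≤ 2 * #(X \ (P ∪ Q)) := by
  have h1 : #X ≤ #(X \ (P ∪ Q)) + #(P ∪ Q) := Finset.card_le_card_sdiff_add_card
  have h2 : #(P ∪ Q) ≤ m + m := by
    refine (card_union_le _ _).trans ?_
    rw [h.cardP, h.cardQ]
  omega

/-- the doublings one after the other -/
lemma chain {X : Finset G} {M : ℕ} (N : ℕ → ℕ) (k : ℕ) (hN : ∀ i < k, 1 ≤ N i)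
    (hstep : ∀ i < k, ∀ (m : ℕ) (P Q : Finset G) (σ : G) (Y : Finset G),
      Exch (⊤ : Submodule (ZMod p) G) X X m P Q σ Y → m < M → 2 ^ i ≤ #Y → #Y < 2 * 2 ^ i →
      2 * #Y ≤ Nat.card G →
      ∃ a ∈ X \ (P ∪ Q), ∃ b ∈ X \ (P ∪ Q), #Y ≤ N i * #((Y + {a - b}) \ Y))
    (hM : ∑ i ∈ range k, N i ≤ M) :
    ∃ (m : ℕ) (P Q : Finset G) (σ : G) (Y : Finset G), m ≤ ∑ i ∈ range k, N i ∧
      Exch (⊤ : Submodule (ZMod p) G) X X m P Q σ Y ∧ (2 ^ k ≤ #Y ∨ Nat.card G < 2 * #Y) := by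
  induction k with
  | zero => exact ⟨0, ∅, ∅, 0, {0}, Nat.zero_le _, start X, Or.inl (by simp)⟩
  | succ k ih =>
    rw [sum_range_succ] at hM ⊢
    obtain ⟨m, P, Q, σ, Y, hm, hE, hY⟩ := ih (fun i hi => hN i (by omega))
      (fun i hi => hstep i (by omega)) (by omega)
    rcases hY with hY | hY
    · obtain ⟨m', P', Q', σ', Y', hm', hE', hY'⟩ := double (hN k (by omega))
        (hstep k (by omega)) hE (by omega) hY
      refine ⟨m', P', Q', σ', Y', by omega, hE', ?_⟩
      rcases hY' with hY' | hY'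
      · left; rw [pow_succ]; omega
      · exact Or.inr hY'
    · exact ⟨m, P, Q, σ, Y, by omega, hE, Or.inr hY⟩

end

/-- the sum of the small steps -/
lemma sumA (h T : ℕ) (hh : 1 ≤ h) :
    ∑ i ∈ range (h * T), 4 * h * 2 ^ (i / h + 4) ≤ 64 * h ^ 2 * 2 ^ T := by
  induction T with
  | zero => simp
  | succ T ih =>
    have e : h * (T + 1) = h * T + h := by ring
    rw [e, sum_range_add]
    have h1 : ∑ x ∈ range h, 4 * h * 2 ^ ((h * T + x) / h + 4) = h * (4 * h * 2 ^ (T + 4)) := by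
      rw [sum_congr rfl (g := fun _ => 4 * h * 2 ^ (T + 4)), sum_const, card_range, smul_eq_mul]
      intro x hx
      rw [mem_range] at hx
      have : (h * T + x) / h = T := by
        rw [Nat.mul_add_div (by omega), Nat.div_eq_of_lt hx, add_zero]
      rw [this]
    rw [h1]
    have e1 : 64 * h ^ 2 * 2 ^ (T + 1) = 64 * h ^ 2 * 2 ^ T + h * (4 * h * 2 ^ (T + 4)) := by ring
    rw [e1]
    omega

end ROUNDM

theorem round (h E : ℕ) (hh : 1 ≤ h) (hE : 1 ≤ E) : ∃ W p₁ : ℕ, 1 ≤ W ∧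
    ∀ (p : ℕ) [Fact p.Prime], p₁ ≤ p → ∀ (G : Type) [AddCommGroup G] [Module (ZMod p) G]
      [Fintype G] [DecidableEq G], Module.finrank (ZMod p) G = h → ∀ (X : Finset G) (b M : ℕ),
      Spread (⊤ : Submodule (ZMod p) G) X b → 8 * W * b < #X → 4 * M ≤ #X → p ≤ E * M →
      ∃ (m : ℕ) (P Q : Finset G) (σ : G) (Y : Finset G), m ≤ M ∧
        Exch (⊤ : Submodule (ZMod p) G) X X m P Q σ Y ∧ Nat.card G < 2 * #Y := by
  obtain ⟨K, hK⟩ : ∃ K, K = 1024 * h ^ 2 * E := ⟨_, rfl⟩
  obtain ⟨W, hW⟩ : ∃ W, W = 128 * h * (K + 1) * E := ⟨_, rfl⟩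
  have hK1 : 1024 ≤ K := by
    rw [hK]
    have : 1 ≤ h ^ 2 * E := Nat.one_le_iff_ne_zero.mpr (by positivity)
    nlinarith
  have hW1 : 1 ≤ W := by
    rw [hW]
    exact Nat.one_le_iff_ne_zero.mpr (by positivity)
  refine ⟨W, 2 ^ K + W, hW1, ?_⟩
  intro p _ hp G _ _ _ _ hfin X b M hs hWb hM hpM
  have hp2 : 2 ≤ p := (Fact.out : p.Prime).two_le
  have hp0 : p ≠ 0 := by omega
  obtain ⟨L, hL⟩ : ∃ L, L = Nat.log 2 p := ⟨_, rfl⟩
  have hL1 : 2 ^ L ≤ p := by rw [hL]; exact Nat.pow_log_le_self 2 hp0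
  have hL2 : p < 2 ^ (L + 1) := by rw [hL]; exact Nat.lt_pow_succ_log_self (by norm_num) p
  have hKL : K ≤ L := by
    rw [hL]
    exact Nat.le_log_of_pow_le (by norm_num) (by omega)
  obtain ⟨T, hT⟩ : ∃ T, T + K = L := ⟨L - K, by omega⟩
  have hcard : Nat.card G = p ^ h := by
    rw [← hfin, Nat.card_eq_fintype_card, Module.card_eq_pow_finrank (K := ZMod p), ZMod.card]
  obtain ⟨J, hJ⟩ : ∃ J, J = p / W + 1 := ⟨_, rfl⟩
  have hJ1 : 1 ≤ J := by rw [hJ]; exact Nat.le_add_left 1 _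
  have hpW : W ≤ p := le_trans (Nat.le_add_left _ _) hp
  obtain ⟨N, hN⟩ : ∃ N : ℕ → ℕ, N = fun i => if i < h * T then 4 * h * 2 ^ (i / h + 4) else 8 * J :=
    ⟨_, rfl⟩
  have hNpos : ∀ i, 1 ≤ N i := by
    intro i
    rw [hN]
    simp only
    split_ifs
    · exact Nat.one_le_iff_ne_zero.mpr (by positivity)
    · exact le_trans hJ1 (Nat.le_mul_of_pos_left J (by norm_num))
  -- the sum
  have hsum : ∑ i ∈ range (h * T + h * (K + 1)), N i ≤ M := by
    rw [sum_range_add]
    have s1 : ∑ i ∈ range (h * T), N i ≤ 64 * h ^ 2 * 2 ^ T := by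
      refine le_trans (le_of_eq ?_) (ROUNDM.sumA h T hh)
      refine sum_congr rfl (fun i hi => ?_)
      rw [mem_range] at hi
      rw [hN]
      simp only
      rw [if_pos hi]
    have s2 : ∑ i ∈ range (h * (K + 1)), N (h * T + i) = h * (K + 1) * (8 * J) := by
      rw [sum_congr rfl (g := fun _ => 8 * J), sum_const, card_range, smul_eq_mul]
      intro i _
      rw [hN]
      simp only
      rw [if_neg (by omega)]
    rw [s2]
    -- first part
    have t1 : 1024 * (64 * h ^ 2 * 2 ^ T) ≤ 64 * M := by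
      have a1 : 2 ^ T * 2 ^ K ≤ p := by rw [← pow_add, hT]; exact hL1
      have a2 : K ≤ 2 ^ K := (Nat.lt_two_pow_self).le
      have a3 : 2 ^ T * K ≤ E * M := (Nat.mul_le_mul_left _ a2).trans (a1.trans hpM)
      rw [hK] at a3
      have a4 : E * (1024 * h ^ 2 * 2 ^ T) ≤ E * M := by
        calc E * (1024 * h ^ 2 * 2 ^ T) = 2 ^ T * (1024 * h ^ 2 * E) := by ring
          _ ≤ E * M := a3
      have a5 := Nat.le_of_mul_le_mul_left a4 (by omega)
      calc 1024 * (64 * h ^ 2 * 2 ^ T) = 64 * (1024 * h ^ 2 * 2 ^ T) := by ring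
        _ ≤ 64 * M := Nat.mul_le_mul_left _ a5
    -- second part
    have t2 : 8 * (h * (K + 1) * (8 * J)) ≤ M := by
      have a1 : W * J ≤ 2 * p := by
        rw [hJ, mul_add, mul_one, two_mul]
        exact Nat.add_le_add (Nat.mul_div_le p W) hpW
      have a2 : h * (K + 1) * 8 * (W * J) ≤ h * (K + 1) * 8 * (2 * (E * M)) :=
        Nat.mul_le_mul_left _ (a1.trans (Nat.mul_le_mul_left _ hpM))
      have a3 : (16 * (h * (K + 1)) * E) * (8 * (h * (K + 1) * (8 * J))) ≤
          (16 * (h * (K + 1)) * E) * M := by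
        calc (16 * (h * (K + 1)) * E) * (8 * (h * (K + 1) * (8 * J)))
            = h * (K + 1) * 8 * ((128 * h * (K + 1) * E) * J) := by ring
          _ = h * (K + 1) * 8 * (W * J) := by rw [hW]
          _ ≤ h * (K + 1) * 8 * (2 * (E * M)) := a2
          _ = (16 * (h * (K + 1)) * E) * M := by ring
      exact Nat.le_of_mul_le_mul_left a3 (by positivity)
    omega
  -- the steps
  obtain ⟨m, P, Q, σ, Y, hm, hEx, hY⟩ := ROUNDM.chain (p := p) (X := X) (M := M) N
    (h * T + h * (K + 1)) (fun i _ => hNpos i) (by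
      intro i hi m P Q σ Y hEx hmM hY1 hY2 hY3
      have hu := ROUNDM.unused (p := p) hEx hmM hM
      have hs' : Spread (⊤ : Submodule (ZMod p) G) (X \ (P ∪ Q)) b := hs.mono sdiff_subset le_rfl
      have hWb' : 4 * W * b < #(X \ (P ∪ Q)) := by
        have e1 : 8 * W * b = 2 * (4 * W * b) := by ring
        omega
      have hbX : b < #(X \ (P ∪ Q)) := by
        have : b ≤ 4 * W * b := Nat.le_mul_of_pos_left b (by omega)
        omega
      by_cases hiT : i < h * T
      · obtain ⟨q, hq, a, d, had⟩ := basis_of_spread hs' hbX hfin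
        obtain ⟨t, ht⟩ : ∃ t, t = i / h := ⟨_, rfl⟩
        have ht1 : t < T := by
          rw [ht]; exact Nat.div_lt_of_lt_mul hiT
        have hi2 : i < h * (t + 1) := by
          rw [ht]; exact Nat.lt_mul_div_succ i (by omega)
        have hJp : 2 ^ (t + 4) ≤ p := by
          refine le_trans (Nat.pow_le_pow_right (by norm_num) ?_) hL1
          omega
        have h8 : 8 ^ h * #Y ≤ (2 ^ (t + 4)) ^ h := by
          have b1 : #Y ≤ 2 ^ (i + 1) := by rw [pow_succ]; omega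
          have b2 : 2 ^ (i + 1) ≤ 2 ^ (h * (t + 1)) := Nat.pow_le_pow_right (by norm_num) hi2
          calc 8 ^ h * #Y ≤ 8 ^ h * 2 ^ (h * (t + 1)) := Nat.mul_le_mul_left _ (b1.trans b2)
            _ = (2 ^ (t + 4)) ^ h := by
                rw [show (8 : ℕ) = 2 ^ 3 by norm_num, ← pow_mul, ← pow_add, ← pow_mul]
                congr 1
                ring
        obtain ⟨j, hj⟩ := small hh d hEx.ne (J := 2 ^ (t + 4)) Nat.one_le_two_pow hJp h8
        refine ⟨a j, (had j).1, q, hq, ?_⟩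
        rw [hN]
        simp only
        rw [if_pos hiT, ← ht, ← (had j).2]
        exact hj
      · obtain ⟨q, hq⟩ : (X \ (P ∪ Q)).Nonempty := by
          rw [← card_pos]; omega
        have hJW : p ≤ J * W := by
          rw [hJ, mul_comm]
          exact (Nat.lt_mul_div_succ p (by omega)).le
        obtain ⟨a, ha, hag⟩ := large hEx.ne hY3 (J := J) (W := W) (b := b) hJ1 hJW hs' hWb' q
        refine ⟨a, ha, q, hq, ?_⟩
        rw [hN]
        simp only
        rw [if_neg hiT]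
        exact hag) hsum
  refine ⟨m, P, Q, σ, Y, hm.trans hsum, hEx, ?_⟩
  rcases hY with hY | hY
  · have e1 : h * T + h * (K + 1) = (L + 1) * h := by rw [← hT]; ring
    have e2 : p ^ h < 2 ^ (h * T + h * (K + 1)) := by
      rw [e1, pow_mul]
      exact Nat.pow_lt_pow_left hL2 (by omega)
    rw [hcard]
    omega
  · exact hY

end Pool.Agent.Lib.MPa7239a.AR
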