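import Pool.Agent.Lib.MP_a7239a_co.AR.DUALX

/-!
# ARX, module SHARPX: sharpness of the bound by the Erdős–Ginzburg–Ziv constant
-/

set_option autoImplicit false
set_option linter.unusedSectionVars false

open Finset

namespace Pool.Agent.Lib.MPa7239a.AR

open Pool.Agent.Lib.MPa7239a.GC
open Pool.Agent.Lib.MPa7239a.R3

namespace SHARPXM

/-- the map of the construction -/
def Φ {p m N d : ℕ} {ι : Type} (j : ι → Fin N) (u : ι → Fin (d + 1) → ZMod p)
    (w : Fin (d + 1) → ZMod p) (q : Σ _ : ι, ZMod m × ℕ) :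
    (Fin (N + 1) → ZMod m) × (Fin (d + 1) → ZMod p) :=
  (Fin.cons q.2.1 (Pi.single (j q.1) 1), u q.1 + q.2.2 • w)

theorem construct {p : ℕ} [Fact p.Prime] {m N d : ℕ} [NeZero m] (hm : 2 ≤ m) (hmp : m < p)
    {ι : Type} [Fintype ι] [DecidableEq ι] (j : ι ↪ Fin N)
    {P : Submodule (ZMod p) (Fin (d + 1) → ZMod p)} {u : ι → Fin (d + 1) → ZMod p}
    (huP : ∀ i, u i ∈ P) {w : Fin (d + 1) → ZMod p} (hw : w ∉ P) {n : ι → ℕ}
    (hn : ∀ a : ι → ℕ, (∀ i, a i ≤ n i) → ∑ i, a i = p → ∑ i, a i • u i = 0 → False) :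
    ∃ X : Finset ((Fin (N + 1) → ZMod m) × (Fin (d + 1) → ZMod p)), #X = m * ∑ i, n i ∧
      ∀ T ⊆ X, #T = m * p → ∑ x ∈ T, x ≠ 0 := by
  classical
  have h1m : Fact (1 < m) := ⟨hm⟩
  have hp0 : ∀ v : Fin (d + 1) → ZMod p, p • v = 0 := fun v => by
    ext i
    simp
  have hnp : ∀ i, n i < p := by
    intro i
    by_contra hh
    push Not at hh
    refine hn (Pi.single i p) ?_ ?_ ?_
    · intro k
      by_cases hk : k = i
      · subst hk
        rw [Pi.single_eq_same]
        exact hh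
      · rw [Pi.single_eq_of_ne hk]
        exact Nat.zero_le _
    · rw [sum_pi_single']
      simp
    · rw [sum_eq_single i]
      · rw [Pi.single_eq_same, hp0]
      · intro k _ hk
        rw [Pi.single_eq_of_ne hk, zero_smul]
      · intro h
        exact absurd (mem_univ i) h
  have hw0 : w ≠ 0 := fun h => hw (by rw [h]; exact P.zero_mem)
  set I : Finset (Σ _ : ι, ZMod m × ℕ) :=
    (univ : Finset ι).sigma fun i => (univ : Finset (ZMod m)) ×ˢ range (n i) with hI
  have hinj : Set.InjOn (Φ (m := m) j u w) I := by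
    rintro ⟨i, s, t⟩ h1 ⟨i', s', t'⟩ h2 h
    rw [mem_coe, hI, mem_sigma, mem_product, mem_range] at h1 h2
    have h1' : t < n i := h1.2.2
    have h2' : t' < n i' := h2.2.2
    unfold Φ at h
    rw [Prod.mk.injEq, Fin.cons_inj] at h
    obtain ⟨⟨h3, h4⟩, h5⟩ := h
    have h3' : s = s' := h3
    have h6 : i = i' := by
      by_contra hne
      have h7 := congrFun h4 (j i)
      have h7' : (Pi.single (j i) 1 : Fin N → ZMod m) (j i) =
        (Pi.single (j i') 1 : Fin N → ZMod m) (j i) := h7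
      rw [Pi.single_eq_same, Pi.single_eq_of_ne (fun h8 => hne (j.injective h8))] at h7'
      exact one_ne_zero h7'
    subst h6
    subst h3'
    have h8 : t • w = t' • w := add_left_cancel h5
    have h9 : ((t : ZMod p) - t') • w = 0 := by
      rw [sub_smul, Nat.cast_smul_eq_nsmul, Nat.cast_smul_eq_nsmul, h8, sub_self]
    have h10 : (t : ZMod p) = t' := by
      rcases smul_eq_zero.1 h9 with h | h
      · exact sub_eq_zero.1 h
      · exact absurd h hw0
    have := LIFTXM.cast_inj (h1'.trans (hnp i)) (h2'.trans (hnp i)) h10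
    rw [this]
  refine ⟨I.image (Φ j u w), ?_, ?_⟩
  · rw [card_image_of_injOn hinj, hI, card_sigma, mul_sum]
    refine sum_congr rfl fun i _ => ?_
    rw [card_product, card_univ, ZMod.card, card_range]
  · intro T hT hTc hT0
    obtain ⟨J, hJ, rfl⟩ := subset_image_iff.1 hT
    have hJinj : Set.InjOn (Φ (m := m) j u w) J := hinj.mono (by exact_mod_cast hJ)
    rw [card_image_of_injOn hJinj] at hTc
    rw [sum_image (fun x hx y hy h => hJinj hx hy h)] at hT0
    have hb : ∀ i, m ∣ #{q ∈ J | q.1 = i} := by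
      intro i
      have h1 := congrFun (congrArg Prod.fst hT0) (j i).succ
      rw [Prod.fst_sum, Finset.sum_apply] at h1
      have h2 : ∀ q ∈ J, (Φ (m := m) j u w q).1 (j i).succ = if q.1 = i then 1 else 0 := by
        intro q _
        change (Pi.single (j q.1) 1 : Fin N → ZMod m) (j i) = _
        by_cases h : q.1 = i
        · rw [if_pos h, h, Pi.single_eq_same]
        · rw [if_neg h, Pi.single_eq_of_ne (fun h8 => h (j.injective h8).symm)]
      rw [sum_congr rfl h2, sum_boole] at h1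
      exact (ZMod.natCast_eq_zero_iff _ _).1 h1
    have hbn : ∀ i, #{q ∈ J | q.1 = i} ≤ m * n i := by
      intro i
      have h1 : #{q ∈ J | q.1 = i} ≤ #((univ : Finset (ZMod m)) ×ˢ range (n i)) := by
        refine card_le_card_of_injOn (fun q => q.2) ?_ ?_
        · intro q hq
          rw [mem_coe, mem_filter] at hq
          have h2 := hJ hq.1
          rw [hI, mem_sigma] at h2
          rw [mem_coe, ← hq.2]
          exact h2.2
        · rintro ⟨s1, s2⟩ hs ⟨t1, t2⟩ ht hst
          rw [mem_coe, mem_filter] at hs ht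
          simp only at hst hs ht
          obtain ⟨_, rfl⟩ := hs
          obtain ⟨_, rfl⟩ := ht
          rw [hst]
      rwa [card_product, card_univ, ZMod.card, card_range] at h1
    choose a ha using hb
    refine hn a ?_ ?_ ?_
    · intro i
      have h1 := hbn i
      rw [ha i] at h1
      exact Nat.le_of_mul_le_mul_left h1 (by omega)
    · have h1 : m * ∑ i, a i = m * p := by
        rw [← hTc, mul_sum, card_eq_sum_card_fiberwise (f := fun q => q.1) (t := univ)
          fun q _ => mem_univ q.1]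
        exact sum_congr rfl fun i _ => (ha i).symm
      exact Nat.eq_of_mul_eq_mul_left (by omega) h1
    · have h1 := congrArg Prod.snd hT0
      rw [Prod.snd_sum] at h1
      have h2 : ∑ q ∈ J, (Φ (m := m) j u w q).2 = ∑ q ∈ J, u q.1 + (∑ q ∈ J, q.2.2) • w := by
        rw [sum_smul, ← sum_add_distrib]
        rfl
      rw [h2, Prod.snd_zero] at h1
      have h3 : ∑ q ∈ J, u q.1 ∈ P := P.sum_mem fun q _ => huP q.1
      have h4 : (∑ q ∈ J, q.2.2) • w = 0 := by
        have h5 : (∑ q ∈ J, q.2.2) • w ∈ P := by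
          rw [(eq_neg_of_add_eq_zero_right h1)]
          exact P.neg_mem h3
        rw [← Nat.cast_smul_eq_nsmul (ZMod p)] at h5 ⊢
        by_cases h6 : ((∑ q ∈ J, q.2.2 : ℕ) : ZMod p) = 0
        · rw [h6, zero_smul]
        · exact absurd ((P.smul_mem_iff h6).1 h5) hw
      rw [h4, add_zero] at h1
      have h5 : ∑ q ∈ J, u q.1 = m • ∑ i, a i • u i := by
        rw [← sum_fiberwise J (fun q => q.1) fun q => u q.1, smul_sum]
        refine sum_congr rfl fun i _ => ?_
        rw [sum_congr rfl (g := fun _ => u i) fun t ht => by rw [(mem_filter.1 ht).2], sum_const,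
          ha i, mul_smul]
      rw [h5, ← Nat.cast_smul_eq_nsmul (ZMod p)] at h1
      rcases smul_eq_zero.1 h1 with h6 | h6
      · rw [ZMod.natCast_eq_zero_iff] at h6
        exact absurd (Nat.le_of_dvd (by omega) h6) (by omega)
      · exact h6

end SHARPXM

/-- sharpness -/
theorem sharp (m d e : ℕ) (hm : 2 ≤ m) (he : 1 ≤ e) : ∃ R p₀ : ℕ,
    ∀ (p : ℕ) [Fact p.Prime], p₀ ≤ p →
      ∃ X : Finset ((Fin R → ZMod m) × (Fin (d + 1) → ZMod p)),
        e * (m * egz p d) ≤ e * #X + m * (p + e) ∧ ∀ T ⊆ X, #T = m * p → ∑ x ∈ T, x ≠ 0 := by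
  classical
  have : NeZero m := ⟨by omega⟩
  obtain ⟨C₀, p₁, hegz⟩ := egz_bound d
  obtain ⟨N, p₂, hvirt⟩ := virtual PUnit 1 le_rfl (fun g => rfl) d e C₀ he
  refine ⟨N + 1, p₁ + p₂ + (m + 1), ?_⟩
  intro p hpr hp₀
  obtain ⟨hz, -⟩ := hegz p (by omega)
  obtain ⟨A, hA, hA0⟩ := LIFTXM.egz_set (hpr.out.one_lt.le) d
  obtain ⟨A', hA'A, hA'⟩ := exists_subset_card_eq (s := A) (n := egz p d - 1) (by omega)
  obtain ⟨ι, _, _, P, u, n, hιN, hP, huP, hmass, hhit⟩ := hvirt p (by omega)
    (A'.map ⟨fun x => (PUnit.unit, x), fun x y h => (Prod.mk.injEq _ _ _ _ ▸ h).2⟩) (by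
      rw [card_map, hA']
      omega)
  have hn : ∀ a : ι → ℕ, (∀ i, a i ≤ n i) → ∑ i, a i = p → ∑ i, a i • u i = 0 → False := by
    intro a h1 h2 h3
    obtain ⟨T, hT, hTc, hTs⟩ := hhit a h1 h2 h3
    obtain ⟨T', hT', rfl⟩ := subset_map_iff.1 hT
    rw [card_map, one_mul] at hTc
    rw [sum_map] at hTs
    have h4 := congrArg Prod.snd hTs
    rw [Prod.snd_sum] at h4
    exact hA0 T' (hT'.trans hA'A) hTc h4
  obtain ⟨w, hw⟩ : ∃ w, w ∉ P := by
    by_contra hh
    push Not at hh
    have h1 : P = ⊤ := by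
      ext x
      simp [hh x]
    rw [h1, finrank_top, Module.finrank_fin_fun] at hP
    omega
  obtain ⟨j⟩ : Nonempty (ι ↪ Fin N) := Function.Embedding.nonempty_of_card_le (by
    rwa [Fintype.card_fin])
  obtain ⟨X, hX, hX0⟩ := SHARPXM.construct hm (by omega) j huP hw hn
  refine ⟨X, ?_, hX0⟩
  rw [card_map, hA', one_mul] at hmass
  rw [hX]
  have h1 : e * egz p d ≤ e * ∑ i, n i + (p + e) := by
    have h2 : e * egz p d ≤ e * (egz p d - 1) + e := by
      have h3 : e * egz p d ≤ e * ((egz p d - 1) + 1) := Nat.mul_le_mul_left _ (by omega)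
      rwa [mul_add, mul_one] at h3
    omega
  calc e * (m * egz p d) = m * (e * egz p d) := by ring
    _ ≤ m * (e * ∑ i, n i + (p + e)) := Nat.mul_le_mul_left _ h1
    _ = e * (m * ∑ i, n i) + m * (p + e) := by ring

end Pool.Agent.Lib.MPa7239a.AR
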