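import Pool.Agent.Lib.MP_a7239a_co.AR.PARSV
import Pool.Agent.Lib.MP_a7239a_co.AR.COUNT
import Pool.Agent.Lib.MP_a7239a_co.R3.KER
import Pool.Agent.Lib.MP_a7239a_co.R3.CHAR

/-!
# AR, module SMALL: growth of small sets
-/

set_option autoImplicit false

open Finset
open scoped Pointwise

namespace Pool.Agent.Lib.MPa7239a.AR

open Pool.Agent.Lib.MPa7239a.GC
open Pool.Agent.Lib.MPa7239a.R3

variable {p : ℕ} [Fact p.Prime] {G : Type} [AddCommGroup G] [Module (ZMod p) G] [Fintype G]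
  [DecidableEq G]

/-- the weight of the forms with a large value at `d` -/
theorem SMALLM.bad_weight {Y : Finset G} {S : Finset (G →ₗ[ZMod p] ZMod p)}
    {w : (G →ₗ[ZMod p] ZMod p) → ℝ} (hw : ∀ ξ, 0 ≤ w ξ)
    (hd : ∀ d : G, ∑ ξ ∈ S, w ξ * (1 - Real.cos (2 * Real.pi * ((ξ d).valMinAbs : ℝ) / p)) ≤
        (#((Y + {d}) \ Y) : ℝ)) {h J W : ℕ} (hh : 1 ≤ h) (hJ : 1 ≤ J) (hJW : p ≤ J * W) (d : G)
    (hst : 4 * h * J * #((Y + {d}) \ Y) ≤ #Y) :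
    ∑ ξ ∈ S with W ≤ (ξ d).valMinAbs.natAbs, w ξ ≤ (#Y : ℝ) / (4 * h) := by
  have hJ' : (1 : ℝ) ≤ J := by exact_mod_cast hJ
  have hh' : (1 : ℝ) ≤ h := by exact_mod_cast hh
  set δ : ℝ := (#((Y + {d}) \ Y) : ℝ) with hδ
  have hδ0 : 0 ≤ δ := by positivity
  -- the upper bound
  have h1 : ∑ ξ ∈ S, w ξ * ∑ j ∈ range J,
      (1 - Real.cos (2 * Real.pi * (((j • ξ d : ZMod p)).valMinAbs : ℝ) / p)) ≤ J ^ 2 / 2 * δ := by
    have e : ∑ ξ ∈ S, w ξ * ∑ j ∈ range J,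
        (1 - Real.cos (2 * Real.pi * (((j • ξ d : ZMod p)).valMinAbs : ℝ) / p)) =
        ∑ j ∈ range J, ∑ ξ ∈ S,
        w ξ * (1 - Real.cos (2 * Real.pi * ((ξ (j • d)).valMinAbs : ℝ) / p)) := by
      simp only [mul_sum]
      rw [sum_comm]
      refine sum_congr rfl fun j _ => sum_congr rfl fun ξ _ => ?_
      rw [map_nsmul]
    rw [e]
    have h2 : ∀ j ∈ range J, ∑ ξ ∈ S,
        w ξ * (1 - Real.cos (2 * Real.pi * ((ξ (j • d)).valMinAbs : ℝ) / p)) ≤ (j : ℝ) * δ := by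
      intro j _
      refine (hd (j • d)).trans ?_
      have h3 := CHARM.sdiff_nsmul Y d j
      have h4 : ((#((Y + {j • d}) \ Y) : ℕ) : ℝ) ≤ ((j * #((Y + {d}) \ Y) : ℕ) : ℝ) := by
        exact_mod_cast h3
      rw [Nat.cast_mul] at h4
      exact h4
    refine (sum_le_sum h2).trans ?_
    rw [← sum_mul]
    refine mul_le_mul_of_nonneg_right ?_ hδ0
    have h5 : ((∑ j ∈ range J, j : ℕ) : ℝ) * 2 = (J : ℝ) * ((J - 1 : ℕ) : ℝ) := by
      have := Finset.sum_range_id_mul_two J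
      exact_mod_cast this
    have h6 : ((J - 1 : ℕ) : ℝ) ≤ J := by
      have : J - 1 ≤ J := Nat.sub_le _ _
      exact_mod_cast this
    have h7 : (∑ j ∈ range J, (j : ℝ)) = ((∑ j ∈ range J, j : ℕ) : ℝ) := by push_cast; rfl
    rw [h7]
    nlinarith
  -- the lower bound
  have h2 : (J / 2 : ℝ) * ∑ ξ ∈ S with W ≤ (ξ d).valMinAbs.natAbs, w ξ ≤
      ∑ ξ ∈ S, w ξ * ∑ j ∈ range J,
      (1 - Real.cos (2 * Real.pi * (((j • ξ d : ZMod p)).valMinAbs : ℝ) / p)) := by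
    rw [mul_sum]
    refine le_trans (sum_le_sum (fun ξ hξ => ?_)) (sum_le_sum_of_subset_of_nonneg
      (filter_subset (fun ξ : G →ₗ[ZMod p] ZMod p => W ≤ (ξ d).valMinAbs.natAbs) S)
      fun ξ _ _ => ?_)
    · have h3 := ker_bound (p := p) hJ hJW (mem_filter.1 hξ).2
      have h4 : (J / 2 : ℝ) ≤ ∑ j ∈ range J,
          (1 - Real.cos (2 * Real.pi * (((j • ξ d : ZMod p)).valMinAbs : ℝ) / p)) := by
        rw [sum_sub_distrib, sum_const, card_range, nsmul_eq_mul, mul_one]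
        linarith
      rw [mul_comm]
      exact mul_le_mul_of_nonneg_left h4 (hw ξ)
    · refine mul_nonneg (hw ξ) (sum_nonneg fun j _ => ?_)
      have := Real.cos_le_one (2 * Real.pi * (((j • ξ d : ZMod p)).valMinAbs : ℝ) / p)
      linarith
  have h3 : 4 * (h : ℝ) * J * δ ≤ #Y := by
    rw [hδ]
    exact_mod_cast hst
  rw [le_div_iff₀ (by positivity)]
  set B := ∑ ξ ∈ S with W ≤ (ξ d).valMinAbs.natAbs, w ξ with hB
  have h4 : (J / 2 : ℝ) * B ≤ J ^ 2 / 2 * δ := h2.trans h1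
  have h5 : B ≤ J * δ := by
    have h6 : (0 : ℝ) < J / 2 := by positivity
    have h7 : (J / 2 : ℝ) * B ≤ J / 2 * (J * δ) := by
      calc (J / 2 : ℝ) * B ≤ J ^ 2 / 2 * δ := h4
        _ = J / 2 * (J * δ) := by ring
    exact le_of_mul_le_mul_left h7 h6
  calc B * (4 * h) ≤ J * δ * (4 * h) := mul_le_mul_of_nonneg_right h5 (by positivity)
    _ = 4 * h * J * δ := by ring
    _ ≤ #Y := h3

/-- growth of small sets by a vector of the basis -/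
theorem small {h : ℕ} (hh : 1 ≤ h) (d : Module.Basis (Fin h) (ZMod p) G) {Y : Finset G}
    (hY : Y.Nonempty) {J : ℕ} (hJ : 1 ≤ J) (hJp : J ≤ p) (hYJ : 8 ^ h * #Y ≤ J ^ h) :
    ∃ i, #Y ≤ 4 * h * J * #((Y + {d i}) \ Y) := by
  classical
  by_contra hcon
  push Not at hcon
  obtain ⟨S, w, hSall, hw, hwb, hsum, hd⟩ := parsv (p := p) hY
  have hp0 : 0 < p := (Fact.out : p.Prime).pos
  have hYpos : (0 : ℝ) < #Y := by exact_mod_cast hY.card_pos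
  have hh' : (1 : ℝ) ≤ h := by exact_mod_cast hh
  obtain ⟨W, hWdef⟩ : ∃ W, W = p / J + 1 := ⟨_, rfl⟩
  have hJW : p ≤ J * W := by
    rw [hWdef]
    exact (Nat.lt_mul_div_succ p (by omega)).le
  have hWJ : W * J ≤ 2 * p := by
    rw [hWdef, add_mul, one_mul]
    have := Nat.div_mul_le_self p J
    omega
  -- the bad forms
  have hbad : ∀ i, ∑ ξ ∈ S with W ≤ (ξ (d i)).valMinAbs.natAbs, w ξ ≤ (#Y : ℝ) / (4 * h) :=
    fun i => SMALLM.bad_weight hw hd hh hJ hJW (d i) (hcon i).le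
  -- the good forms
  set Gd : Finset (G →ₗ[ZMod p] ZMod p) := {ξ ∈ S | ∀ i, (ξ (d i)).valMinAbs.natAbs < W} with hGd
  have hsplit : ∑ ξ ∈ S, w ξ ≤ ∑ ξ ∈ Gd, w ξ +
      ∑ i, ∑ ξ ∈ S with W ≤ (ξ (d i)).valMinAbs.natAbs, w ξ := by
    have e1 : ∑ ξ ∈ Gd, w ξ = ∑ ξ ∈ S, if (∀ i, (ξ (d i)).valMinAbs.natAbs < W) then w ξ else 0 := by
      rw [hGd, sum_filter]
    have e2 : ∑ i, ∑ ξ ∈ S with W ≤ (ξ (d i)).valMinAbs.natAbs, w ξ =
        ∑ ξ ∈ S, ∑ i, if W ≤ (ξ (d i)).valMinAbs.natAbs then w ξ else 0 := by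
      rw [sum_comm]
      refine sum_congr rfl fun i _ => ?_
      rw [sum_filter]
    rw [e1, e2, ← sum_add_distrib]
    refine sum_le_sum fun ξ _ => ?_
    by_cases hξ : ∀ i, (ξ (d i)).valMinAbs.natAbs < W
    · rw [if_pos hξ]
      have : 0 ≤ ∑ i, if W ≤ (ξ (d i)).valMinAbs.natAbs then w ξ else 0 :=
        sum_nonneg fun i _ => by
          split_ifs
          · exact hw ξ
          · exact le_refl _
      linarith
    · rw [if_neg hξ, zero_add]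
      push Not at hξ
      obtain ⟨i, hi⟩ := hξ
      have h1 : (if W ≤ (ξ (d i)).valMinAbs.natAbs then w ξ else 0) ≤
          ∑ i, if W ≤ (ξ (d i)).valMinAbs.natAbs then w ξ else 0 :=
        single_le_sum (f := fun i => if W ≤ (ξ (d i)).valMinAbs.natAbs then w ξ else 0)
          (fun i _ => by
            show (0 : ℝ) ≤ if W ≤ (ξ (d i)).valMinAbs.natAbs then w ξ else 0
            split_ifs
            · exact hw ξ
            · exact le_refl _) (mem_univ i)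
      rwa [if_pos hi] at h1
  have hbadsum : ∑ i, ∑ ξ ∈ S with W ≤ (ξ (d i)).valMinAbs.natAbs, w ξ ≤ (#Y : ℝ) / 4 := by
    refine (sum_le_sum fun i _ => hbad i).trans ?_
    rw [sum_const, card_univ, Fintype.card_fin, nsmul_eq_mul]
    have : (h : ℝ) * ((#Y : ℝ) / (4 * h)) = (#Y : ℝ) / 4 := by
      field_simp
    rw [this]
  have hgood : 3 / 4 * (#Y : ℝ) ≤ ∑ ξ ∈ Gd, w ξ := by
    rw [hsum] at hsplit
    linarith
  -- the number of the good forms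
  have hcount : #Gd ≤ (2 * W) ^ h :=
    count_forms d W Gd fun ξ hξ i => (mem_filter.1 hξ).2 i
  have hcardG : Nat.card G = p ^ h := by
    rw [Nat.card_eq_fintype_card, Module.card_fintype d, ZMod.card, Fintype.card_fin]
  have hup : (∑ ξ ∈ Gd, w ξ) * (p : ℝ) ^ h ≤ (2 * (W : ℝ)) ^ h * (#Y : ℝ) ^ 2 := by
    rw [sum_mul]
    have h1 : ∀ ξ ∈ Gd, w ξ * (p : ℝ) ^ h ≤ (#Y : ℝ) ^ 2 := by
      intro ξ _
      have h2 := hwb ξ
      rw [hcardG] at h2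
      push_cast at h2
      exact h2
    have h3 := sum_le_card_nsmul Gd _ _ h1
    rw [nsmul_eq_mul] at h3
    refine h3.trans (mul_le_mul_of_nonneg_right ?_ (by positivity))
    exact_mod_cast hcount
  have hp' : (0 : ℝ) < (p : ℝ) ^ h := by positivity
  have hJpos : (0 : ℝ) < J := by
    have : 0 < J := by omega
    exact_mod_cast this
  -- (3/4) p^h ≤ (2W)^h #Y
  have h1 : 3 / 4 * (p : ℝ) ^ h ≤ (2 * (W : ℝ)) ^ h * (#Y : ℝ) := by
    have h2 : 3 / 4 * (#Y : ℝ) * (p : ℝ) ^ h ≤ (2 * (W : ℝ)) ^ h * (#Y : ℝ) ^ 2 :=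
      (mul_le_mul_of_nonneg_right hgood hp'.le).trans hup
    have h3 : (3 / 4 * (p : ℝ) ^ h) * (#Y : ℝ) ≤ ((2 * (W : ℝ)) ^ h * (#Y : ℝ)) * (#Y : ℝ) := by
      nlinarith
    exact le_of_mul_le_mul_right h3 hYpos
  have h2 : 3 / 4 * (J : ℝ) ^ h ≤ 4 ^ h * (#Y : ℝ) := by
    have h3 : (2 * (W : ℝ)) ^ h * (J : ℝ) ^ h ≤ (4 : ℝ) ^ h * (p : ℝ) ^ h := by
      rw [← mul_pow, ← mul_pow]
      refine pow_le_pow_left₀ (by positivity) ?_ h
      have : ((W * J : ℕ) : ℝ) ≤ ((2 * p : ℕ) : ℝ) := by exact_mod_cast hWJ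
      push_cast at this
      nlinarith
    have h4 : (3 / 4 * (J : ℝ) ^ h) * (p : ℝ) ^ h ≤ (4 ^ h * (#Y : ℝ)) * (p : ℝ) ^ h := by
      calc (3 / 4 * (J : ℝ) ^ h) * (p : ℝ) ^ h = (3 / 4 * (p : ℝ) ^ h) * (J : ℝ) ^ h := by ring
        _ ≤ ((2 * (W : ℝ)) ^ h * (#Y : ℝ)) * (J : ℝ) ^ h :=
            mul_le_mul_of_nonneg_right h1 (by positivity)
        _ = ((2 * (W : ℝ)) ^ h * (J : ℝ) ^ h) * (#Y : ℝ) := by ring
        _ ≤ ((4 : ℝ) ^ h * (p : ℝ) ^ h) * (#Y : ℝ) := mul_le_mul_of_nonneg_right h3 hYpos.le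
        _ = (4 ^ h * (#Y : ℝ)) * (p : ℝ) ^ h := by ring
    exact le_of_mul_le_mul_right h4 hp'
  have h3 : (8 : ℝ) ^ h * (#Y : ℝ) ≤ (J : ℝ) ^ h := by exact_mod_cast hYJ
  have h4 : 3 / 4 * ((8 : ℝ) ^ h * (#Y : ℝ)) ≤ 4 ^ h * (#Y : ℝ) := by linarith
  have h5 : 3 / 4 * (8 : ℝ) ^ h ≤ 4 ^ h := by
    have h6 : (3 / 4 * (8 : ℝ) ^ h) * (#Y : ℝ) ≤ 4 ^ h * (#Y : ℝ) := by linarith
    exact le_of_mul_le_mul_right h6 hYpos
  have h6 : (8 : ℝ) ^ h = 2 ^ h * 4 ^ h := by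
    rw [← mul_pow]
    norm_num
  have h7 : (2 : ℝ) ≤ 2 ^ h := by
    calc (2 : ℝ) = 2 ^ 1 := by norm_num
      _ ≤ 2 ^ h := pow_le_pow_right₀ (by norm_num) hh
  have h8 : (0 : ℝ) < 4 ^ h := by positivity
  rw [h6] at h5
  nlinarith

end Pool.Agent.Lib.MPa7239a.AR
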