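import Pool.Agent.Lib.MP_a7239a_co.AR.Defs

/-! # AR/STEPR: one step of the rounding (pigeonhole) -/

open Finset

namespace Pool.Agent.Lib.MPa7239a.AR

namespace STEPRM

/-- two multiples `k1 < k2 ≤ E ^ #I` whose residues on `I` lie in the same boxes -/
theorem pigeon {ι : Type} [Fintype ι] [DecidableEq ι] {p E : ℕ} (hp : 1 ≤ p) (hE : 1 ≤ E)
    (α : ι → ℤ) (I : Finset ι) (t₀ : ℤ) :
    ∃ k1 k2 : ℕ, k1 < k2 ∧ k2 ≤ E ^ #I ∧ ∀ i ∈ I,
      ((E : ℤ) * ((t₀ * k1 * α i) % p)) / p = ((E : ℤ) * ((t₀ * k2 * α i) % p)) / p := by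
  classical
  have hp0 : (0 : ℤ) < p := by exact_mod_cast hp
  have hE0 : (0 : ℤ) < E := by exact_mod_cast hE
  let f : ℕ → (↥I → ℤ) := fun k i => ((E : ℤ) * ((t₀ * k * α i) % p)) / p
  let T : Finset (↥I → ℤ) := Fintype.piFinset fun _ => Finset.Ico (0 : ℤ) E
  have hT : #T = E ^ #I := by
    simp only [T, Fintype.card_piFinset, Int.card_Ico, Finset.prod_const, Finset.card_univ,
      Fintype.card_coe]
    simp
  have hmaps : Set.MapsTo f (↑(Finset.range (E ^ #I + 1)) : Set ℕ) (↑T : Set (↥I → ℤ)) := by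
    intro k _
    rw [Finset.mem_coe, Fintype.mem_piFinset]
    intro i
    rw [Finset.mem_Ico]
    have h1 : 0 ≤ (t₀ * k * α i) % (p : ℤ) := Int.emod_nonneg _ hp0.ne'
    have h2 : (t₀ * k * α i) % (p : ℤ) < p := Int.emod_lt_of_pos _ hp0
    refine ⟨Int.ediv_nonneg (mul_nonneg hE0.le h1) hp0.le, ?_⟩
    refine Int.ediv_lt_of_lt_mul hp0 ?_
    exact mul_lt_mul_of_pos_left h2 hE0
  obtain ⟨x, hx, y, hy, hxy, he⟩ := Finset.exists_ne_map_eq_of_card_lt_of_maps_to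
    (s := Finset.range (E ^ #I + 1)) (t := T) (f := f)
    (by rw [hT, Finset.card_range]; exact Nat.lt_succ_self _) hmaps
  rcases lt_or_gt_of_ne hxy with h | h
  · exact ⟨x, y, h, by have := Finset.mem_range.mp hy; omega,
      fun i hi => congrFun he ⟨i, hi⟩⟩
  · exact ⟨y, x, h, by have := Finset.mem_range.mp hx; omega,
      fun i hi => (congrFun he ⟨i, hi⟩).symm⟩

/-- equal boxes: `E |x - y| ≤ p` -/
theorem box {p E x y : ℤ} (hp : 0 < p) (h : (E * x) / p = (E * y) / p) : E * |y - x| ≤ p ∨ E < 0 := by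
  by_cases hE : E < 0
  · exact Or.inr hE
  · left
    have hE : 0 ≤ E := not_lt.mp hE
    have h1 := Int.emod_add_mul_ediv (E * x) p
    have h2 := Int.emod_add_mul_ediv (E * y) p
    have h3 := Int.emod_nonneg (E * x) hp.ne'
    have h4 := Int.emod_lt_of_pos (E * x) hp
    have h5 := Int.emod_nonneg (E * y) hp.ne'
    have h6 := Int.emod_lt_of_pos (E * y) hp
    rw [h] at h1
    have h7 : E * |y - x| = |E * y - E * x| := by
      rw [← mul_sub, abs_mul, abs_of_nonneg hE]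
    rw [h7, abs_le]
    constructor <;> linarith

end STEPRM

theorem step_round {ι : Type} [Fintype ι] [DecidableEq ι] {p E : ℕ} (hp : 1 ≤ p) (hE : 2 ≤ E)
    {Λ : AddSubgroup (ι → ℤ)} (hΛ : ∀ i, Pi.single i (p : ℤ) ∈ Λ) {α : ι → ℤ} (hα : α ∈ Λ)
    (h0 : ∀ i, 0 ≤ α i) (I : Finset ι) {μ : ℤ} (hμ : 0 < μ) (hμ1 : ∃ j ∉ I, α j = μ)
    (hμ2 : ∀ j ∉ I, α j ≤ μ) (hμ3 : (E : ℤ) ^ (#I + 1) * μ ≤ p) :
    ∃ ρ ∈ Λ, (∀ i, E * |ρ i| ≤ p) ∧ (∀ i, α i = 0 → ρ i = 0) ∧ (∀ j ∉ I, 0 < α j → 0 < ρ j) ∧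
      (∀ j ∉ I, 0 ≤ ρ j) ∧ ∃ j ∉ I, (p : ℤ) ≤ 2 * (E : ℤ) ^ (#I + 1) * ρ j := by
  classical
  have hp0 : (0 : ℤ) < p := by exact_mod_cast hp
  have hE0 : (0 : ℤ) < E := by
    have : 0 < E := by omega
    exact_mod_cast this
  have hq0 : (0 : ℤ) < (E : ℤ) ^ (#I + 1) * μ := mul_pos (pow_pos hE0 _) hμ
  obtain ⟨q, hq⟩ : ∃ q : ℤ, q = (E : ℤ) ^ (#I + 1) * μ := ⟨_, rfl⟩
  rw [← hq] at hμ3 hq0
  obtain ⟨t₀, ht₀⟩ : ∃ t₀ : ℤ, t₀ = (p : ℤ) / q := ⟨_, rfl⟩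
  have hdiv := Int.emod_add_mul_ediv (p : ℤ) q
  have hm1 := Int.emod_nonneg (p : ℤ) hq0.ne'
  have hm2 := Int.emod_lt_of_pos (p : ℤ) hq0
  rw [← ht₀] at hdiv
  have ht1 : 1 ≤ t₀ := by
    rw [ht₀]
    exact (Int.le_ediv_iff_mul_le hq0).mpr (by linarith)
  obtain ⟨k1, k2, hk, hk2, hbox⟩ := STEPRM.pigeon (p := p) (E := E) hp (by omega) α I t₀
  obtain ⟨t, ht⟩ : ∃ t : ℤ, t = t₀ * ((k2 : ℤ) - k1) := ⟨_, rfl⟩
  have hkk : (1 : ℤ) ≤ (k2 : ℤ) - k1 := by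
    have : (k1 : ℤ) < k2 := by exact_mod_cast hk
    linarith
  have hkE : (k2 : ℤ) - k1 ≤ (E : ℤ) ^ #I := by
    have h1 : (k2 : ℤ) ≤ (E : ℤ) ^ #I := by exact_mod_cast hk2
    have h2 : (0 : ℤ) ≤ k1 := Int.natCast_nonneg _
    linarith
  have htt : t₀ ≤ t := by rw [ht]; nlinarith
  have ht1' : 1 ≤ t := le_trans ht1 htt
  have htE : t ≤ t₀ * (E : ℤ) ^ #I := by
    rw [ht]; exact mul_le_mul_of_nonneg_left hkE (by linarith)
  have hqt : q * t₀ ≤ p := by linarith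
  -- the vector
  obtain ⟨ρ, hρ⟩ : ∃ ρ : ι → ℤ, ρ = fun i => if i ∈ I then
      (t₀ * k2 * α i) % (p : ℤ) - (t₀ * k1 * α i) % (p : ℤ) else t * α i := ⟨_, rfl⟩
  have hρI : ∀ i ∈ I, ρ i = (t₀ * k2 * α i) % (p : ℤ) - (t₀ * k1 * α i) % (p : ℤ) := by
    intro i hi; rw [hρ]; exact if_pos hi
  have hρO : ∀ i ∉ I, ρ i = t * α i := by
    intro i hi; rw [hρ]; exact if_neg hi
  have hmem : ρ ∈ Λ := by
    have hsum : (∑ i ∈ I, ((t₀ * k2 * α i) / (p : ℤ) - (t₀ * k1 * α i) / (p : ℤ)) •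
        (Pi.single i (p : ℤ) : ι → ℤ)) ∈ Λ :=
      Λ.sum_mem fun i _ => Λ.zsmul_mem (hΛ i) _
    have hsm : t • α ∈ Λ := Λ.zsmul_mem hα t
    have he : ρ = t • α - ∑ i ∈ I, ((t₀ * k2 * α i) / (p : ℤ) - (t₀ * k1 * α i) / (p : ℤ)) •
        (Pi.single i (p : ℤ) : ι → ℤ) := by
      funext j
      rw [Pi.sub_apply, Pi.smul_apply, Finset.sum_apply, smul_eq_mul]
      by_cases hj : j ∈ I
      · rw [hρI j hj, Finset.sum_eq_single_of_mem j hj]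
        · rw [Pi.smul_apply, Pi.single_eq_same, smul_eq_mul]
          have h1 := Int.emod_add_mul_ediv (t₀ * k2 * α j) (p : ℤ)
          have h2 := Int.emod_add_mul_ediv (t₀ * k1 * α j) (p : ℤ)
          have h3 : t * α j = t₀ * k2 * α j - t₀ * k1 * α j := by rw [ht]; ring
          rw [h3]
          linear_combination h1 - h2
        · intro b _ hb
          rw [Pi.smul_apply, Pi.single_eq_of_ne hb.symm, smul_zero]
      · rw [hρO j hj, Finset.sum_eq_zero, sub_zero]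
        intro b hb
        have hbj : j ≠ b := fun h => hj (h ▸ hb)
        rw [Pi.smul_apply, Pi.single_eq_of_ne hbj, smul_zero]
    rw [he]
    exact Λ.sub_mem hsm hsum
  refine ⟨ρ, hmem, ?_, ?_, ?_, ?_, ?_⟩
  · intro i
    by_cases hi : i ∈ I
    · rw [hρI i hi]
      rcases STEPRM.box hp0 (hbox i hi) with h | h
      · exact h
      · exact absurd h (not_lt.mpr hE0.le)
    · rw [hρO i hi, abs_of_nonneg (mul_nonneg (by linarith) (h0 i))]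
      have h1 : t * α i ≤ (t₀ * (E : ℤ) ^ #I) * μ :=
        mul_le_mul htE (hμ2 i hi) (h0 i) (mul_nonneg (by linarith) (pow_nonneg hE0.le _))
      have h2 : (E : ℤ) * (t * α i) ≤ E * ((t₀ * (E : ℤ) ^ #I) * μ) :=
        mul_le_mul_of_nonneg_left h1 hE0.le
      have h3 : (E : ℤ) * ((t₀ * (E : ℤ) ^ #I) * μ) = q * t₀ := by rw [hq]; ring
      linarith
  · intro i hi
    by_cases hI : i ∈ I
    · rw [hρI i hI, hi]; simp
    · rw [hρO i hI, hi]; simp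
  · intro j hj hpos
    rw [hρO j hj]
    exact mul_pos (by linarith) hpos
  · intro j hj
    rw [hρO j hj]
    exact mul_nonneg (by linarith) (h0 j)
  · obtain ⟨j, hj, hjμ⟩ := hμ1
    refine ⟨j, hj, ?_⟩
    rw [hρO j hj, hjμ]
    have h1 : q * t₀ ≤ q * t := mul_le_mul_of_nonneg_left htt hq0.le
    have h2 : q * 1 ≤ q * t₀ := mul_le_mul_of_nonneg_left ht1 hq0.le
    have h3 : 2 * (E : ℤ) ^ (#I + 1) * (t * μ) = 2 * (q * t) := by rw [hq]; ring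
    rw [h3]
    linarith

end Pool.Agent.Lib.MPa7239a.AR
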