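import Pool.Agent.Lib.MP_a7239a_co.AR.MAIN

/-!
# AR, module VIRT: the virtual sequence of a set in `K × ZMod p ^ (d + 1)`

`K` is a fixed finite abelian group, `m • K = 0`, `p` a large prime. Text: MP_a7239a_ARK_h59.md.
-/

set_option autoImplicit false
set_option linter.unusedSectionVars false

open Finset
open scoped Pointwise

namespace Pool.Agent.Lib.MPa7239a.AR

open Pool.Agent.Lib.MPa7239a.GC
open Pool.Agent.Lib.MPa7239a.R3

namespace VIRTM

section
variable {p : ℕ} [Fact p.Prime] {K V : Type} [AddCommGroup K] [AddCommGroup V] [Module (ZMod p) V]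
  [DecidableEq K] [DecidableEq V]

/-- the embedding of `K × V` into `V × ZMod p` -/
def emb (t : K ↪ ZMod p) : K × V ↪ V × ZMod p :=
  ⟨fun a => (a.2, t a.1), fun a b h => by
    rw [Prod.mk.injEq] at h
    exact Prod.ext (t.injective h.2) h.1⟩

theorem emb_apply (t : K ↪ ZMod p) (a : K × V) : emb t a = (a.2, t a.1) := rfl

/-- back from `V × ZMod p` to `K × V` -/
theorem back {t : K ↪ ZMod p} {A : Finset (K × V)} {B : Finset (V × ZMod p)}
    (hBA : B ⊆ A.map (emb t)) (hB : ∀ x ∈ B, ∀ y ∈ B, x.2 = y.2) {k : ℕ}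
    (hk : ∀ g : K, k • g = 0) {w : V × ZMod p} (h : Hit B k w) :
    ∃ S ⊆ A, S.map (emb t) ⊆ B ∧ #S = k ∧ ∑ a ∈ S, a = (0, w.1) := by
  obtain ⟨S', hS', hc, hs⟩ := h
  obtain ⟨S, hS, rfl⟩ := subset_map_iff.1 (hS'.trans hBA)
  rw [card_map] at hc
  refine ⟨S, hS, hS', hc, ?_⟩
  rw [sum_map] at hs
  have h2 : ∑ a ∈ S, a.2 = w.1 := by
    rw [← hs, Prod.fst_sum]
    rfl
  have h1 : ∑ a ∈ S, a.1 = 0 := by
    rcases S.eq_empty_or_nonempty with rfl | ⟨a₀, ha₀⟩
    · rw [sum_empty]
    · have h3 : ∀ a ∈ S, a.1 = a₀.1 := fun a ha => by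
        have h4 := hB _ (hS' (mem_map_of_mem _ ha)) _ (hS' (mem_map_of_mem _ ha₀))
        rw [emb_apply, emb_apply] at h4
        exact t.injective h4
      rw [sum_congr rfl h3, sum_const, hc, hk]
  refine Prod.ext ?_ ?_
  · rw [Prod.fst_sum, h1]
  · rw [Prod.snd_sum, h2]

/-- a spread cell lies in one slice -/
theorem slice [Fintype K] {t : K ↪ ZMod p} {A : Finset (K × V)} {B : Finset (V × ZMod p)}
    (hBA : B ⊆ A.map (emb t)) {L : Submodule (ZMod p) (V × ZMod p)}
    (hL : ∀ x ∈ B, ∀ y ∈ B, x - y ∈ L) {b : ℕ} (hs : Spread L B b)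
    (hb : Fintype.card K * b < #B) : ∀ x ∈ L, x.2 = 0 := by
  by_contra hh
  push Not at hh
  obtain ⟨x₀, hx₀, hx₀'⟩ := hh
  have hM : L ⊓ LinearMap.ker (LinearMap.snd (ZMod p) V (ZMod p)) < L := by
    refine lt_of_le_of_ne inf_le_left fun h => ?_
    rw [← h] at hx₀
    exact hx₀' (LinearMap.mem_ker.1 hx₀.2)
  have h1 : #B ≤ b * #((univ : Finset K).map t) := by
    refine card_le_mul_card_image_of_maps_to (f := fun x : V × ZMod p => x.2) ?_ b ?_
    · intro x hx
      obtain ⟨a, _, ha⟩ := mem_map.1 (hBA hx)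
      rw [← ha]
      exact mem_map_of_mem _ (mem_univ _)
    · intro s _
      rcases (B.filter fun x => x.2 = s).eq_empty_or_nonempty with h | ⟨z, hz⟩
      · rw [h, card_empty]
        exact Nat.zero_le _
      · refine hs _ hM z _ (filter_subset _ _) fun a ha => ?_
        rw [mem_filter] at ha hz
        refine ⟨hL a ha.1 z hz.1, ?_⟩
        have h0 : a - z ∈ LinearMap.ker (LinearMap.snd (ZMod p) V (ZMod p)) := by
          rw [LinearMap.mem_ker, LinearMap.snd_apply, Prod.snd_sub, ha.2, hz.2, sub_self]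
        exact h0
  rw [card_map, card_univ, mul_comm] at h1
  omega

end

/-- the sum of the virtual multiplicities -/
theorem num6 {ι : Type} [Fintype ι] {p e m A : ℕ} {B n : ι → ℕ} {k : ℕ}
    (hK : Fintype.card ι = k) (he : 1 ≤ e) (hp : 1024 * (e * (k + 1)) * (m + 1) ≤ p)
    (hN : ∀ i, B i ≤ m * n i + (m + (p / (16 * (e * (k + 1))) + 1)))
    (hB : 4 * e * A ≤ 4 * e * ∑ i, B i + p) : e * A ≤ e * (m * ∑ i, n i) + p := by
  have hE : 1 ≤ e * (k + 1) := Nat.mul_pos he (by omega)
  have h1 : ∑ i, B i ≤ m * ∑ i, n i + k * (m + (p / (16 * (e * (k + 1))) + 1)) := by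
    calc ∑ i, B i ≤ ∑ i, (m * n i + (m + (p / (16 * (e * (k + 1))) + 1))) :=
          sum_le_sum fun i _ => hN i
      _ = _ := by rw [sum_add_distrib, sum_const, card_univ, hK, smul_eq_mul, mul_sum]
  generalize ∑ i, B i = SB at *
  generalize m * ∑ i, n i = SN at *
  set t := p / (16 * (e * (k + 1))) with ht
  have h2 : 16 * (e * (k + 1)) * t ≤ p := Nat.mul_div_le _ _
  have h3 : 4 * e * SB ≤ 4 * e * (SN + k * (m + (t + 1))) := Nat.mul_le_mul_left _ h1
  have h4 : 4 * e * (SN + k * (m + (t + 1))) = 4 * (e * SN) + 4 * (e * k * (m + 1)) + 4 * (e * k * t) := by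
    ring
  have h5 : 16 * (e * k * t) ≤ p := by
    refine le_trans ?_ h2
    have : 16 * (e * (k + 1)) * t = 16 * (e * k * t) + 16 * (e * t) := by ring
    omega
  have h6 : 1024 * (e * k * (m + 1)) ≤ p := by
    refine le_trans ?_ hp
    have : 1024 * (e * (k + 1)) * (m + 1) = 1024 * (e * k * (m + 1)) + 1024 * (e * (m + 1)) := by
      ring
    omega
  have h7 : 4 * e * A = 4 * (e * A) := by ring
  omega

/-- disjoint unions of sets in `K × V` -/
theorem union {ι M W' : Type} [Fintype ι] [DecidableEq ι] [AddCommGroup M] [DecidableEq M]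
    [DecidableEq W'] {A : Finset M} {f : M ↪ W'} {B : ι → Finset W'}
    (hdis : ∀ i j, i ≠ j → Disjoint (B i) (B j)) {n : ι → ℕ} {g : ι → M}
    (h : ∀ i, ∃ S ⊆ A, S.map f ⊆ B i ∧ #S = n i ∧ ∑ a ∈ S, a = g i) :
    Hit A (∑ i, n i) (∑ i, g i) := by
  choose T hT hTB hc hs using h
  have hdis' : ∀ i ∈ (univ : Finset ι), ∀ j ∈ (univ : Finset ι), i ≠ j →
      Disjoint (T i) (T j) := fun i _ j _ hij => by
    rw [Finset.disjoint_left]
    intro x hx hy
    exact Finset.disjoint_left.1 (hdis i j hij) (hTB i (mem_map_of_mem _ hx))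
      (hTB j (mem_map_of_mem _ hy))
  refine ⟨univ.biUnion T, ?_, ?_, ?_⟩
  · intro x hx
    rw [mem_biUnion] at hx
    obtain ⟨i, _, hi⟩ := hx
    exact hT i hi
  · rw [card_biUnion hdis']
    exact sum_congr rfl fun i _ => hc i
  · rw [sum_biUnion (by
      intro i hi j hj hij
      exact hdis' i (mem_univ i) j (mem_univ j) hij)]
    exact sum_congr rfl fun i _ => hs i

/-- the cells are large compared with the slices -/
theorem num7 {p e k c b B : ℕ} (hp : 1 ≤ p) (hB : p ≤ 2 * (4 * e) * k * B)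
    (hb : (8 * e * k * c + 1) * b ≤ p) : c * b < B := by
  by_contra hh
  have h1 : 2 * (4 * e) * k * B ≤ 2 * (4 * e) * k * (c * b) :=
    Nat.mul_le_mul_left _ (by omega)
  have h2 : 2 * (4 * e) * k * (c * b) = 8 * e * k * c * b := by ring
  have h3 : (8 * e * k * c + 1) * b = 8 * e * k * c * b + b := by ring
  have h4 : b = 0 := by omega
  subst h4
  omega

end VIRTM

/-- the virtual sequence -/
theorem virtual (K : Type) [AddCommGroup K] [Fintype K] [DecidableEq K] (m : ℕ) (hm : 1 ≤ m)
    (hK : ∀ g : K, m • g = 0) (d e C : ℕ) (he : 1 ≤ e) :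
    ∃ N p₀ : ℕ, ∀ (p : ℕ) [Fact p.Prime], p₀ ≤ p → ∀ A : Finset (K × (Fin (d + 1) → ZMod p)),
      #A ≤ C * p → ∃ (ι : Type) (_ : Fintype ι) (_ : DecidableEq ι)
        (P : Submodule (ZMod p) (Fin (d + 1) → ZMod p)) (u : ι → Fin (d + 1) → ZMod p)
        (n : ι → ℕ), Fintype.card ι ≤ N ∧ Module.finrank (ZMod p) P = d ∧ (∀ i, u i ∈ P) ∧
        e * #A ≤ e * (m * ∑ i, n i) + p ∧
        ∀ a : ι → ℕ, (∀ i, a i ≤ n i) → ∑ i, a i = p → ∑ i, a i • u i = 0 →
          Hit A (m * p) 0 := by
  classical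
  have hE1 : ∀ k : ℕ, 1 ≤ e * (k + 1) := fun k => Nat.mul_pos he (by omega)
  have hE2 : ∀ k : ℕ, 1 ≤ 64 * (e * (k + 1)) * m := fun k => by
    have h1 := hE1 k
    exact Nat.mul_pos (by omega) hm
  choose c hc1 hc using fun k : ℕ => rounding k (64 * (e * (k + 1)) * m) (hE2 k)
  choose W p₂ hW1 hfill using fun k : ℕ =>
    fill (d + 2) (2 * c k + 128 * (e * (k + 1))) (by have := hE1 k; omega)
  obtain ⟨N, hdec⟩ := decomposition (d + 2) C (4 * e) (by omega)
    (fun k => 128 * (e * (k + 1)) * W k + 8 * e * k * Fintype.card K + 1) (fun k => by omega)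
  refine ⟨N, Fintype.card K + (N + 2) +
    ∑ k ∈ range (N + 1), (p₂ k + 1024 * (e * (k + 1)) * (m + 1)), ?_⟩
  intro p hpr hp₀ A hAC
  have hp1 : 1 ≤ p := hpr.out.one_lt.le
  obtain ⟨t⟩ : Nonempty (K ↪ ZMod p) := Function.Embedding.nonempty_of_card_le (by
    rw [ZMod.card]
    omega)
  have hfr0 : Module.finrank (ZMod p) (Fin (d + 1) → ZMod p) = d + 1 := by
    simp
  have hfr : Module.finrank (ZMod p) ((Fin (d + 1) → ZMod p) × ZMod p) = d + 2 := by
    rw [Module.finrank_prod, hfr0, Module.finrank_self]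
  obtain ⟨ι, _, _, B, L, hιN, hD, hmass, hB⟩ := hdec p ((Fin (d + 1) → ZMod p) × ZMod p) hfr.le
    (A.map (VIRTM.emb t)) (by rwa [card_map])
  rw [card_map] at hmass
  set k := Fintype.card ι with hk
  have hpk : p₂ k + 1024 * (e * (k + 1)) * (m + 1) ≤ p := by
    have h1 : p₂ k + 1024 * (e * (k + 1)) * (m + 1) ≤
        ∑ k ∈ range (N + 1), (p₂ k + 1024 * (e * (k + 1)) * (m + 1)) :=
      single_le_sum (f := fun k => p₂ k + 1024 * (e * (k + 1)) * (m + 1))
        (fun _ _ => Nat.zero_le _) (mem_range.2 (by omega))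
    omega
  have hEK : 1 ≤ e * (k + 1) := hE1 k
  have hKE : k + 1 ≤ e * (k + 1) := Nat.le_mul_of_pos_left _ he
  have hp1024 : 1024 * (e * (k + 1)) ≤ p := by
    have h1 : 1024 * (e * (k + 1)) ≤ 1024 * (e * (k + 1)) * (m + 1) :=
      Nat.le_mul_of_pos_right _ (by omega)
    omega
  set E := e * (k + 1) with hE
  -- nonempty cells have positive dimension and lie in one slice
  have hL : ∀ i, (B i).Nonempty → L i ≠ ⊥ := by
    intro i hi hLi
    rcases hB i with h | ⟨h, _⟩
    · rw [h] at hi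
      exact not_nonempty_empty hi
    · have h1 : #(B i) ≤ 1 := MAINM.card_le_one (p := p) (by
        have := hD.cos i
        rw [hLi] at this
        exact this)
      have h2 : 2 * (4 * e) * k * #(B i) ≤ 2 * (4 * e) * k * 1 := Nat.mul_le_mul_left _ h1
      have h3 : 2 * (4 * e) * k * 1 + 8 * e = 8 * E := by
        rw [hE]
        ring
      omega
  have hLs : ∀ i, (B i).Nonempty → ∀ x ∈ L i, x.2 = 0 := by
    intro i hi
    rcases hB i with h | ⟨h, b, hbs, hbF⟩
    · rw [h] at hi
      exact absurd hi not_nonempty_empty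
    · refine VIRTM.slice (hD.sub i) (hD.cos i) hbs ?_
      refine VIRTM.num7 hp1 h (le_trans (Nat.mul_le_mul_right _ ?_) hbF)
      change 8 * e * k * Fintype.card K + 1 ≤ 128 * (e * (k + 1)) * W k +
        8 * e * k * Fintype.card K + 1
      omega
  have hx : ∀ i, ∃ x, x ∈ L i ∧ (L i ≠ ⊥ → x ≠ 0) := by
    intro i
    by_cases h : L i = ⊥
    · exact ⟨0, (L i).zero_mem, fun h' => absurd h h'⟩
    · obtain ⟨x, h1, h2⟩ := Submodule.exists_mem_ne_zero_of_ne_bot h
      exact ⟨x, h1, fun _ => h2⟩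
  choose x hxL hx0 using hx
  obtain ⟨φ, hφ⟩ := transversal (p := p) (ι := Option ι) (by
      rw [Fintype.card_option]
      omega) (fun o => o.elim ((Pi.single 0 1 : Fin (d + 1) → ZMod p), (0 : ZMod p)) x)
  have hφ1 : φ (Pi.single 0 1, 0) ≠ 0 := by
    refine hφ none ?_
    intro h
    have h1 := congrFun (congrArg Prod.fst h) 0
    simp at h1
  have hφx : ∀ i, x i ≠ 0 → φ (x i) ≠ 0 := fun i => hφ (some i)
  -- virtual representatives
  have hu : ∀ i, ∃ u : Fin (d + 1) → ZMod p, ∃ τ : ZMod p, φ (u, 0) = 0 ∧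
      ∀ a ∈ B i, a - (u, τ) ∈ L i := by
    intro i
    rcases (B i).eq_empty_or_nonempty with h | hne
    · refine ⟨0, 0, ?_, fun a ha => ?_⟩
      · exact map_zero φ
      · rw [h] at ha
        exact absurd ha (notMem_empty a)
    · obtain ⟨a₀, ha₀⟩ := id hne
      obtain ⟨u, h1, h2⟩ := MAINM.virt (hxL i) (hφx i (hx0 i (hL i hne))) (a₀.1, 0)
      have hu2 : u.2 = 0 := by
        have h3 := hLs i hne _ h2
        rw [Prod.snd_sub, zero_sub, neg_eq_zero] at h3
        exact h3
      refine ⟨u.1, a₀.2, ?_, fun a ha => ?_⟩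
      · have h3 : (u.1, (0 : ZMod p)) = u := Prod.ext rfl hu2.symm
        rw [h3]
        exact h1
      · have h3 := (L i).add_mem (hD.cos i a ha a₀ ha₀) h2
        have h4 : a - (u.1, a₀.2) = a - a₀ + ((a₀.1, 0) - u) := by
          ext1
          · simp
          · simp [hu2]
        rw [h4]
        exact h3
  choose u τ hφu huL using hu
  -- the multiplicities
  obtain ⟨cut, hcut, hcut1⟩ : ∃ cut : ℕ, cut = p / (16 * E) + 1 ∧ 1 ≤ cut :=
    ⟨_, rfl, Nat.le_add_left _ _⟩
  have hφ0 : φ ∘ₗ LinearMap.inl (ZMod p) (Fin (d + 1) → ZMod p) (ZMod p) ≠ 0 := by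
    intro h
    have h1 := LinearMap.congr_fun h (Pi.single 0 1)
    exact hφ1 h1
  refine ⟨ι, inferInstance, inferInstance,
    LinearMap.ker (φ ∘ₗ LinearMap.inl (ZMod p) (Fin (d + 1) → ZMod p) (ZMod p)), u,
    fun i => (#(B i) - cut) / m, hιN, MAINM.finrank_ker hφ0 hfr0,
    fun i => LinearMap.mem_ker.2 (hφu i), ?_, ?_⟩
  · refine VIRTM.num6 (B := fun i => #(B i)) (k := k) hk.symm he
      (le_trans (Nat.le_add_left _ _) hpk) (fun i => ?_) hmass
    rw [← hE, ← hcut]
    have h1 := Nat.div_add_mod (#(B i) - cut) m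
    have h2 := Nat.mod_lt (#(B i) - cut) (show m > 0 by omega)
    change #(B i) ≤ m * ((#(B i) - cut) / m) + (m + cut)
    omega
  intro a han hap hau
  -- rounding
  obtain ⟨β, hβ, hβ0, hβp, hβz, hβc, hβα⟩ := hc k p hp1 ι hk.ge (MAINM.lat u p)
    (MAINM.single_mem u) (fun l hl => hl.1) (fun i => (a i : ℤ)) (by
      rw [MAINM.mem_lat]
      refine ⟨?_, ?_⟩
      · rw [← Nat.cast_sum, hap]
      · simpa only [natCast_zsmul] using hau)
    (fun i => by positivity) (by rw [← Nat.cast_sum, hap])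
  have hβn : ∀ i, ((β i).toNat : ℤ) = β i := fun i => Int.toNat_of_nonneg (hβ0 i)
  have hcell : ∀ i, ∃ S ⊆ A, S.map (VIRTM.emb t) ⊆ B i ∧ #S = m * (β i).toNat ∧
      ∑ a ∈ S, a = (0, (m * (β i).toNat) • u i) := by
    intro i
    by_cases hi : β i = 0
    · rw [hi]
      refine ⟨∅, empty_subset _, ?_, rfl, ?_⟩
      · rw [map_empty]
        exact empty_subset _
      · rw [sum_empty, Int.toNat_zero, mul_zero, zero_smul]
        rfl
    · have h1 : a i ≠ 0 := fun h => hi (hβz i (by exact_mod_cast h))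
      have h2 : m * a i ≤ #(B i) - cut :=
        (Nat.mul_le_mul_left _ (han i)).trans (Nat.mul_div_le _ _)
      have h2' : 1 ≤ m * a i := Nat.mul_pos hm (by omega)
      rcases hB i with h3 | ⟨h3, b, hbs, hbF⟩
      · rw [h3, card_empty] at h2
        omega
      · set q := p / (2 * c k + 128 * E) with hq
        have hq1 : (2 * c k + 128 * E) * q ≤ p := Nat.mul_div_le _ _
        have hq2 : p ≤ (2 * c k + 128 * E) * (q + 1) :=
          (Nat.lt_mul_div_succ p (show 0 < 2 * c k + 128 * E by omega)).le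
        have h4 : p ≤ c k * (m * (β i).toNat) := by
          have h5 : p ≤ c k * (β i).toNat := by
            rcases hβc i with h | h
            · exact absurd h hi
            · rw [← hβn i] at h
              exact_mod_cast h
          refine h5.trans (Nat.mul_le_mul_left _ (Nat.le_mul_of_pos_left _ hm))
        have hBne : (B i).Nonempty := by
          rw [nonempty_iff_ne_empty]
          intro h
          rw [h, card_empty] at h2
          omega
        have hbF' : (128 * (e * (k + 1)) * W k + 1) * b ≤ p := by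
          refine le_trans (Nat.mul_le_mul_right _ ?_) hbF
          change 128 * (e * (k + 1)) * W k + 1 ≤ 128 * (e * (k + 1)) * W k +
            8 * e * k * Fintype.card K + 1
          omega
        have hfull : Full (L i) (B i) (q + 1) :=
          hfill k p (by omega) ((Fin (d + 1) → ZMod p) × ZMod p) hfr.le (L i) (hL i hBne) (B i) b
            (q + 1) (hD.cos i) hbs (MAINM.num4 hp1 h3 hbF') (MAINM.num2 hp1024 he hq1 h3) hq2
        have hhit : Hit (B i) (m * (β i).toNat) ((m * (β i).toNat) • (u i, τ i)) := by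
          refine hfull _ (MAINM.num1 hp1 hq1 h4) ?_ _ ?_
          · -- upper bound
            have h5 : 64 * E * (m * ((β i).toNat - a i)) ≤ p := by
              have h6 := hβα i
              rw [← hβn i] at h6
              rw [← mul_assoc]
              zify
              refine le_trans ?_ h6
              push_cast
              refine mul_le_mul_of_nonneg_left ?_ (by positivity)
              rcases le_total (a i) (β i).toNat with h7 | h7
              · rw [Nat.cast_sub h7]
                exact le_abs_self _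
              · rw [Nat.sub_eq_zero_of_le h7]
                simp
            have h6 := MAINM.num3 (a := m * a i) (B := #(B i)) hEK hq1 h5 (by
              rw [← hcut]
              omega)
            have h7 : m * (β i).toNat ≤ m * a i + m * ((β i).toNat - a i) := by
              rw [← mul_add]
              exact Nat.mul_le_mul_left _ (by omega)
            omega
          · intro y hy
            rw [← smul_sub]
            refine (L i).smul_of_tower_mem _ ?_
            have h7 := (L i).neg_mem (huL i y hy)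
            rwa [neg_sub] at h7
        have hone : ∀ x ∈ B i, ∀ y ∈ B i, x.2 = y.2 := fun x hx y hy => by
          have := hLs i hBne _ (hD.cos i x hx y hy)
          rw [Prod.snd_sub] at this
          exact sub_eq_zero.1 this
        obtain ⟨S, hS, hSB, hSc, hSs⟩ := VIRTM.back (hD.sub i) hone (fun g => by
          rw [mul_comm, mul_smul, hK, smul_zero]) hhit
        exact ⟨S, hS, hSB, hSc, hSs⟩
  have h8 := VIRTM.union hD.disj hcell
  have h9 : ∑ i, (m * (β i).toNat) = m * p := by
    rw [← mul_sum]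
    congr 1
    zify
    rw [← hβp]
    exact sum_congr rfl fun i _ => hβn i
  have h10 : ∑ i, (((0 : K), (m * (β i).toNat) • u i) : K × (Fin (d + 1) → ZMod p)) = 0 := by
    have h11 := ((MAINM.mem_lat).1 hβ).2
    refine Prod.ext ?_ ?_
    · rw [Prod.fst_sum]
      exact sum_const_zero
    · rw [Prod.snd_sum]
      have h12 : ∑ i, (m * (β i).toNat) • u i = m • ∑ i, β i • u i := by
        rw [smul_sum]
        refine sum_congr rfl fun i _ => ?_
        rw [mul_smul, ← natCast_zsmul (u i) (β i).toNat, hβn i]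
      exact h12.trans (by rw [h11, smul_zero]; rfl)
  rwa [h9, h10] at h8

end Pool.Agent.Lib.MPa7239a.AR
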