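import Pool.Agent.Lib.MP_a7239a_co.AR.POSX

/-!
# ARX, module VIRX: the virtual sequence over `K × ZMod p ^ d` with multiplicities at most `p`

Text: MP_a7239a_ARX_h59.md.
-/

set_option autoImplicit false
set_option linter.unusedSectionVars false

open Finset
open scoped Pointwise

namespace Pool.Agent.Lib.MPa7239a.AR

open Pool.Agent.Lib.MPa7239a.GC
open Pool.Agent.Lib.MPa7239a.R3

namespace VIRXM

/-- the lattice -/
def lat2 {ι M : Type} [Fintype ι] [AddCommGroup M] (w : ι → M) (q : ℕ) : AddSubgroup (ι → ℤ) where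
  carrier := {l | (q : ℤ) ∣ ∑ i, l i ∧ ∑ i, l i • w i = 0}
  zero_mem' := by
    refine ⟨?_, ?_⟩ <;> simp
  add_mem' := by
    rintro a b ⟨ha, ha'⟩ ⟨hb, hb'⟩
    refine ⟨?_, ?_⟩
    · simp only [Pi.add_apply, sum_add_distrib]
      exact dvd_add ha hb
    · simp only [Pi.add_apply, add_smul, sum_add_distrib]
      rw [ha', hb', add_zero]
  neg_mem' := by
    rintro a ⟨ha, ha'⟩
    refine ⟨?_, ?_⟩
    · simp only [Pi.neg_apply, sum_neg_distrib]
      exact (dvd_neg).2 ha
    · simp only [Pi.neg_apply, neg_smul, sum_neg_distrib]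
      rw [ha', neg_zero]

theorem mem_lat2 {ι M : Type} [Fintype ι] [AddCommGroup M] {w : ι → M} {q : ℕ} {l : ι → ℤ} :
    l ∈ lat2 w q ↔ (q : ℤ) ∣ ∑ i, l i ∧ ∑ i, l i • w i = 0 := Iff.rfl

theorem single_mem2 {ι M : Type} [Fintype ι] [DecidableEq ι] [AddCommGroup M] (w : ι → M) {q : ℕ}
    (hq : ∀ x : M, q • x = 0) (i : ι) : (Pi.single i (q : ℤ) : ι → ℤ) ∈ lat2 w q := by
  rw [mem_lat2]
  refine ⟨?_, ?_⟩
  · rw [sum_pi_single']
    simp
  · rw [sum_eq_single i]
    · rw [Pi.single_eq_same, natCast_zsmul, hq]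
    · intro j _ hj
      rw [Pi.single_eq_of_ne hj, zero_smul]
    · intro h
      exact absurd (mem_univ i) h

end VIRXM

/-- the virtual sequence -/
theorem virtualX (K : Type) [AddCommGroup K] [Fintype K] [DecidableEq K] (m : ℕ) (hm : 1 ≤ m)
    (hK : ∀ g : K, m • g = 0) (d e C : ℕ) (he : 1 ≤ e) :
    ∃ N p₀ : ℕ, ∀ (p : ℕ) [Fact p.Prime], p₀ ≤ p → ∀ A : Finset (K × (Fin (d + 1) → ZMod p)),
      #A ≤ C * p → ∃ (ι : Type) (_ : Fintype ι) (_ : DecidableEq ι)
        (P : Submodule (ZMod p) (Fin (d + 1) → ZMod p)) (g : ι → K)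
        (u : ι → Fin (d + 1) → ZMod p) (n : ι → ℕ), Fintype.card ι ≤ N ∧
        Module.finrank (ZMod p) P = d ∧ (∀ i, u i ∈ P) ∧ e * #A ≤ e * ∑ i, n i + p ∧
        (∀ F : Finset ι, (∀ i ∈ F, ∀ j ∈ F, g i = g j ∧ u i = u j) → ∑ i ∈ F, n i ≤ p) ∧
        ∀ a : ι → ℕ, (∀ i, a i ≤ n i) → ∑ i, a i = m * p → ∑ i, a i • g i = 0 →
          ∑ i, a i • u i = 0 → Hit A (m * p) 0 := by
  classical
  have hE1 : ∀ κ : ℕ, 1 ≤ 2 * e * (κ + 1) := fun κ => Nat.mul_pos (by omega) (by omega)
  choose c hc1 hc using fun κ : ℕ => rounding κ (64 * (2 * e * (κ + 1)) * m)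
    (Nat.mul_pos (by have := hE1 κ; omega) hm)
  choose W p₂ hW1 hfill using fun κ : ℕ =>
    fill (d + 2) (2 * c κ + 128 * (2 * e * (κ + 1))) (by have := hE1 κ; omega)
  obtain ⟨N, hdec⟩ := decomposition (d + 2) C (4 * e) (by omega)
    (fun k => 128 * (2 * e * (k * (C + 1) + 1)) * W (k * (C + 1)) +
      8 * e * k * Fintype.card K + 1) (fun k => by omega)
  refine ⟨N * (C + 1), Fintype.card K + (N * (C + 1) + 2) * (N * (C + 1) + 2) +
    ∑ κ ∈ range (N * (C + 1) + 1), (p₂ κ + 1024 * (2 * e * (κ + 1))), ?_⟩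
  intro p hpr hp₀ A hAC
  have hp1 : 1 ≤ p := hpr.out.one_lt.le
  obtain ⟨t⟩ : Nonempty (K ↪ ZMod p) := Function.Embedding.nonempty_of_card_le (by
    rw [ZMod.card]
    omega)
  have hfr0 : Module.finrank (ZMod p) (Fin (d + 1) → ZMod p) = d + 1 := by
    simp
  have hfr : Module.finrank (ZMod p) ((Fin (d + 1) → ZMod p) × ZMod p) = d + 2 := by
    rw [Module.finrank_prod, hfr0, Module.finrank_self]
  obtain ⟨ι₀, _, _, B, L, hιN, hD, hmass, hB⟩ := hdec p ((Fin (d + 1) → ZMod p) × ZMod p) hfr.le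
    (A.map (VIRTM.emb t)) (by rwa [card_map])
  rw [card_map] at hmass
  obtain ⟨k₀, hk₀⟩ : ∃ k₀ : ℕ, k₀ = Fintype.card ι₀ := ⟨_, rfl⟩
  rw [← hk₀] at hιN hB
  obtain ⟨κ, hκ⟩ : ∃ κ : ℕ, κ = k₀ * (C + 1) := ⟨_, rfl⟩
  have hκN : κ ≤ N * (C + 1) := by
    rw [hκ]
    exact Nat.mul_le_mul_right _ hιN
  have hpκ : p₂ κ + 1024 * (2 * e * (κ + 1)) ≤ p := by
    have h1 : p₂ κ + 1024 * (2 * e * (κ + 1)) ≤
        ∑ κ ∈ range (N * (C + 1) + 1), (p₂ κ + 1024 * (2 * e * (κ + 1))) :=
      single_le_sum (f := fun κ => p₂ κ + 1024 * (2 * e * (κ + 1)))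
        (fun _ _ => Nat.zero_le _) (mem_range.2 (by omega))
    omega
  have hκp : (κ + 2) * (κ + 2) ≤ p := by
    have h1 : (κ + 2) * (κ + 2) ≤ (N * (C + 1) + 2) * (N * (C + 1) + 2) :=
      Nat.mul_le_mul (by omega) (by omega)
    omega
  simp only [← hκ] at hB
  have hEK : 1 ≤ 2 * e * (κ + 1) := hE1 κ
  have hp1024 : 1024 * (2 * e * (κ + 1)) ≤ p := by omega
  -- the nonempty cells
  have hcell1 : ∀ i, (B i).Nonempty → p ≤ 2 * (4 * e) * k₀ * #(B i) ∧ ∃ b, Spread (L i) (B i) b ∧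
      (128 * (2 * e * (κ + 1)) * W κ + 8 * e * k₀ * Fintype.card K + 1) * b ≤ p := by
    intro i hi
    rcases hB i with h | h
    · rw [h] at hi
      exact absurd hi not_nonempty_empty
    · exact h
  have hLs : ∀ i, (B i).Nonempty → ∀ x ∈ L i, x.2 = 0 := by
    intro i hi
    obtain ⟨h, b, hbs, hbF⟩ := hcell1 i hi
    refine VIRTM.slice (hD.sub i) (hD.cos i) hbs ?_
    refine VIRTM.num7 hp1 h (le_trans (Nat.mul_le_mul_right _ ?_) hbF)
    omega
  -- the pieces
  choose D hDB hDc hDd using fun i : {i : ι₀ // (B i).Nonempty} =>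
    VIRXM.pieces (#(B i.1) / (C + 1)) (C + 1) (B i.1) (Nat.mul_div_le _ _)
  have hs : ∀ i : {i : ι₀ // (B i).Nonempty}, 1 ≤ #(B i.1) / (C + 1) ∧
      p ≤ 2 * (4 * (2 * e)) * κ * (#(B i.1) / (C + 1)) := fun i =>
    VIRXM.num9 hκ he hp1024 (hcell1 i.1 i.2).1
  have hcard : Fintype.card ({i : ι₀ // (B i).Nonempty} × Fin (C + 1)) ≤ κ := by
    rw [Fintype.card_prod, Fintype.card_fin, hκ, hk₀]
    exact Nat.mul_le_mul_right _ (Fintype.card_subtype_le _)
  -- facts about the pieces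
  have hDA : ∀ k : {i : ι₀ // (B i).Nonempty} × Fin (C + 1), D k.1 k.2 ⊆ A.map (VIRTM.emb t) :=
    fun k => (hDB k.1 k.2).trans (hD.sub k.1.1)
  have hdis : ∀ k k' : {i : ι₀ // (B i).Nonempty} × Fin (C + 1), k ≠ k' →
      Disjoint (D k.1 k.2) (D k'.1 k'.2) := by
    rintro ⟨i, j⟩ ⟨i', j'⟩ h
    by_cases hi : i = i'
    · subst hi
      exact hDd i j j' fun h' => h (by rw [h'])
    · exact Disjoint.mono (hDB i j) (hDB i' j')
        (hD.disj i.1 i'.1 fun h' => hi (Subtype.ext h'))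
  have hne : ∀ k : {i : ι₀ // (B i).Nonempty} × Fin (C + 1), (D k.1 k.2).Nonempty := fun k => by
    rw [← card_pos, hDc]
    exact (hs k.1).1
  have hcos : ∀ k : {i : ι₀ // (B i).Nonempty} × Fin (C + 1), ∀ x ∈ D k.1 k.2,
      ∀ y ∈ D k.1 k.2, x - y ∈ L k.1.1 := fun k x hx y hy =>
    hD.cos k.1.1 x (hDB k.1 k.2 hx) y (hDB k.1 k.2 hy)
  have hDp : ∀ k : {i : ι₀ // (B i).Nonempty} × Fin (C + 1), #(D k.1 k.2) ≤ p := fun k => by
    rw [hDc]
    have h1 : #(B k.1.1) ≤ C * p := by
      refine (card_le_card (hD.sub k.1.1)).trans ?_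
      rwa [card_map]
    refine Nat.div_le_of_le_mul (h1.trans (Nat.mul_le_mul_right _ (Nat.le_succ _)))
  have hL : ∀ k : {i : ι₀ // (B i).Nonempty} × Fin (C + 1), L k.1.1 ≠ ⊥ := by
    intro k hk
    have h1 : #(D k.1 k.2) ≤ 1 := MAINM.card_le_one (p := p) (by
      have := hcos k
      rw [hk] at this
      exact this)
    have h2 := (hs k.1).2
    rw [← hDc k.1 k.2] at h2
    have h3 : 2 * (4 * (2 * e)) * κ * #(D k.1 k.2) ≤ 2 * (4 * (2 * e)) * κ * 1 :=
      Nat.mul_le_mul_left _ h1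
    have h4 : 2 * (4 * (2 * e)) * κ * 1 + 16 * e = 8 * (2 * e * (κ + 1)) := by ring
    omega
  obtain ⟨P, g, u, v₀, hP, huP, hfib, hpos⟩ := VIRXM.position (t := t) (A := A)
    (D := fun k : {i : ι₀ // (B i).Nonempty} × Fin (C + 1) => D k.1 k.2)
    (L := fun k => L k.1.1) hDA hdis hne hDp hcos hL (fun k => hLs k.1.1 k.1.2) (by
      refine le_trans ?_ hκp
      exact Nat.mul_le_mul (by omega) (by omega))
  obtain ⟨cut, hcut, hcut1⟩ : ∃ cut : ℕ, cut = p / (16 * (2 * e * (κ + 1))) + 1 ∧ 1 ≤ cut :=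
    ⟨_, rfl, Nat.le_add_left _ _⟩
  refine ⟨{i : ι₀ // (B i).Nonempty} × Fin (C + 1), inferInstance, inferInstance, P, g, u,
    fun k => #(D k.1 k.2) - cut, hcard.trans hκN, hP, huP, ?_, ?_, ?_⟩
  · -- the sum of the multiplicities
    refine VIRXM.num8 hκ hp1024 ?_ hmass
    rw [← hcut]
    have h1 : ∑ i, #(B i) = ∑ i : {i : ι₀ // (B i).Nonempty}, #(B i.1) := by
      rw [← sum_filter_add_sum_filter_not univ (fun i => (B i).Nonempty)]
      have h2 : ∑ i ∈ univ.filter (fun i => ¬ (B i).Nonempty), #(B i) = 0 := by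
        refine sum_eq_zero fun i hi => ?_
        rw [mem_filter, not_nonempty_iff_eq_empty] at hi
        rw [hi.2, card_empty]
      rw [h2, add_zero]
      exact sum_subtype _ (by simp) _
    have hSN : ∑ k : {i : ι₀ // (B i).Nonempty} × Fin (C + 1), (#(D k.1 k.2) - cut) =
        ∑ i : {i : ι₀ // (B i).Nonempty}, ∑ j : Fin (C + 1), (#(D i j) - cut) :=
      Fintype.sum_prod_type _
    rw [h1, hSN]
    have h3 : ∀ i : {i : ι₀ // (B i).Nonempty}, #(B i.1) ≤
        ∑ j : Fin (C + 1), (#(D i j) - cut) + (C + 1) * cut + C := by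
      intro i
      have h4 : ∑ j : Fin (C + 1), (#(D i j) - cut) + (C + 1) * cut ≥
          (C + 1) * (#(B i.1) / (C + 1)) := by
        have h5 : ∑ j : Fin (C + 1), (#(D i j) - cut) =
            (C + 1) * (#(B i.1) / (C + 1) - cut) := by
          rw [sum_congr rfl fun j _ => by rw [hDc i j], sum_const, card_univ, Fintype.card_fin,
            smul_eq_mul]
        rw [h5, ← mul_add]
        exact Nat.mul_le_mul_left _ (by omega)
      have h6 := Nat.div_add_mod (#(B i.1)) (C + 1)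
      have h7 := Nat.mod_lt (#(B i.1)) (show C + 1 > 0 by omega)
      omega
    refine (sum_le_sum fun i _ => h3 i).trans ?_
    rw [sum_add_distrib, sum_add_distrib, sum_const, sum_const, card_univ, smul_eq_mul,
      smul_eq_mul]
    have h8 : Fintype.card {i : ι₀ // (B i).Nonempty} ≤ k₀ := by
      rw [hk₀]
      exact Fintype.card_subtype_le _
    have h9 : Fintype.card {i : ι₀ // (B i).Nonempty} * ((C + 1) * cut) ≤ κ * cut := by
      rw [hκ, ← mul_assoc]
      exact Nat.mul_le_mul_right _ (Nat.mul_le_mul_right _ h8)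
    have h10 : Fintype.card {i : ι₀ // (B i).Nonempty} * C ≤ C * k₀ := by
      rw [mul_comm]
      exact Nat.mul_le_mul_left _ h8
    omega
  · intro F hF
    exact (sum_le_sum fun i _ => Nat.sub_le _ _).trans (hfib F hF)
  intro a han hap hag hau
  have hmp : 1 ≤ m * p := Nat.mul_pos hm hp1
  -- rounding
  obtain ⟨β, hβ, hβ0, hβp, hβz, hβc, hβα⟩ := hc κ (m * p) hmp
    ({i : ι₀ // (B i).Nonempty} × Fin (C + 1)) hcard
    (VIRXM.lat2 (fun k => ((g k, u k) : K × (Fin (d + 1) → ZMod p))) (m * p))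
    (VIRXM.single_mem2 _ (fun x => by
      refine Prod.ext ?_ ?_
      · change (m * p) • x.1 = 0
        rw [mul_comm, mul_smul, hK, smul_zero]
      · change (m * p) • x.2 = 0
        rw [mul_smul]
        have : p • x.2 = 0 := by
          ext i
          simp
        rw [this, smul_zero])) (fun l hl => hl.1) (fun i => (a i : ℤ)) (by
      rw [VIRXM.mem_lat2]
      refine ⟨?_, ?_⟩
      · rw [← Nat.cast_sum, hap]
      · refine Prod.ext ?_ ?_
        · rw [Prod.fst_sum, Prod.fst_zero]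
          refine Eq.trans (sum_congr rfl fun i _ => ?_) hag
          change (a i : ℤ) • g i = a i • g i
          rw [natCast_zsmul]
        · rw [Prod.snd_sum, Prod.snd_zero]
          refine Eq.trans (sum_congr rfl fun i _ => ?_) hau
          change (a i : ℤ) • u i = a i • u i
          rw [natCast_zsmul])
    (fun i => by positivity) (by rw [← Nat.cast_sum, hap])
  have hβn : ∀ i, ((β i).toNat : ℤ) = β i := fun i => Int.toNat_of_nonneg (hβ0 i)
  have hcell : ∀ k, ∃ S ⊆ A, S.map (VIRTM.emb t) ⊆ D k.1 k.2 ∧ #S = (β k).toNat ∧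
      ∑ a ∈ S, a = ((β k).toNat • g k, (β k).toNat • (u k + v₀)) := by
    intro k
    by_cases hi : β k = 0
    · rw [hi]
      refine ⟨∅, empty_subset _, ?_, rfl, ?_⟩
      · rw [map_empty]
        exact empty_subset _
      · rw [sum_empty, Int.toNat_zero, zero_smul, zero_smul]
        rfl
    · have h1 : a k ≠ 0 := fun h => hi (hβz k (by exact_mod_cast h))
      have h2 : a k ≤ #(D k.1 k.2) - cut := han k
      obtain ⟨-, b, hbs, hbF⟩ := hcell1 k.1.1 k.1.2
      have h3 := (hs k.1).2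
      rw [← hDc k.1 k.2] at h3
      have hq1 : (2 * c κ + 128 * (2 * e * (κ + 1))) *
          (p / (2 * c κ + 128 * (2 * e * (κ + 1)))) ≤ p := Nat.mul_div_le _ _
      have hq2 : p ≤ (2 * c κ + 128 * (2 * e * (κ + 1))) *
          (p / (2 * c κ + 128 * (2 * e * (κ + 1))) + 1) :=
        (Nat.lt_mul_div_succ p (show 0 < 2 * c κ + 128 * (2 * e * (κ + 1)) by omega)).le
      have h4 : p ≤ c κ * (β k).toNat := by
        rcases hβc k with h | h
        · exact absurd h hi
        · rw [← hβn k] at h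
          have h5 : m * p ≤ c κ * (β k).toNat := by exact_mod_cast h
          exact le_trans (Nat.le_mul_of_pos_left _ hm) h5
      have hbF' : (128 * (2 * e * (κ + 1)) * W κ + 1) * b ≤ p := by
        refine le_trans (Nat.mul_le_mul_right _ ?_) hbF
        omega
      have hfull : Full (L k.1.1) (D k.1 k.2) (p / (2 * c κ + 128 * (2 * e * (κ + 1))) + 1) :=
        hfill κ p (by omega) ((Fin (d + 1) → ZMod p) × ZMod p) hfr.le (L k.1.1) (hL k)
          (D k.1 k.2) b (p / (2 * c κ + 128 * (2 * e * (κ + 1))) + 1) (hcos k)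
          (hbs.mono (hDB k.1 k.2) le_rfl) (MAINM.num4 hp1 h3 hbF')
          (MAINM.num2 hp1024 (by omega) hq1 h3) hq2
      have hhit : Hit (D k.1 k.2) (β k).toNat ((β k).toNat • (u k + v₀, t (g k))) := by
        refine hfull _ (MAINM.num1 hp1 hq1 h4) ?_ _ ?_
        · -- upper bound
          have h5 : 64 * (2 * e * (κ + 1)) * ((β k).toNat - a k) ≤ p := by
            have h6 := hβα k
            rw [← hβn k] at h6
            have h7 : (((64 * (2 * e * (κ + 1)) * m) * ((β k).toNat - a k) : ℕ) : ℤ) ≤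
                ((m * p : ℕ) : ℤ) := by
              refine le_trans ?_ h6
              push_cast
              refine mul_le_mul_of_nonneg_left ?_ (by positivity)
              rcases le_total (a k) (β k).toNat with h7 | h7
              · rw [Nat.cast_sub h7]
                exact le_abs_self _
              · rw [Nat.sub_eq_zero_of_le h7]
                simp
            have h8 : (64 * (2 * e * (κ + 1)) * m) * ((β k).toNat - a k) ≤ m * p := by
              exact_mod_cast h7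
            have h9 : (64 * (2 * e * (κ + 1)) * m) * ((β k).toNat - a k) =
                m * (64 * (2 * e * (κ + 1)) * ((β k).toNat - a k)) := by ring
            rw [h9] at h8
            exact Nat.le_of_mul_le_mul_left h8 hm
          have h6 := MAINM.num3 (a := a k) (B := #(D k.1 k.2)) hEK hq1 h5 (by
            rw [← hcut]
            omega)
          omega
        · intro y hy
          rw [← smul_sub]
          refine (L k.1.1).smul_of_tower_mem _ ?_
          have h7 := (L k.1.1).neg_mem (hpos k y hy).2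
          rwa [neg_sub] at h7
      obtain ⟨S, hS, hSB, hSc, hSs⟩ := VIRXM.back2 (hDA k) (fun x hx => (hpos k x hx).1) hhit
      exact ⟨S, hS, hSB, hSc, hSs⟩
  have h8 := VIRTM.union hdis hcell
  have h9 : ∑ k, (β k).toNat = m * p := by
    zify
    rw [← Nat.cast_mul, ← hβp]
    exact sum_congr rfl fun i _ => hβn i
  have h10 : ∑ k, ((((β k).toNat • g k), (β k).toNat • (u k + v₀)) :
      K × (Fin (d + 1) → ZMod p)) = 0 := by
    have h11 := ((VIRXM.mem_lat2).1 hβ).2
    have h12 : ∑ k, β k • g k = 0 := by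
      have := congrArg Prod.fst h11
      rw [Prod.fst_sum] at this
      exact this
    have h13 : ∑ k, β k • u k = 0 := by
      have := congrArg Prod.snd h11
      rw [Prod.snd_sum] at this
      exact this
    refine Prod.ext ?_ ?_
    · rw [Prod.fst_sum, Prod.fst_zero, ← h12]
      refine sum_congr rfl fun i _ => ?_
      change (β i).toNat • g i = β i • g i
      rw [← natCast_zsmul, hβn i]
    · rw [Prod.snd_sum, Prod.snd_zero]
      have h14 : ∀ i, (β i).toNat • (u i + v₀) = β i • u i + (β i).toNat • v₀ := fun i => by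
        rw [smul_add]
        congr 1
        rw [← natCast_zsmul, hβn i]
      have h15 : p • v₀ = 0 := by
        ext i
        simp
      refine (sum_congr rfl fun i _ => h14 i).trans ?_
      rw [sum_add_distrib, h13, zero_add, ← sum_smul, h9, mul_smul, h15, smul_zero]
  rwa [h9, h10] at h8

end Pool.Agent.Lib.MPa7239a.AR
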